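import Pool.Agent.H266LM.TestIff

/-! The classifier accepts exactly the well-formed graphs with a branch without violation. -/

namespace Pool.Agent.H266LM

variable {K : Keyed (Fin 3)} {u : K.V}

section

variable (h : WF1 K.toLGraph u) (h' : WF2 K.toLGraph u)

theorem c_iff {t s : K.V} (ht : K.toLGraph.RT u t) (hs : K.toLGraph.Up t s) :
    cK K t ↔ (toSys h h').c K.val t := by
  have hsr := h.rt_up ht hs
  have e : cK K t ↔ K.val (K.toLGraph.pk .Y t) = MxT K s := by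
    rw [cK, ks_eq h (by simp) ht, up_eq h _ ht hs]
  rw [e]
  obtain ⟨⟨r₁, s₁, a₁, b₁, c₁, d₁⟩, hmx⟩ := mx_spec h hsr hs
  constructor
  · intro e s' r s'' h₁ h₂ h₃
    change K.val (K.toLGraph.pk .Y r) ≤ K.val (K.toLGraph.pk .Y t)
    rw [e]
    have : s' = s := h.upf t s' s ht h₁.2 hs
    subst this
    exact hmx r s'' (h.rt_up h₂.1 h₂.2) h₂.2 h₃
  · intro hc
    apply le_antisymm
    · exact hmx t s hsr hs rfl
    · rw [← d₁]
      exact hc s r₁ s₁ ⟨ht, hs⟩ ⟨h.rt_dn a₁ b₁, b₁⟩ c₁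

theorem viol_iff {t : K.V} (ht : K.toLGraph.RT u t) : violK K t ↔ (toSys h h').viol K.val t := by
  have hup : ∀ s, (K.Adj t s ∧ uQ (K.lab t) K s) ↔ K.toLGraph.Up t s := fun s => Iff.rfl
  constructor
  · rintro ⟨⟨s, hs⟩, hv⟩
    rw [hup] at hs
    have hsr := h.rt_up ht hs
    have hun : ∀ s', K.toLGraph.Up t s' → s' = s := fun s' hs' => h.upf t s' s ht hs' hs
    refine ⟨s, ⟨ht, hs⟩, ?_⟩
    rcases hv with ⟨⟨s', h₁, h₂, h₃⟩, hc⟩ | ⟨⟨s', h₁, h₂, h₃⟩, hc⟩ | ⟨hb, hc⟩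
    · left
      have := hun s' ⟨h₁, h₂⟩
      subst this
      exact ⟨fun ⟨s'', hs''⟩ => h₃ ⟨s'', hs''.2⟩, (c_iff h h' ht hs).1 hc⟩
    · right; left
      have := hun s' ⟨h₁, h₂⟩
      subst this
      obtain ⟨s'', hs''⟩ := not_not.1 h₃
      refine ⟨⟨s'', hsr, hs''⟩, ?_⟩
      rw [← c_iff h h' ht hs, ← c_iff h h' hsr hs'', hc]
      constructor
      · rintro ⟨x, hx₁, hx₂, hx₃⟩
        rwa [hun x ⟨hx₁, hx₂⟩] at hx₃
      · intro hx
        exact ⟨s', h₁, h₂, hx⟩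
    · right; right
      exact ⟨fun ⟨r, hr⟩ => bot_iff.1 hb ⟨r, hr.2⟩, fun hc' => hc ((c_iff h h' ht hs).2 hc')⟩
  · rintro ⟨s, ⟨_, hs⟩, hv⟩
    have hsr := h.rt_up ht hs
    have hun : ∀ s', K.toLGraph.Up t s' → s' = s := fun s' hs' => h.upf t s' s ht hs' hs
    refine ⟨⟨s, hs⟩, ?_⟩
    rcases hv with ⟨h₁, hc⟩ | ⟨⟨s'', h₁⟩, hc⟩ | ⟨hb, hc⟩
    · left
      exact ⟨⟨s, hs.1, hs.2, fun ⟨s'', hs''⟩ => h₁ ⟨s'', hsr, hs''⟩⟩, (c_iff h h' ht hs).2 hc⟩
    · right; left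
      refine ⟨⟨s, hs.1, hs.2, fun hn => hn ⟨s'', h₁.2⟩⟩, ?_⟩
      rw [c_iff h h' ht hs, hc, ← c_iff h h' hsr h₁.2]
      constructor
      · intro hx
        exact ⟨s, hs.1, hs.2, hx⟩
      · rintro ⟨x, hx₁, hx₂, hx₃⟩
        rwa [hun x ⟨hx₁, hx₂⟩] at hx₃
    · right; right
      exact ⟨bot_iff.2 fun ⟨r, hr⟩ => hb ⟨r, h.rt_dn ht hr, hr⟩,
        fun hc' => hc ((c_iff h h' ht hs).1 hc')⟩

theorem good_iff (x : K.V) : (K.Adj u x ∧ goodK K x) ↔ (toSys h h').good K.val x := by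
  have haB : (Srt.B = .B ∨ Srt.B = .Y ∨ Srt.B = .L) := by simp
  constructor
  · rintro ⟨hx, hs, ⟨t, hxt, hT⟩, hv⟩
    obtain ⟨ht, e⟩ := rt_of_adj h haB hx hs hxt hT
    refine ⟨⟨t, ht, e⟩, fun t' ht' e' hviol => hv ⟨t', ?_, ht'.2, (viol_iff h h' ht').2 hviol⟩⟩
    have := (adj_pk h haB ht').2.2
    have e'' : K.toLGraph.pk .B t' = x := e'
    rwa [e''] at this
  · rintro ⟨⟨t, ht, e⟩, hv⟩
    have e'' : K.toLGraph.pk .B t = x := e
    obtain ⟨h₁, h₂, h₃⟩ := adj_pk h haB (show K.toLGraph.RT u t from ht)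
    rw [e''] at h₁ h₂ h₃
    refine ⟨h₁, h₂, ⟨t, h₃, ht.2⟩, ?_⟩
    rintro ⟨t', hxt', hT', hviol⟩
    obtain ⟨ht', e'⟩ := rt_of_adj h haB h₁ h₂ hxt' hT'
    exact hv t' ht' e' ((viol_iff h h' ht').1 hviol)

end

theorem acc_iff : acc K u ↔ ∃ (h : WF1 K.toLGraph u) (h' : WF2 K.toLGraph u),
    ∃ x, (toSys h h').good K.val x := by
  constructor
  · rintro ⟨hu, h₁, h₂, h₃, x, hx⟩
    have h := test1.1 ⟨hu, h₁⟩
    have h' := (test2 h).1 ⟨h₂, h₃⟩
    exact ⟨h, h', x, (good_iff h h' x).1 hx⟩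
  · rintro ⟨h, h', x, hx⟩
    obtain ⟨hu, h₁⟩ := test1.2 h
    obtain ⟨h₂, h₃⟩ := (test2 h).2 h'
    exact ⟨hu, h₁, h₂, h₃, x, (good_iff h h' x).2 hx⟩

/-- in a well-formed graph the classifier computes the parity of the height of the bottom nodes -/
theorem acc_iff_even (h : WF1 K.toLGraph u) (h' : WF2 K.toLGraph u) {k : ℕ} {β : K.V}
    (hβ : (toSys h h').Ht k β) (hβb : ¬ ∃ r, (toSys h h').U r β) : acc K u ↔ Even k := by
  rw [acc_iff]
  rw [← (toSys h h').exists_good_iff K.inj hβ hβb]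
  constructor
  · rintro ⟨_, _, hx⟩
    exact hx
  · intro hx
    exact ⟨h, h', hx⟩

theorem acc_congr (G : LGraph (Fin 3)) (u : G.V) (val val' : G.V → ℝ) (i : Function.Injective val)
    (i' : Function.Injective val') :
    acc { toLGraph := G, val := val, inj := i } u ↔ acc { toLGraph := G, val := val', inj := i' } u := by
  rw [acc_iff, acc_iff]
  refine exists_congr fun h => exists_congr fun h' => ?_
  by_cases hT : ∃ t, G.RT u t
  · obtain ⟨t, ht⟩ := hT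
    obtain ⟨β, h₁, h₂, _, _⟩ := (toSys h h').exists_bot t ht
    obtain ⟨k, hk⟩ := (toSys h h').exists_ht β h₁
    exact ((toSys h h').exists_good_iff i hk h₂).trans ((toSys h h').exists_good_iff i' hk h₂).symm
  · constructor <;>
    · rintro ⟨x, ⟨t, ht, _⟩, _⟩
      exact absurd ⟨t, ht⟩ hT

/-- the classifier -/
noncomputable def C : FExpr (Fin 3) := Classical.choose isP_acc

theorem C_accepts (G : LGraph (Fin 3)) (val : G.V → ℝ) (i : Function.Injective val) (u : G.V) :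
    C.Accepts G val i u ↔ acc { toLGraph := G, val := val, inj := i } u := by
  have := Classical.choose_spec isP_acc { toLGraph := G, val := val, inj := i } u
  rw [FExpr.Accepts, C, this]
  by_cases h : acc { toLGraph := G, val := val, inj := i } u <;> simp [ind, h]

theorem C_keyInvariant : C.KeyInvariant := fun G u val val' i i' => by
  rw [C_accepts, C_accepts]
  exact acc_congr G u val val' i i'

end Pool.Agent.H266LM
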