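import Pool.Agent.H266LM.Defs

/-! Closure properties of the features and of the predicates computed by LocalMax feature
expressions, over the labels `Fin n`. -/

set_option linter.unusedSectionVars false

namespace Pool.Agent.H266LM

open Classical in
/-- indicator of a proposition -/
noncomputable def ind (p : Prop) : ℝ := if p then 1 else 0

theorem ind_true {p : Prop} (h : p) : ind p = 1 := by simp [ind, h]
theorem ind_false {p : Prop} (h : ¬ p) : ind p = 0 := by simp [ind, h]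
theorem ind_eq_one {p : Prop} : ind p = 1 ↔ p := by
  by_cases h : p <;> simp [ind, h]

abbrev Feat (P : Type) := ∀ K : Keyed P, K.V → ℝ
abbrev Prd (P : Type) := ∀ K : Keyed P, K.V → Prop

variable {P : Type} [Fintype P] [DecidableEq P]

/-- the feature is computed by a feature expression -/
def IsLM (F : Feat P) : Prop := ∃ e : FExpr P, ∀ K v, e.eval K v = F K v

/-- the predicate is computed by a feature expression -/
def IsP (Q : Prd P) : Prop := IsLM fun K v => ind (Q K v)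

theorem IsLM.congr {F F' : Feat P} (h : IsLM F) (e : ∀ K v, F K v = F' K v) : IsLM F' := by
  obtain ⟨x, hx⟩ := h
  exact ⟨x, fun K v => (hx K v).trans (e K v)⟩

theorem IsP.congr {F F' : Prd P} (h : IsP F) (e : ∀ K v, F K v ↔ F' K v) : IsP F' :=
  IsLM.congr h fun K v => by rw [propext (e K v)]

theorem IsLM.val : IsLM (fun (K : Keyed P) v => K.val v) := ⟨.val, fun _ _ => rfl⟩

theorem IsLM.const (c : ℝ) : IsLM (fun (_ : Keyed P) _ => c) :=
  ⟨.comb 0 (fun _ => c) (fun i => i.elim0), fun _ _ => rfl⟩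

theorem IsLM.map1 (f : ℝ → ℝ) {F : Feat P} (h : IsLM F) : IsLM fun K v => f (F K v) := by
  obtain ⟨x, hx⟩ := h
  refine ⟨.comb 1 (fun r => f (r 0)) (fun _ => x), fun K v => ?_⟩
  simp [FExpr.eval, hx]

theorem IsLM.map2 (f : ℝ → ℝ → ℝ) {F F' : Feat P} (h : IsLM F) (h' : IsLM F') :
    IsLM fun K v => f (F K v) (F' K v) := by
  obtain ⟨x, hx⟩ := h
  obtain ⟨y, hy⟩ := h'
  refine ⟨.comb 2 (fun r => f (r 0) (r 1)) ![x, y], fun K v => ?_⟩
  simp [FExpr.eval, hx, hy]

theorem IsLM.localMax {F : Feat P} (h : IsLM F) :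
    IsLM fun K v => sSup {r : ℝ | ∃ w, K.Adj v w ∧ F K w = r} := by
  obtain ⟨x, hx⟩ := h
  refine ⟨.localMax x, fun K v => ?_⟩
  simp [FExpr.eval, hx]

theorem IsP.lab (Q : (P → Bool) → Prop) : IsP fun (K : Keyed P) v => Q (K.lab v) := by
  refine ⟨.comb (Fintype.card P) (fun r => ind (Q fun p => decide (r (Fintype.equivFin P p) = 1)))
    (fun i => .lab ((Fintype.equivFin P).symm i)), fun K v => ?_⟩
  have : (fun p => decide ((FExpr.lab ((Fintype.equivFin P).symm (Fintype.equivFin P p))).eval K v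
      = 1)) = K.lab v := by
    funext i
    rw [Equiv.symm_apply_apply]
    by_cases h : K.lab v i = true <;> simp [FExpr.eval, h]
  simp only [FExpr.eval] at this ⊢
  rw [this]

theorem IsP.const (p : Prop) : IsP fun (_ : Keyed P) _ => p := IsLM.const _

theorem IsP.not {Q : Prd P} (h : IsP Q) : IsP fun K v => ¬ Q K v := by
  refine (IsLM.map1 (fun r => 1 - r) h).congr fun K v => ?_
  by_cases h : Q K v <;> simp [ind, h]

theorem IsP.and {Q Q' : Prd P} (h : IsP Q) (h' : IsP Q') : IsP fun K v => Q K v ∧ Q' K v := by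
  refine (IsLM.map2 (fun r s => r * s) h h').congr fun K v => ?_
  by_cases h : Q K v <;> by_cases h' : Q' K v <;> simp [ind, h, h']

theorem IsP.or {Q Q' : Prd P} (h : IsP Q) (h' : IsP Q') : IsP fun K v => Q K v ∨ Q' K v :=
  ((h.not.and h'.not).not).congr fun K v => by tauto

theorem IsP.imp {Q Q' : Prd P} (h : IsP Q) (h' : IsP Q') : IsP fun K v => Q K v → Q' K v :=
  ((h.and h'.not).not).congr fun K v => by tauto

theorem IsP.iff {Q Q' : Prd P} (h : IsP Q) (h' : IsP Q') : IsP fun K v => (Q K v ↔ Q' K v) :=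
  ((h.imp h').and (h'.imp h)).congr fun K v => by tauto

theorem IsP.eq {F F' : Feat P} (h : IsLM F) (h' : IsLM F') : IsP fun K v => F K v = F' K v :=
  IsLM.map2 (fun r s => ind (r = s)) h h'

theorem IsP.toLM {Q : Prd P} (h : IsP Q) : IsLM fun K v => ind (Q K v) := h

theorem IsLM.mul {F F' : Feat P} (h : IsLM F) (h' : IsLM F') :
    IsLM fun K v => F K v * F' K v := IsLM.map2 (fun r s => r * s) h h'

theorem IsLM.add {F F' : Feat P} (h : IsLM F) (h' : IsLM F') :
    IsLM fun K v => F K v + F' K v := IsLM.map2 (fun r s => r + s) h h'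

theorem IsLM.neg {F : Feat P} (h : IsLM F) : IsLM fun K v => - F K v :=
  IsLM.map1 (fun r => - r) h

theorem IsLM.sum {ι : Type} (s : Finset ι) {F : ι → Feat P} (h : ∀ i, IsLM (F i)) :
    IsLM fun K v => ∑ i ∈ s, F i K v := by
  classical
  induction s using Finset.induction_on with
  | empty => simpa using IsLM.const (P := P) 0
  | insert a s ha ih =>
    refine ((h a).add ih).congr fun K v => ?_
    rw [Finset.sum_insert ha]

/-- a feature may be chosen according to the label vector -/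
theorem IsLM.pick {F : (P → Bool) → Feat P} (h : ∀ s, IsLM (F s)) :
    IsLM fun K v => F (K.lab v) K v := by
  classical
  refine (IsLM.sum Finset.univ fun s => (IsP.lab (fun t => t = s)).toLM.mul (h s)).congr ?_
  intro K v
  rw [Finset.sum_eq_single (K.lab v)]
  · simp [ind]
  · intro b _ hb
    simp [ind, Ne.symm hb]
  · simp

/-- the maximum of `F` over the neighbours `w` of `v` with `Q (lab v) w`, `0` if there is none -/
noncomputable def nmax (Q : (P → Bool) → Prd P) (F : Feat P) : Feat P :=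
  fun K v => sSup {r : ℝ | ∃ w, K.Adj v w ∧ Q (K.lab v) K w ∧ F K w = r}

theorem nmax_spec (Q : (P → Bool) → Prd P) (F : Feat P) (K : Keyed P) (v : K.V)
    (h : ∃ w, K.Adj v w ∧ Q (K.lab v) K w) :
    (∃ w, K.Adj v w ∧ Q (K.lab v) K w ∧ F K w = nmax Q F K v) ∧
      ∀ w, K.Adj v w → Q (K.lab v) K w → F K w ≤ nmax Q F K v := by
  have hfin : {r : ℝ | ∃ w, K.Adj v w ∧ Q (K.lab v) K w ∧ F K w = r}.Finite := by
    refine (Set.finite_range (fun v : K.V => F K v)).subset ?_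
    rintro r ⟨w, _, _, rfl⟩
    exact ⟨w, rfl⟩
  have hne : {r : ℝ | ∃ w, K.Adj v w ∧ Q (K.lab v) K w ∧ F K w = r}.Nonempty := by
    obtain ⟨w, hw, hq⟩ := h
    exact ⟨_, w, hw, hq, rfl⟩
  exact ⟨hne.csSup_mem hfin, fun w hw hq => le_csSup hfin.bddAbove ⟨w, hw, hq, rfl⟩⟩

theorem nmax_none (Q : (P → Bool) → Prd P) (F : Feat P) (K : Keyed P) (v : K.V)
    (h : ¬ ∃ w, K.Adj v w ∧ Q (K.lab v) K w) : nmax Q F K v = 0 := by
  have : {r : ℝ | ∃ w, K.Adj v w ∧ Q (K.lab v) K w ∧ F K w = r} = ∅ := by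
    ext r
    simp only [Set.mem_ofPred_eq, Set.mem_empty_iff_false, iff_false]
    rintro ⟨w, hw, hq, _⟩
    exact h ⟨w, hw, hq⟩
  rw [nmax, this, Real.sSup_empty]

theorem nmax_eq (Q : (P → Bool) → Prd P) (F : Feat P) (K : Keyed P) (v : K.V)
    {c : ℝ} (h : ∃ w, K.Adj v w ∧ Q (K.lab v) K w)
    (hc : ∀ w, K.Adj v w → Q (K.lab v) K w → F K w = c) : nmax Q F K v = c := by
  obtain ⟨⟨w, hw, hq, e⟩, _⟩ := nmax_spec Q F K v h
  rw [← e, hc w hw hq]

theorem IsP.ex' {Q : Prd P} (h : IsP Q) : IsP fun K v => ∃ w, K.Adj v w ∧ Q K w := by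
  refine (IsLM.localMax h.toLM).congr fun K v => ?_
  have hfin : {r : ℝ | ∃ w, K.Adj v w ∧ ind (Q K w) = r}.Finite := by
    refine (Set.finite_range (fun v : K.V => ind (Q K v))).subset ?_
    rintro r ⟨w, _, rfl⟩
    exact ⟨w, rfl⟩
  by_cases hq : ∃ w, K.Adj v w ∧ Q K w
  · rw [ind_true hq]
    obtain ⟨w, hw, hq⟩ := hq
    refine IsGreatest.csSup_eq ⟨⟨w, hw, ind_true hq⟩, ?_⟩
    rintro r ⟨w, _, rfl⟩
    by_cases h : Q K w <;> simp [ind, h]
  · rw [ind_false hq]
    by_cases hn : {r : ℝ | ∃ w, K.Adj v w ∧ ind (Q K w) = r}.Nonempty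
    · obtain ⟨w, hw, e⟩ := hn.csSup_mem hfin
      rw [← e]
      exact ind_false fun h => hq ⟨w, hw, h⟩
    · rw [Set.not_nonempty_iff_eq_empty.1 hn, Real.sSup_empty]

theorem IsP.pick {Q : (P → Bool) → Prd P} (h : ∀ s, IsP (Q s)) :
    IsP fun K v => Q (K.lab v) K v :=
  IsLM.pick (F := fun s K v => ind (Q s K v)) h

theorem IsP.ex {Q : (P → Bool) → Prd P} (h : ∀ s, IsP (Q s)) :
    IsP fun K v => ∃ w, K.Adj v w ∧ Q (K.lab v) K w :=
  IsP.pick (Q := fun s K v => ∃ w, K.Adj v w ∧ Q s K w) fun s => (h s).ex'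

theorem IsLM.nmax {Q : (P → Bool) → Prd P} (h : ∀ s, IsP (Q s)) {F : Feat P}
    (hF : IsLM F) : IsLM (nmax Q F) := by
  refine (IsLM.pick (F := fun s K v => Real.log
    (sSup {r : ℝ | ∃ w, K.Adj v w ∧ ind (Q s K w) * Real.exp (F K w) = r})) fun s =>
    IsLM.map1 Real.log (IsLM.localMax ((h s).toLM.mul (IsLM.map1 Real.exp hF)))).congr ?_
  intro K v
  by_cases hq : ∃ w, K.Adj v w ∧ Q (K.lab v) K w
  · obtain ⟨⟨w, hw, hqw, e⟩, hle⟩ := nmax_spec Q F K v hq
    have : IsGreatest {r : ℝ | ∃ w, K.Adj v w ∧ ind (Q (K.lab v) K w) * Real.exp (F K w) = r}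
        (Real.exp (Pool.Agent.H266LM.nmax Q F K v)) := by
      refine ⟨⟨w, hw, by rw [ind_true hqw, one_mul, e]⟩, ?_⟩
      rintro r ⟨w', hw', rfl⟩
      by_cases h : Q (K.lab v) K w'
      · rw [ind_true h, one_mul]
        exact Real.exp_le_exp.2 (hle w' hw' h)
      · rw [ind_false h, zero_mul]
        exact (Real.exp_pos _).le
    rw [this.csSup_eq, Real.log_exp]
  · rw [nmax_none Q F K v hq]
    have hz : ∀ r ∈ {r : ℝ | ∃ w, K.Adj v w ∧ ind (Q (K.lab v) K w) * Real.exp (F K w) = r},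
        r = 0 := by
      rintro r ⟨w, hw, rfl⟩
      rw [ind_false fun h => hq ⟨w, hw, h⟩, zero_mul]
    have : sSup {r : ℝ | ∃ w, K.Adj v w ∧ ind (Q (K.lab v) K w) * Real.exp (F K w) = r} = 0 := by
      rcases Set.eq_empty_or_nonempty
        {r : ℝ | ∃ w, K.Adj v w ∧ ind (Q (K.lab v) K w) * Real.exp (F K w) = r} with h | h
      · rw [h, Real.sSup_empty]
      · obtain ⟨r, hr⟩ := h
        have hr0 := hz r hr
        subst hr0
        exact IsGreatest.csSup_eq ⟨hr, fun s hs => (hz s hs).le⟩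
    rw [this, Real.log_zero]

/-- all the `Q`-neighbours have the same value of `F` -/
def Same (Q : (P → Bool) → Prd P) (F : Feat P) : Prd P := fun K v =>
  ∀ w w', K.Adj v w → Q (K.lab v) K w → K.Adj v w' → Q (K.lab v) K w' → F K w = F K w'

theorem IsP.same {Q : (P → Bool) → Prd P} (h : ∀ s, IsP (Q s)) {F : Feat P}
    (hF : IsLM F) : IsP (Same Q F) := by
  refine (IsP.eq (IsLM.nmax h hF) ((IsLM.nmax h hF.neg).neg)).congr fun K v => ?_
  by_cases hq : ∃ w, K.Adj v w ∧ Q (K.lab v) K w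
  · obtain ⟨⟨w₁, hw₁, hq₁, e₁⟩, hle₁⟩ := nmax_spec Q F K v hq
    obtain ⟨⟨w₂, hw₂, hq₂, e₂⟩, hle₂⟩ := nmax_spec Q (fun K v => - F K v) K v hq
    constructor
    · intro e w w' hw hqw hw' hqw'
      have a₁ := hle₁ w hw hqw
      have a₂ := hle₁ w' hw' hqw'
      have b₁ := hle₂ w hw hqw
      have b₂ := hle₂ w' hw' hqw'

      linarith
    · intro hs
      have := hs w₁ w₂ hw₁ hq₁ hw₂ hq₂
      rw [← e₁, ← e₂, this]
      ring
  · rw [nmax_none Q F K v hq, nmax_none Q _ K v hq]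
    simp only [neg_zero, true_iff]
    intro w w' hw hqw
    exact absurd ⟨w, hw, hqw⟩ hq

/-- all the `Q`-neighbours `w` have `F w = F' v` -/
theorem IsP.allEq {Q : (P → Bool) → Prd P} (h : ∀ s, IsP (Q s)) {F F' : Feat P}
    (hF : IsLM F) (hF' : IsLM F') :
    IsP fun K v => ∀ w, K.Adj v w → Q (K.lab v) K w → F K w = F' K v := by
  refine ((IsP.ex h).imp ((IsP.same h hF).and (IsP.eq (IsLM.nmax h hF) hF'))).congr fun K v => ?_
  constructor
  · intro hh w hw hq
    obtain ⟨hs, e⟩ := hh ⟨w, hw, hq⟩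
    rw [← e]
    exact (nmax_eq Q F K v ⟨w, hw, hq⟩ fun w' hw' hq' => hs w' w hw' hq' hw hq).symm
  · intro hh hex
    exact ⟨fun w w' hw hq hw' hq' => (hh w hw hq).trans (hh w' hw' hq').symm,
      nmax_eq Q F K v hex hh⟩

end Pool.Agent.H266LM
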