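import Mathlib

/-! Labelled graphs, keyed graphs, LocalMax feature expressions (graph neural networks with local
maximum aggregation and arbitrary combination functions), key-invariance, and first-order logic over
labelled graphs. -/

namespace Pool.Agent.H266LM

/-- A labelled graph over the set `P` of unary labels: a finite undirected graph (a symmetric edge
relation; loops are allowed here, see `LGraph.Simple`) with a label vector in `{0,1}^P` at each node. -/
structure LGraph (P : Type) where
  /-- the nodes -/
  V : Type
  [fin : Finite V]
  /-- the edge relation -/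
  Adj : V → V → Prop
  symm : ∀ v w, Adj v w → Adj w v
  /-- the label vectors -/
  lab : V → P → Bool

attribute [instance] LGraph.fin

/-- The graph has no loops. -/
def LGraph.Simple {P : Type} (G : LGraph P) : Prop := ∀ v, ¬ G.Adj v v

/-- A keyed graph: a labelled graph with an injective map from the nodes to the reals. -/
structure Keyed (P : Type) extends LGraph P where
  /-- the keys -/
  val : V → ℝ
  inj : Function.Injective val

/-- Feature expressions of LocalMax graph neural networks: the labels, the key, `f (F₁, …, Fₙ)` for an
arbitrary function `f : ℝⁿ → ℝ`, and `LocalMax (F)`. -/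
inductive FExpr (P : Type) : Type
  | lab (p : P) : FExpr P
  | val : FExpr P
  | comb (n : ℕ) (f : (Fin n → ℝ) → ℝ) (F : Fin n → FExpr P) : FExpr P
  | localMax (F : FExpr P) : FExpr P

/-- The value of a feature expression at a node of a keyed graph. The supremum is that of a finite set
of reals, so it is its maximum, and `0` when there is no neighbour (`sSup ∅ = 0` in `ℝ`); see
`FExpr.isGreatest_localMax` and `FExpr.localMax_of_isolated`. -/
noncomputable def FExpr.eval {P : Type} (K : Keyed P) : FExpr P → K.V → ℝ
  | .lab p, u => if K.lab u p then 1 else 0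
  | .val, u => K.val u
  | .comb _ f F, u => f fun i => (F i).eval K u
  | .localMax F, u => sSup {r : ℝ | ∃ v, K.Adj u v ∧ F.eval K v = r}

/-- The classifier `C` accepts a node when its value there is positive. -/
def FExpr.Accepts {P : Type} (C : FExpr P) (G : LGraph P) (val : G.V → ℝ)
    (inj : Function.Injective val) (u : G.V) : Prop :=
  0 < C.eval { toLGraph := G, val := val, inj := inj } u

/-- Key-invariance: on every pointed labelled graph, acceptance does not depend on the injective key
map. -/
def FExpr.KeyInvariant {P : Type} (C : FExpr P) : Prop :=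
  ∀ (G : LGraph P) (u : G.V) (val val' : G.V → ℝ) (inj : Function.Injective val)
    (inj' : Function.Injective val'), C.Accepts G val inj u ↔ C.Accepts G val' inj' u

/-- The relation symbols: the edge relation and one unary symbol for each label. -/
inductive Rel (P : Type) : ℕ → Type
  | adj : Rel P 2
  | lab (p : P) : Rel P 1

/-- The first-order language with the edge relation and the labels. -/
def lang (P : Type) : FirstOrder.Language := ⟨fun _ => Empty, Rel P⟩

/-- A labelled graph as a first-order structure. -/
@[reducible]
def LGraph.str {P : Type} (G : LGraph P) : (lang P).Structure G.V where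
  funMap := fun f => f.elim
  RelMap := fun {_} r => match r with
    | .adj => fun x => G.Adj (x 0) (x 1)
    | .lab p => fun x => G.lab (x 0) p = true

/-- The node `u` of `G` satisfies the formula `φ (x)`. -/
def LGraph.Sat {P : Type} (G : LGraph P) (φ : (lang P).Formula Unit) (u : G.V) : Prop :=
  letI := G.str
  φ.Realize fun _ => u

theorem FExpr.isGreatest_localMax {P : Type} (K : Keyed P) (F : FExpr P) (u : K.V)
    (h : ∃ v, K.Adj u v) :
    IsGreatest {r : ℝ | ∃ v, K.Adj u v ∧ F.eval K v = r} (F.localMax.eval K u) := by
  have hfin : {r : ℝ | ∃ v, K.Adj u v ∧ F.eval K v = r}.Finite := by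
    refine (Set.finite_range (fun v : K.V => F.eval K v)).subset ?_
    rintro r ⟨v, _, rfl⟩
    exact ⟨v, rfl⟩
  have hne : {r : ℝ | ∃ v, K.Adj u v ∧ F.eval K v = r}.Nonempty := by
    obtain ⟨v, hv⟩ := h
    exact ⟨_, v, hv, rfl⟩
  exact ⟨hne.csSup_mem hfin, fun r hr => le_csSup hfin.bddAbove hr⟩

theorem FExpr.localMax_of_isolated {P : Type} (K : Keyed P) (F : FExpr P) (u : K.V)
    (h : ¬ ∃ v, K.Adj u v) : F.localMax.eval K u = 0 := by
  have : {r : ℝ | ∃ v, K.Adj u v ∧ F.eval K v = r} = ∅ := by
    ext r
    simp only [Set.mem_ofPred_eq, Set.mem_empty_iff_false, iff_false]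
    rintro ⟨v, hv, _⟩
    exact h ⟨v, hv⟩
  simp [FExpr.eval, this]

theorem LGraph.Adj.symm {P : Type} {G : LGraph P} {v w : G.V} (h : G.Adj v w) : G.Adj w v :=
  LGraph.symm G v w h

end Pool.Agent.H266LM
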