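import Pool.Agent.H266LM.Defs

/-! Directed graphs: definitions. -/

namespace Pool.Agent.H266LM

/-- A finite directed graph (loops allowed) with a label vector in `{0,1}^P` at each node. -/
structure DGraph (P : Type) where
  /-- the nodes -/
  V : Type
  [fin : Finite V]
  /-- the edge relation -/
  E : V → V → Prop
  /-- the label vectors -/
  lab : V → P → Bool

attribute [instance] DGraph.fin

/-- The value of a feature expression at a node of a directed graph with key map `val`; the maximum of
`LocalMax (F)` at `u` is over the `v` with `(u, v)` an edge, and `0` if there is none. -/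
noncomputable def FExpr.evalD {P : Type} (G : DGraph P) (val : G.V → ℝ) : FExpr P → G.V → ℝ
  | .lab p, u => if G.lab u p then 1 else 0
  | .val, u => val u
  | .comb _ f F, u => f fun i => (F i).evalD G val u
  | .localMax F, u => sSup {r : ℝ | ∃ v, G.E u v ∧ F.evalD G val v = r}

/-- The classifier `C` accepts a node when its value there is positive. -/
def FExpr.AcceptsD {P : Type} (C : FExpr P) (G : DGraph P) (val : G.V → ℝ) (u : G.V) : Prop :=
  0 < C.evalD G val u

/-- `C` is key-invariant on the class `K` of labelled directed graphs. -/
def FExpr.KeyInvariantOn {P : Type} (C : FExpr P) (K : DGraph P → Prop) : Prop :=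
  ∀ G, K G → ∀ (u : G.V) (val val' : G.V → ℝ), Function.Injective val → Function.Injective val' →
    (C.AcceptsD G val u ↔ C.AcceptsD G val' u)

/-- The class `K` is closed under subgraphs (fewer nodes, fewer edges) and isomorphic copies. -/
def SubgraphClosed {P : Type} (K : DGraph P → Prop) : Prop :=
  ∀ (G H : DGraph P) (i : H.V → G.V), Function.Injective i →
    (∀ v w, H.E v w → G.E (i v) (i w)) → (∀ v, H.lab v = G.lab (i v)) → K G → K H

/-- A labelled directed graph as a first-order structure. -/
@[reducible]
def DGraph.str {P : Type} (G : DGraph P) : (lang P).Structure G.V where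
  funMap := fun f => f.elim
  RelMap := fun {_} r => match r with
    | .adj => fun x => G.E (x 0) (x 1)
    | .lab p => fun x => G.lab (x 0) p = true

/-- The node `u` of `G` satisfies the formula `φ (x)`. -/
def DGraph.Sat {P : Type} (G : DGraph P) (φ : (lang P).Formula Unit) (u : G.V) : Prop :=
  letI := G.str
  φ.Realize fun _ => u

end Pool.Agent.H266LM
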