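import Pool.Agent.H266LM.DirZ

/-! Types of bounded rank are first-order definable. -/

namespace Pool.Agent.H266LM

open FirstOrder Language

variable {P : Type}

/-- uniformly first-order definable relations of a node `u` and a tuple `v` -/
def IsFO (k : ℕ) (R : ∀ G : DGraph P, G.V → (Fin k → G.V) → Prop) : Prop :=
  ∃ φ : (lang P).BoundedFormula Unit k, ∀ (G : DGraph P) (u : G.V) (v : Fin k → G.V),
    @BoundedFormula.Realize _ _ G.str _ _ φ (fun _ => u) v ↔ R G u v

/-- the elements of the tuple -/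
def elt {G : DGraph P} {k : ℕ} (u : G.V) (v : Fin k → G.V) : Unit ⊕ Fin k → G.V :=
  Sum.elim (fun _ => u) v

namespace IsFO

variable {k : ℕ}

theorem edge (i j : Unit ⊕ Fin k) : IsFO (P := P) k fun G u v => G.E (elt u v i) (elt u v j) := by
  exact ⟨BoundedFormula.rel (L := lang P) (Rel.adj) ![Term.var i, Term.var j],
    fun G u v => Iff.rfl⟩

theorem labl (p : P) (i : Unit ⊕ Fin k) : IsFO (P := P) k fun G u v => G.lab (elt u v i) p = true := by
  exact ⟨BoundedFormula.rel (L := lang P) (Rel.lab p) ![Term.var i],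
    fun G u v => Iff.rfl⟩

theorem eq (i j : Unit ⊕ Fin k) : IsFO (P := P) k fun G u v => elt (G := G) u v i = elt u v j := by
  refine ⟨Term.bdEqual (Term.var i) (Term.var j), fun G u v => ?_⟩
  let _ := G.str
  rw [BoundedFormula.realize_bdEqual]
  exact Iff.rfl

theorem imp {A B : ∀ G : DGraph P, G.V → (Fin k → G.V) → Prop} (hA : IsFO k A) (hB : IsFO k B) :
    IsFO k fun G u v => A G u v → B G u v := by
  obtain ⟨φ, hφ⟩ := hA
  obtain ⟨ψ, hψ⟩ := hB
  refine ⟨φ.imp ψ, fun G u v => ?_⟩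
  let _ := G.str
  rw [BoundedFormula.realize_imp, hφ, hψ]

theorem fls : IsFO (P := P) k fun _ _ _ => False := by
  refine ⟨⊥, fun G u v => ?_⟩
  let _ := G.str
  rw [BoundedFormula.realize_bot]

theorem congr {A B : ∀ G : DGraph P, G.V → (Fin k → G.V) → Prop} (hA : IsFO k A)
    (h : ∀ G u v, A G u v ↔ B G u v) : IsFO k B := by
  obtain ⟨φ, hφ⟩ := hA
  exact ⟨φ, fun G u v => (hφ G u v).trans (h G u v)⟩

theorem not {A : ∀ G : DGraph P, G.V → (Fin k → G.V) → Prop} (hA : IsFO k A) :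
    IsFO k fun G u v => ¬ A G u v := hA.imp fls

theorem and {A B : ∀ G : DGraph P, G.V → (Fin k → G.V) → Prop} (hA : IsFO k A) (hB : IsFO k B) :
    IsFO k fun G u v => A G u v ∧ B G u v :=
  (hA.imp hB.not).not.congr fun G u v => by tauto

theorem iff {A B : ∀ G : DGraph P, G.V → (Fin k → G.V) → Prop} (hA : IsFO k A) (hB : IsFO k B) :
    IsFO k fun G u v => (A G u v ↔ B G u v) :=
  ((hA.imp hB).and (hB.imp hA)).congr fun G u v => by tauto

theorem all {ι : Type} [Finite ι] {A : ι → ∀ G : DGraph P, G.V → (Fin k → G.V) → Prop}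
    (hA : ∀ i, IsFO k (A i)) : IsFO k fun G u v => ∀ i, A i G u v := by
  choose φ hφ using hA
  refine ⟨BoundedFormula.iInf φ, fun G u v => ?_⟩
  let _ := G.str
  rw [BoundedFormula.realize_iInf]
  exact forall_congr' fun i => hφ i G u v

theorem ex {A : ∀ G : DGraph P, G.V → (Fin (k + 1) → G.V) → Prop} (hA : IsFO (k + 1) A) :
    IsFO k fun G u v => ∃ a, A G u (Fin.snoc v a : Fin (k + 1) → G.V) := by
  obtain ⟨φ, hφ⟩ := hA
  refine ⟨φ.ex, fun G u v => ?_⟩
  let _ := G.str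
  rw [BoundedFormula.realize_ex]
  exact exists_congr fun a => hφ G u _

end IsFO

/-- atomic types of tuples of length `k` -/
abbrev Ty0 (P : Type) (k : ℕ) : Type :=
  Set ((Unit ⊕ Fin k) × (Unit ⊕ Fin k)) × Set ((Unit ⊕ Fin k) × (Unit ⊕ Fin k)) ×
    Set ((Unit ⊕ Fin k) × P)

/-- types of rank `r` of tuples of length `k` -/
def Ty (P : Type) : ℕ → ℕ → Type
  | 0, k => Ty0 P k
  | r + 1, k => Ty0 P k × Set (Ty P r (k + 1))

instance Ty.finite [Finite P] (r k : ℕ) : Finite (Ty P r k) := by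
  induction r generalizing k with
  | zero => unfold Ty; infer_instance
  | succ r ih =>
    have := ih (k + 1)
    unfold Ty
    infer_instance

/-- atomic type -/
def tp0 {k : ℕ} (G : DGraph P) (u : G.V) (v : Fin k → G.V) : Ty0 P k :=
  ({p | elt u v p.1 = elt u v p.2}, {p | G.E (elt u v p.1) (elt u v p.2)},
    {p | G.lab (elt u v p.1) p.2 = true})

/-- type of rank `r` -/
def tp (G : DGraph P) (u : G.V) : ∀ (r : ℕ) {k : ℕ}, (Fin k → G.V) → Ty P r k
  | 0, k, v => (show Ty0 P k from tp0 G u v)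
  | r + 1, k, v => (show Ty0 P k × Set (Ty P r (k + 1)) from
      (tp0 G u v, {σ | ∃ a, tp G u r (Fin.snoc v a : Fin (k + 1) → G.V) = σ}))

theorem isFO_tp0 [Finite P] {k : ℕ} (τ : Ty0 P k) : IsFO k fun G u v => tp0 G u v = τ := by
  obtain ⟨A, B, D⟩ := τ
  have h1 : IsFO (P := P) k fun G u v => ∀ p : (Unit ⊕ Fin k) × (Unit ⊕ Fin k),
      (elt u v p.1 = elt u v p.2 ↔ p ∈ A) := by
    refine IsFO.all fun p => ?_
    by_cases hp : p ∈ A
    · exact (IsFO.eq p.1 p.2).congr fun G u v => by simp [hp]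
    · exact (IsFO.eq p.1 p.2).not.congr fun G u v => by simp [hp]
  have h2 : IsFO (P := P) k fun G u v => ∀ p : (Unit ⊕ Fin k) × (Unit ⊕ Fin k),
      (G.E (elt u v p.1) (elt u v p.2) ↔ p ∈ B) := by
    refine IsFO.all fun p => ?_
    by_cases hp : p ∈ B
    · exact (IsFO.edge p.1 p.2).congr fun G u v => by simp [hp]
    · exact (IsFO.edge p.1 p.2).not.congr fun G u v => by simp [hp]
  have h3 : IsFO (P := P) k fun G u v => ∀ p : (Unit ⊕ Fin k) × P,
      (G.lab (elt u v p.1) p.2 = true ↔ p ∈ D) := by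
    refine IsFO.all fun p => ?_
    by_cases hp : p ∈ D
    · exact (IsFO.labl p.2 p.1).congr fun G u v => by simp [hp]
    · exact (IsFO.labl p.2 p.1).not.congr fun G u v => by simp [hp]
  refine (h1.and (h2.and h3)).congr fun G u v => ?_
  unfold tp0
  constructor
  · rintro ⟨a, b, c⟩
    exact Prod.ext (Set.ext a) (Prod.ext (Set.ext b) (Set.ext c))
  · intro h
    rw [Prod.ext_iff, Prod.ext_iff] at h
    exact ⟨fun p => Set.ext_iff.1 h.1 p, fun p => Set.ext_iff.1 h.2.1 p,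
      fun p => Set.ext_iff.1 h.2.2 p⟩

theorem isFO_tp [Finite P] (r : ℕ) {k : ℕ} (τ : Ty P r k) : IsFO k fun G u v => tp G u r v = τ := by
  induction r generalizing k with
  | zero => exact isFO_tp0 τ
  | succ r ih =>
    obtain ⟨α, S⟩ : Ty0 P k × Set (Ty P r (k + 1)) := τ
    have h2 : IsFO (P := P) k fun G u v => ∀ σ : Ty P r (k + 1),
        ((∃ a, tp G u r (Fin.snoc v a : Fin (k + 1) → G.V) = σ) ↔ σ ∈ S) := by
      refine IsFO.all fun σ => ?_
      by_cases hσ : σ ∈ S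
      · exact (IsFO.ex (ih σ)).congr fun G u v => by simp [hσ]
      · exact (IsFO.ex (ih σ)).not.congr fun G u v => by simp [hσ]
    refine ((isFO_tp0 α).and h2).congr fun G u v => ?_
    constructor
    · rintro ⟨a, b⟩
      exact Prod.ext a (Set.ext b)
    · intro h
      have h' := Prod.ext_iff.1 h
      exact ⟨h'.1, fun σ => Set.ext_iff.1 h'.2 σ⟩

/-- the pairs of a tuple -/
def prs {G H : DGraph P} {k : ℕ} (u : G.V) (v : Fin k → G.V) (u' : H.V) (v' : Fin k → H.V) :
    Set (G.V × H.V) := Set.range fun i => (elt u v i, elt u' v' i)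

theorem prs_snoc {G H : DGraph P} {k : ℕ} (u : G.V) (v : Fin k → G.V) (u' : H.V) (v' : Fin k → H.V)
    (a : G.V) (b : H.V) : prs u (Fin.snoc v a : Fin (k + 1) → G.V) u'
      (Fin.snoc v' b : Fin (k + 1) → H.V) = insert (a, b) (prs u v u' v') := by
  ext p
  simp only [prs, Set.mem_range, Set.mem_insert_iff]
  constructor
  · rintro ⟨i, rfl⟩
    rcases i with i | i
    · exact Or.inr ⟨Sum.inl i, rfl⟩
    · refine Fin.lastCases ?_ (fun i => ?_) i
      · left; simp [elt]
      · right; exact ⟨Sum.inr i, by simp [elt]⟩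
  · rintro (rfl | ⟨i, rfl⟩)
    · exact ⟨Sum.inr (Fin.last k), by simp [elt]⟩
    · rcases i with i | i
      · exact ⟨Sum.inl i, rfl⟩
      · exact ⟨Sum.inr i.castSucc, by simp [elt]⟩

theorem pi_of_tp0 {G H : DGraph P} {k : ℕ} {u : G.V} {v : Fin k → G.V} {u' : H.V}
    {v' : Fin k → H.V} (h : tp0 G u v = tp0 H u' v') : PI G H (prs u v u' v') := by
  unfold tp0 at h
  rw [Prod.ext_iff, Prod.ext_iff] at h
  refine ⟨?_, ?_, ?_⟩
  · rintro _ ⟨i, rfl⟩ _ ⟨j, rfl⟩
    exact Set.ext_iff.1 h.1 (i, j)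
  · rintro _ ⟨i, rfl⟩ _ ⟨j, rfl⟩
    exact Set.ext_iff.1 h.2.1 (i, j)
  · rintro _ ⟨i, rfl⟩
    funext p
    have := Set.ext_iff.1 h.2.2 (i, p)
    exact Bool.eq_iff_iff.2 this

theorem bf_of_tp {G H : DGraph P} (r : ℕ) {k : ℕ} {u : G.V} {v : Fin k → G.V} {u' : H.V}
    {v' : Fin k → H.V} (h : tp G u r v = tp H u' r v') : BF G H r (prs u v u' v') := by
  induction r generalizing k with
  | zero => exact pi_of_tp0 h
  | succ r ih =>
    have h' := Prod.ext_iff.1 h
    have h1 : tp0 G u v = tp0 H u' v' := h'.1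
    have h2 : {σ | ∃ a, tp G u r (Fin.snoc v a : Fin (k + 1) → G.V) = σ} =
      {σ | ∃ a, tp H u' r (Fin.snoc v' a : Fin (k + 1) → H.V) = σ} := h'.2
    refine ⟨pi_of_tp0 h1, fun a => ?_, fun b => ?_⟩
    · obtain ⟨b, hb⟩ := (Set.ext_iff.1 h2 _).1 ⟨a, rfl⟩
      refine ⟨b, ?_⟩
      rw [← prs_snoc]
      exact ih hb.symm
    · obtain ⟨a, ha⟩ := (Set.ext_iff.1 h2 _).2 ⟨b, rfl⟩
      refine ⟨a, ?_⟩
      rw [← prs_snoc]
      exact ih ha

/-- **Main theorem for directed graphs.** -/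
theorem directed [Finite P] {K : DGraph P → Prop} (hK : SubgraphClosed K) (C : FExpr P)
    (hC : C.KeyInvariantOn K) : ∃ φ : (lang P).Formula Unit, ∀ G : DGraph P, K G →
      ∀ (u : G.V) (val : G.V → ℝ), Function.Injective val → (G.Sat φ u ↔ C.AcceptsD G val u) := by
  obtain ⟨r, hr⟩ := transfer hK C hC
  -- the union of the types of accepted nodes
  let acc : Set (Ty P r 0) := {τ | ∃ (G : DGraph P) (u : G.V) (val : G.V → ℝ), K G ∧
    Function.Injective val ∧ C.AcceptsD G val u ∧ tp G u r (default : Fin 0 → G.V) = τ}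
  have h : IsFO (P := P) 0 fun G u v => ¬ ∀ τ : acc, ¬ tp G u r v = τ.1 :=
    (IsFO.all fun τ : acc => (isFO_tp r τ.1).not).not
  obtain ⟨φ, hφ⟩ := h
  refine ⟨φ, fun G hG u val hval => ?_⟩
  refine (hφ G u default).trans ?_
  constructor
  · intro hn
    push Not at hn
    obtain ⟨⟨τ, G', u', val', hG', hval', hacc, hτ⟩, he⟩ := hn
    have hbf := bf_of_tp (G := G) (H := G') r (he.trans hτ.symm)
    refine (hr G G' hG hG' u u' val val' hval hval' ?_).2 hacc
    have : prs u (default : Fin 0 → G.V) u' (default : Fin 0 → G'.V) = {(u, u')} := by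
      ext p
      simp only [prs, Set.mem_range, Set.mem_singleton_iff]
      constructor
      · rintro ⟨i | i, rfl⟩
        · rfl
        · exact i.elim0
      · rintro rfl
        exact ⟨Sum.inl (), rfl⟩
    rwa [this] at hbf
  · intro hacc hn
    exact hn ⟨tp G u r default, G, u, val, hG, hval, hacc, rfl⟩ rfl

end Pool.Agent.H266LM
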