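import Pool.Agent.H266LM.DirDefs

/-! A small common subgraph with the same values. -/

namespace Pool.Agent.H266LM

variable {P : Type}

/-- the arguments of `localMax` in an expression -/
def FExpr.dem : FExpr P → List (FExpr P)
  | .lab _ => []
  | .val => []
  | .comb n _ F => (List.finRange n).flatMap fun i => (F i).dem
  | .localMax F => F :: F.dem

/-- nesting depth of `localMax` -/
def FExpr.dep : FExpr P → ℕ
  | .lab _ => 0
  | .val => 0
  | .comb _ _ F => Finset.univ.sup fun i => (F i).dep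
  | .localMax F => F.dep + 1

/-- all arguments of `localMax` are in the list -/
def FExpr.Ok (D : List (FExpr P)) : FExpr P → Prop
  | .lab _ => True
  | .val => True
  | .comb _ _ F => ∀ i, (F i).Ok D
  | .localMax F => F ∈ D ∧ F.Ok D

theorem FExpr.Ok.mono {D D' : List (FExpr P)} (h : D ⊆ D') {e : FExpr P} (he : e.Ok D) :
    e.Ok D' := by
  induction e with
  | lab p => trivial
  | val => trivial
  | comb n f F ih => exact fun i => ih i (he i)
  | localMax F ih => exact ⟨h he.1, ih he.2⟩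

theorem FExpr.ok_dem (e : FExpr P) : e.Ok e.dem := by
  induction e with
  | lab p => trivial
  | val => trivial
  | comb n f F ih =>
    intro i
    refine (ih i).mono fun x hx => ?_
    simp only [FExpr.dem, List.mem_flatMap]
    exact ⟨i, List.mem_finRange i, hx⟩
  | localMax F ih =>
    refine ⟨by simp [FExpr.dem], ih.mono fun x hx => ?_⟩
    simp only [FExpr.dem, List.mem_cons]
    exact Or.inr hx

theorem finite_nb (G : DGraph P) (f : G.V → ℝ) (u : G.V) :
    {r : ℝ | ∃ v, G.E u v ∧ f v = r}.Finite := by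
  refine (Set.finite_range f).subset ?_
  rintro r ⟨v, _, rfl⟩
  exact ⟨v, rfl⟩

/-- values in a subgraph that contains the selected neighbours -/
theorem evalZ {G Z : DGraph P} (i : Z.V → G.V) (val : G.V → ℝ) (lev : Z.V → ℕ) (L : ℕ)
    (D : List (FExpr P)) (hlab : ∀ z, Z.lab z = G.lab (i z))
    (hE : ∀ z z', Z.E z z' → G.E (i z) (i z') ∧ lev z' ≤ lev z + 1)
    (hsel : ∀ z, lev z < L → ∀ F ∈ D, (∃ w, G.E (i z) w) →
      ∃ z', Z.E z z' ∧ ∀ w, G.E (i z) w → F.evalD G val w ≤ F.evalD G val (i z'))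
    (e : FExpr P) (he : e.Ok D) (z : Z.V) (hz : lev z + e.dep ≤ L) :
    e.evalD Z (fun z => val (i z)) z = e.evalD G val (i z) := by
  induction e generalizing z with
  | lab p => simp only [FExpr.evalD, hlab]
  | val => rfl
  | comb n f F ih =>
    simp only [FExpr.evalD]
    congr 1
    funext j
    refine ih j (he j) z (le_trans (Nat.add_le_add_left ?_ _) hz)
    exact Finset.le_sup (f := fun i => (F i).dep) (Finset.mem_univ j)
  | localMax F ih =>
    simp only [FExpr.dep] at hz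
    have hval : ∀ z', Z.E z z' → F.evalD Z (fun z => val (i z)) z' = F.evalD G val (i z') := by
      intro z' hz'
      have := (hE z z' hz').2
      exact ih he.2 z' (by omega)
    simp only [FExpr.evalD]
    by_cases hw : ∃ w, G.E (i z) w
    · obtain ⟨z', hz', hmax⟩ := hsel z (by omega) F he.1 hw
      have h1 : IsGreatest {r : ℝ | ∃ v, Z.E z v ∧ F.evalD Z (fun z => val (i z)) v = r}
          (F.evalD G val (i z')) := by
        refine ⟨⟨z', hz', hval z' hz'⟩, ?_⟩
        rintro r ⟨v, hv, rfl⟩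
        rw [hval v hv]
        exact hmax _ (hE z v hv).1
      have h2 : IsGreatest {r : ℝ | ∃ v, G.E (i z) v ∧ F.evalD G val v = r}
          (F.evalD G val (i z')) := by
        refine ⟨⟨i z', (hE z z' hz').1, rfl⟩, ?_⟩
        rintro r ⟨v, hv, rfl⟩
        exact hmax v hv
      rw [h1.csSup_eq, h2.csSup_eq]
    · have h1 : {r : ℝ | ∃ v, Z.E z v ∧ F.evalD Z (fun z => val (i z)) v = r} = ∅ := by
        ext r
        simp only [Set.mem_ofPred_eq, Set.mem_empty_iff_false, iff_false]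
        rintro ⟨v, hv, _⟩
        exact hw ⟨_, (hE z v hv).1⟩
      have h2 : {r : ℝ | ∃ v, G.E (i z) v ∧ F.evalD G val v = r} = ∅ := by
        ext r
        simp only [Set.mem_ofPred_eq, Set.mem_empty_iff_false, iff_false]
        rintro ⟨v, hv, _⟩
        exact hw ⟨_, hv⟩
      rw [h1, h2]

/-- partial isomorphism -/
structure PI (G H : DGraph P) (S : Set (G.V × H.V)) : Prop where
  eq : ∀ p ∈ S, ∀ q ∈ S, (p.1 = q.1 ↔ p.2 = q.2)
  ed : ∀ p ∈ S, ∀ q ∈ S, (G.E p.1 q.1 ↔ H.E p.2 q.2)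
  lab : ∀ p ∈ S, G.lab p.1 = H.lab p.2

/-- back-and-forth of rank `r` -/
def BF (G H : DGraph P) : ℕ → Set (G.V × H.V) → Prop
  | 0, S => PI G H S
  | r + 1, S => PI G H S ∧ (∀ a, ∃ b, BF G H r (insert (a, b) S)) ∧
      (∀ b, ∃ a, BF G H r (insert (a, b) S))

theorem BF.pi {G H : DGraph P} {r : ℕ} {S : Set (G.V × H.V)} (h : BF G H r S) : PI G H S := by
  cases r with
  | zero => exact h
  | succ r => exact h.1

theorem BF.succ {G H : DGraph P} {r : ℕ} {S : Set (G.V × H.V)} (h : BF G H (r + 1) S) :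
    BF G H r S := by
  induction r generalizing S with
  | zero => exact h.1
  | succ r ih =>
    refine ⟨h.1, fun a => ?_, fun b => ?_⟩
    · obtain ⟨b, hb⟩ := h.2.1 a
      exact ⟨b, ih hb⟩
    · obtain ⟨a, ha⟩ := h.2.2 b
      exact ⟨a, ih ha⟩

theorem BF.mono {G H : DGraph P} {r s : ℕ} (hrs : r ≤ s) {S : Set (G.V × H.V)} (h : BF G H s S) :
    BF G H r S := by
  induction hrs with
  | refl => exact h
  | step _ ih => exact ih h.succ

/-- `S` is listed by a list of length at most `n` -/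
def Cov {α : Type} (S : Set α) (n : ℕ) : Prop := ∃ l : List α, l.length ≤ n ∧ ∀ p, p ∈ S ↔ p ∈ l

theorem BF.requests {G H : DGraph P} (l : List (G.V ⊕ H.V)) (r : ℕ) (S : Set (G.V × H.V))
    (h : BF G H (r + l.length) S) : ∃ S', S ⊆ S' ∧ BF G H r S' ∧
      (∀ n, Cov S n → Cov S' (n + l.length)) ∧ (∀ a, Sum.inl a ∈ l → ∃ b, (a, b) ∈ S') ∧
      (∀ b, Sum.inr b ∈ l → ∃ a, (a, b) ∈ S') := by
  induction l generalizing S with
  | nil => exact ⟨S, subset_rfl, h, fun n hn => hn, by simp, by simp⟩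
  | cons x l ih =>
    have hkey : ∃ c : G.V × H.V, (∀ a, x = Sum.inl a → c.1 = a) ∧ (∀ b, x = Sum.inr b → c.2 = b) ∧
        BF G H (r + l.length) (insert c S) := by
      rcases x with a | b
      · obtain ⟨b, hb⟩ := h.2.1 a
        exact ⟨(a, b), by simp, by simp, hb⟩
      · obtain ⟨a, ha⟩ := h.2.2 b
        exact ⟨(a, b), by simp, by simp, ha⟩
    obtain ⟨c, hc1, hc2, hc⟩ := hkey
    obtain ⟨S', h1, h2, h3, h4, h5⟩ := ih (insert c S) hc
    refine ⟨S', (Set.subset_insert _ _).trans h1, h2, ?_, ?_, ?_⟩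
    · rintro n ⟨m, hm, hmS⟩
      have : Cov (insert c S) (n + 1) := ⟨c :: m, by simp only [List.length_cons]; omega, fun p => by
        simp only [Set.mem_insert_iff, List.mem_cons, hmS]⟩
      have := h3 _ this
      rw [List.length_cons]
      rwa [show n + (l.length + 1) = n + 1 + l.length by omega]
    · intro a ha
      rcases List.mem_cons.1 ha with e | ha
      · refine ⟨c.2, ?_⟩
        have := hc1 a e.symm
        rw [← this]
        exact h1 (Set.mem_insert _ _)
      · exact h4 a ha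
    · intro b hb
      rcases List.mem_cons.1 hb with e | hb
      · refine ⟨c.1, ?_⟩
        have := hc2 b e.symm
        rw [← this]
        exact h1 (Set.mem_insert _ _)
      · exact h5 b hb

open Classical in
/-- the selected neighbour -/
noncomputable def sel (G : DGraph P) (val : G.V → ℝ) (F : FExpr P) (u : G.V) : G.V :=
  if h : ∃ v, G.E u v ∧ ∀ w, G.E u w → F.evalD G val w ≤ F.evalD G val v then h.choose else u

theorem sel_spec (G : DGraph P) (val : G.V → ℝ) (F : FExpr P) (u : G.V) (h : ∃ w, G.E u w) :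
    G.E u (sel G val F u) ∧ ∀ w, G.E u w → F.evalD G val w ≤ F.evalD G val (sel G val F u) := by
  have hne : {r : ℝ | ∃ v, G.E u v ∧ F.evalD G val v = r}.Nonempty := by
    obtain ⟨w, hw⟩ := h
    exact ⟨_, w, hw, rfl⟩
  have hfin := finite_nb G (F.evalD G val) u
  obtain ⟨v, hv, e⟩ := hne.csSup_mem hfin
  have h' : ∃ v, G.E u v ∧ ∀ w, G.E u w → F.evalD G val w ≤ F.evalD G val v :=
    ⟨v, hv, fun w hw => by rw [e]; exact le_csSup hfin.bddAbove ⟨w, hw, rfl⟩⟩
  simp only [sel, dif_pos h']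
  exact h'.choose_spec

/-- one layer: all nodes selected by nodes of `S`, on both sides -/
def Clo (G H : DGraph P) (val : G.V → ℝ) (val' : H.V → ℝ) (D : List (FExpr P))
    (S S' : Set (G.V × H.V)) : Prop :=
  S ⊆ S' ∧ (∀ p ∈ S, ∀ F ∈ D, ∃ b, (sel G val F p.1, b) ∈ S') ∧
    (∀ p ∈ S, ∀ F ∈ D, ∃ a, (a, sel H val' F p.2) ∈ S')

theorem BF.layer {G H : DGraph P} (val : G.V → ℝ) (val' : H.V → ℝ) (D : List (FExpr P)) (r n : ℕ)
    {S : Set (G.V × H.V)} (hS : Cov S n) (h : BF G H (r + n * (2 * D.length)) S) :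
    ∃ S', Clo G H val val' D S S' ∧ BF G H r S' ∧ Cov S' (n + n * (2 * D.length)) := by
  obtain ⟨l, hl, hlS⟩ := hS
  let m : List (G.V ⊕ H.V) := l.flatMap fun p => D.flatMap fun F =>
    [Sum.inl (sel G val F p.1), Sum.inr (sel H val' F p.2)]
  have hm : m.length ≤ n * (2 * D.length) := by
    have : m.length = l.length * (2 * D.length) := by
      simp [m, List.length_flatMap, mul_comm]
    rw [this]
    exact Nat.mul_le_mul_right _ hl
  obtain ⟨S', h1, h2, h3, h4, h5⟩ := BF.requests m r S (h.mono (by omega))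
  refine ⟨S', ⟨h1, ?_, ?_⟩, h2, ?_⟩
  · intro p hp F hF
    refine h4 _ ?_
    simp only [m, List.mem_flatMap]
    exact ⟨p, (hlS p).1 hp, F, hF, by simp⟩
  · intro p hp F hF
    refine h5 _ ?_
    simp only [m, List.mem_flatMap]
    exact ⟨p, (hlS p).1 hp, F, hF, by simp⟩
  · obtain ⟨l', hl', hlS'⟩ := h3 n ⟨l, hl, hlS⟩
    exact ⟨l', by omega, hlS'⟩

/-- all layers -/
theorem BF.layers (D : List (FExpr P)) (L n : ℕ) : ∃ r, ∀ (G H : DGraph P) (val : G.V → ℝ)
    (val' : H.V → ℝ) (S : Set (G.V × H.V)), Cov S n → BF G H r S →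
    ∃ T : ℕ → Set (G.V × H.V), T 0 = S ∧ (∀ i < L, Clo G H val val' D (T i) (T (i + 1))) ∧
      PI G H (T L) := by
  induction L generalizing n with
  | zero => exact ⟨0, fun G H val val' S _ h => ⟨fun _ => S, rfl, by simp, h⟩⟩
  | succ L ih =>
    obtain ⟨r, hr⟩ := ih (n + n * (2 * D.length))
    refine ⟨r + n * (2 * D.length), fun G H val val' S hS h => ?_⟩
    obtain ⟨S', h1, h2, h3⟩ := BF.layer val val' D r n hS h
    obtain ⟨T, h4, h5, h6⟩ := hr G H val val' S' h3 h2
    refine ⟨fun i => Nat.casesOn i S T, rfl, ?_, h6⟩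
    intro i hi
    cases i with
    | zero =>
      change Clo G H val val' D S (T 0)
      rw [h4]
      exact h1
    | succ i => exact h5 i (by omega)

/-- **Transfer.** -/
theorem transfer {K : DGraph P → Prop} (hK : SubgraphClosed K) (C : FExpr P)
    (hC : C.KeyInvariantOn K) : ∃ r, ∀ (G H : DGraph P), K G → K H → ∀ (u : G.V) (u' : H.V)
    (val : G.V → ℝ) (val' : H.V → ℝ), Function.Injective val → Function.Injective val' →
    BF G H r {(u, u')} → (C.AcceptsD G val u ↔ C.AcceptsD H val' u') := by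
  classical
  obtain ⟨r, hr⟩ := BF.layers (P := P) C.dem C.dep 1
  refine ⟨r, fun G H hG hH u u' val val' hval hval' hBF => ?_⟩
  obtain ⟨T, h0, hT, hPI⟩ := hr G H val val' {(u, u')} ⟨[(u, u')], by simp, by simp⟩ hBF
  have hmono : ∀ i j, i ≤ j → j ≤ C.dep → T i ⊆ T j := by
    intro i j hij
    induction hij with
    | refl => intro _; exact subset_rfl
    | step _ ih => intro hj; exact (ih (by omega)).trans (hT _ (by omega)).1
  have hL : ∀ p : {p // p ∈ T C.dep}, ∃ i, p.1 ∈ T i := fun p => ⟨C.dep, p.2⟩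
  let lev : {p // p ∈ T C.dep} → ℕ := fun p => Nat.find (hL p)
  have hlev : ∀ p, p.1 ∈ T (lev p) := fun p => Nat.find_spec (hL p)
  have hlevle : ∀ p : {p // p ∈ T C.dep}, ∀ i, p.1 ∈ T i → lev p ≤ i := fun p i hi =>
    Nat.find_min' (hL p) hi
  let Z : DGraph P :=
    { V := {p // p ∈ T C.dep}
      E := fun p q => lev q ≤ lev p + 1 ∧ G.E p.1.1 q.1.1
      lab := fun p => G.lab p.1.1 }
  have i1 : Function.Injective fun z : Z.V => z.1.1 := by
    intro p q h
    exact Subtype.ext (Prod.ext h ((hPI.eq _ p.2 _ q.2).1 h))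
  have i2 : Function.Injective fun z : Z.V => z.1.2 := by
    intro p q h
    exact Subtype.ext (Prod.ext ((hPI.eq _ p.2 _ q.2).2 h) h)
  have hKZ : K Z := hK G Z (fun z => z.1.1) i1 (fun v w h => h.2) (fun v => rfl) hG
  have hu : (u, u') ∈ T 0 := by rw [h0]; rfl
  let z0 : Z.V := ⟨(u, u'), hmono 0 _ (Nat.zero_le _) le_rfl hu⟩
  have hlev0 : lev z0 = 0 := Nat.le_zero.1 (hlevle z0 0 hu)
  have e1 : C.evalD Z (fun z => val z.1.1) z0 = C.evalD G val u := by
    refine evalZ (G := G) (Z := Z) (fun z => z.1.1) val lev C.dep C.dem (fun _ => rfl)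
      (fun z z' h => ⟨h.2, h.1⟩) ?_ C C.ok_dem z0 (by omega)
    intro z hz F hF hex
    obtain ⟨s1, s2⟩ := sel_spec G val F z.1.1 hex
    obtain ⟨b, hb⟩ := (hT (lev z) hz).2.1 z.1 (hlev z) F hF
    refine ⟨⟨(sel G val F z.1.1, b), hmono _ _ (by omega) le_rfl hb⟩, ⟨?_, s1⟩, s2⟩
    exact hlevle _ _ hb
  have e2 : C.evalD Z (fun z => val' z.1.2) z0 = C.evalD H val' u' := by
    refine evalZ (G := H) (Z := Z) (fun z => z.1.2) val' lev C.dep C.dem
      (fun z => hPI.lab _ z.2)
      (fun z z' h => ⟨(hPI.ed _ z.2 _ z'.2).1 h.2, h.1⟩) ?_ C C.ok_dem z0 (by omega)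
    intro z hz F hF hex
    obtain ⟨s1, s2⟩ := sel_spec H val' F z.1.2 hex
    obtain ⟨a, ha⟩ := (hT (lev z) hz).2.2 z.1 (hlev z) F hF
    have haL := hmono _ _ (by omega) le_rfl ha
    refine ⟨⟨(a, sel H val' F z.1.2), haL⟩, ⟨hlevle _ _ ha, (hPI.ed _ z.2 _ haL).2 s1⟩, s2⟩
  have := hC Z hKZ z0 (fun z => val z.1.1) (fun z => val' z.1.2)
    (hval.comp i1) (hval'.comp i2)
  rw [FExpr.AcceptsD, FExpr.AcceptsD, e1, e2] at this
  exact this

end Pool.Agent.H266LM
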