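import Pool.Agent.H266LM.Gd

/-! Back-and-forth between `Gd d` and `Gd d'`. -/

namespace Pool.Agent.H266LM

/-- thresholds -/
def Mr : ℕ → ℤ
  | 0 => 3
  | r + 1 => 2 * Mr r + 3

theorem Mr_ge (r : ℕ) : 3 ≤ Mr r := by
  induction r with
  | zero => simp [Mr]
  | succ r ih => simp only [Mr]; omega

theorem Mr_mono {r s : ℕ} (h : r ≤ s) : Mr r ≤ Mr s := by
  induction h with
  | refl => exact le_rfl
  | step _ ih => have := Mr_ge ‹_›; simp only [Mr]; omega

/-- two differences look the same up to the threshold `m` and modulo 3 -/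
def Close (m a b : ℤ) : Prop :=
  a = b ∨ (m ≤ a ∧ m ≤ b ∧ (a - b) % 3 = 0) ∨ (a ≤ -m ∧ b ≤ -m ∧ (a - b) % 3 = 0)

theorem Close.mono {m m' a b : ℤ} (h : m' ≤ m) (hc : Close m a b) : Close m' a b := by
  rcases hc with h | h | h
  · exact Or.inl h
  · exact Or.inr (Or.inl (by omega))
  · exact Or.inr (Or.inr (by omega))

theorem Close.swap {m a b : ℤ} (hc : Close m a b) : Close m b a := by
  rcases hc with h | h | h
  · exact Or.inl h.symm
  · exact Or.inr (Or.inl (by omega))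
  · exact Or.inr (Or.inr (by omega))

theorem Close.neg {m a b a' b' : ℤ} (hc : Close m (a - a') (b - b')) : Close m (a' - a) (b' - b) := by
  rcases hc with h | h | h
  · exact Or.inl (by omega)
  · exact Or.inr (Or.inr (by omega))
  · exact Or.inr (Or.inl (by omega))

/-- a finite set of pairs of levels, pairwise close -/
structure LSt (m : ℤ) (d d' : ℕ) (P : Set (ℕ × ℕ)) : Prop where
  fin : P.Finite
  zero : (0, 0) ∈ P
  top : (d, d') ∈ P
  cl : ∀ p ∈ P, ∀ q ∈ P, Close m ((p.1 : ℤ) - q.1) ((p.2 : ℤ) - q.2)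

theorem LSt.mono {m m' : ℤ} {d d' : ℕ} {P : Set (ℕ × ℕ)} (h : m' ≤ m) (hP : LSt m d d' P) :
    LSt m' d d' P :=
  ⟨hP.fin, hP.zero, hP.top, fun p hp q hq => (hP.cl p hp q hq).mono h⟩

theorem LSt.swap {m : ℤ} {d d' : ℕ} {P : Set (ℕ × ℕ)} (hP : LSt m d d' P) :
    LSt m d' d (Prod.swap '' P) := by
  refine ⟨hP.fin.image _, ⟨_, hP.zero, rfl⟩, ⟨_, hP.top, rfl⟩, ?_⟩
  rintro _ ⟨p, hp, rfl⟩ _ ⟨q, hq, rfl⟩
  exact (hP.cl p hp q hq).swap

theorem LSt.ext_aux {m : ℤ} (hm : 3 ≤ m) {a l l' h h' : ℤ} (hla : l ≤ a) (hah : a ≤ h)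
    (hlh : Close (2 * m + 3) (h - l) (h' - l')) :
    ∃ a' : ℤ, Close m (a - l) (a' - l') ∧ Close m (h - a) (h' - a') ∧ l' ≤ a' ∧ a' ≤ h' ∧
      (∀ b b' : ℤ, b ≤ l → Close (2 * m + 3) (l - b) (l' - b') → Close (2 * m + 3) (h - b) (h' - b') →
        Close m (a - b) (a' - b')) ∧
      (∀ b b' : ℤ, h ≤ b → Close (2 * m + 3) (b - l) (b' - l') → Close (2 * m + 3) (b - h) (b' - h') →
        Close m (b - a) (b' - a')) := by
  unfold Close at *
  by_cases h1 : a - l < m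
  · refine ⟨l' + (a - l), by omega, by omega, by omega, by omega, ?_, ?_⟩
    · intro b b' hb h2 h3
      omega
    · intro b b' hb h2 h3
      omega
  · by_cases h2 : h - a < m
    · refine ⟨h' - (h - a), by omega, by omega, by omega, by omega, ?_, ?_⟩
      · intro b b' hb h2 h3
        omega
      · intro b b' hb h2 h3
        omega
    · refine ⟨l' + m + (a - l - m) % 3, by omega, by omega, by omega, by omega, ?_, ?_⟩
      · intro b b' hb h2 h3
        omega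
      · intro b b' hb h2 h3
        omega

theorem LSt.ext {m : ℤ} (hm : 3 ≤ m) {d d' : ℕ} {P : Set (ℕ × ℕ)} (hP : LSt (2 * m + 3) d d' P)
    {a : ℕ} (ha : a ≤ d) : ∃ a' : ℕ, a' ≤ d' ∧ LSt m d d' (insert (a, a') P) := by
  -- nearest pair below and above
  obtain ⟨p, ⟨hpP, hpa⟩, hpmax⟩ := (hP.fin.subset (Set.sep_subset P fun p => p.1 ≤ a)).exists_maximalFor
    (fun p => p.1) _ ⟨(0, 0), hP.zero, Nat.zero_le _⟩
  obtain ⟨q, ⟨hqP, hqa⟩, hqmin⟩ := (hP.fin.subset (Set.sep_subset P fun p => a ≤ p.1)).exists_minimalFor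
    (fun p => p.1) _ ⟨(d, d'), hP.top, ha⟩
  obtain ⟨a', h1, h2, h3, h4, h5, h6⟩ := LSt.ext_aux hm (a := (a : ℤ)) (l := p.1) (h := q.1)
    (by exact_mod_cast hpa) (by exact_mod_cast hqa) (hP.cl q hqP p hpP)
  obtain ⟨a'', rfl⟩ : ∃ a'' : ℕ, a' = a'' := ⟨a'.toNat, by omega⟩
  have hall : ∀ r ∈ P, Close m ((a : ℤ) - r.1) ((a'' : ℤ) - r.2) := by
    intro r hr
    rcases le_total r.1 a with hra | hra
    · have hrp : r.1 ≤ p.1 := by
        rcases le_total r.1 p.1 with h | h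
        · exact h
        · exact hpmax ⟨hr, hra⟩ h
      exact h5 r.1 r.2 (by exact_mod_cast hrp) (hP.cl p hpP r hr) (hP.cl q hqP r hr)
    · have hrq : q.1 ≤ r.1 := by
        rcases le_total q.1 r.1 with h | h
        · exact h
        · exact hqmin ⟨hr, hra⟩ h
      exact (h6 r.1 r.2 (by exact_mod_cast hrq) (hP.cl r hr p hpP) (hP.cl r hr q hqP)).neg
  refine ⟨a'', ?_, hP.fin.insert _, Set.mem_insert_of_mem _ hP.zero,
    Set.mem_insert_of_mem _ hP.top, ?_⟩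
  · have := hall _ hP.top
    unfold Close at this
    simp only at this
    omega
  · rintro r (rfl | hr) s (rfl | hs)
    · left; simp
    · exact hall s hs
    · exact (hall r hr).neg
    · exact (hP.cl r hr s hs).mono (by omega)

/-- `m` is the length of the longest common beginning -/
def IsMeet {d : ℕ} (x x' : Fin d → Bool) (m : ℕ) : Prop :=
  m ≤ d ∧ Agr x x' m ∧ ∀ j : Fin d, j.1 = m → x j ≠ x' j

theorem Agr.symm {d : ℕ} {x x' : Fin d → Bool} {m : ℕ} (h : Agr x x' m) : Agr x' x m :=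
  fun j hj => (h j hj).symm

theorem Agr.trans {d : ℕ} {x x' x'' : Fin d → Bool} {m : ℕ} (h : Agr x x' m) (h' : Agr x' x'' m) :
    Agr x x'' m := fun j hj => (h j hj).trans (h' j hj)

theorem Agr.mono {d : ℕ} {x x' : Fin d → Bool} {m n : ℕ} (h : Agr x x' m) (hn : n ≤ m) :
    Agr x x' n := fun j hj => h j (lt_of_lt_of_le hj hn)

theorem IsMeet.symm {d : ℕ} {x x' : Fin d → Bool} {m : ℕ} (h : IsMeet x x' m) : IsMeet x' x m :=
  ⟨h.1, h.2.1.symm, fun j hj => (h.2.2 j hj).symm⟩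

theorem isMeet_self {d : ℕ} (x : Fin d → Bool) : IsMeet x x d :=
  ⟨le_rfl, fun _ _ => rfl, fun j hj => absurd j.2 (by omega)⟩

theorem exists_meet {d : ℕ} (x x' : Fin d → Bool) : ∃ m, IsMeet x x' m := by
  classical
  by_cases h : ∃ m, ∃ j : Fin d, j.1 = m ∧ x j ≠ x' j
  · obtain ⟨j, hj, hne⟩ := Nat.find_spec h
    refine ⟨Nat.find h, by omega, ?_, ?_⟩
    · intro i hi
      by_contra hc
      exact Nat.find_min h hi ⟨i, rfl, hc⟩
    · intro i hi
      have : i = j := Fin.ext (by omega)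
      rwa [this]
  · refine ⟨d, le_rfl, ?_, ?_⟩
    · intro i _
      by_contra hc
      exact h ⟨i.1, i, rfl, hc⟩
    · intro i hi
      exact absurd i.2 (by omega)

theorem IsMeet.agr_iff {d : ℕ} {x x' : Fin d → Bool} {m : ℕ} (h : IsMeet x x' m) {i : ℕ}
    (hi : i ≤ d) : Agr x x' i ↔ i ≤ m := by
  constructor
  · intro ha
    by_contra hc
    have hm : m < d := by omega
    exact h.2.2 ⟨m, hm⟩ rfl (ha ⟨m, hm⟩ (by simp only []; omega))
  · intro him
    exact h.2.1.mono him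

theorem IsMeet.eq_iff {d : ℕ} {x x' : Fin d → Bool} {m : ℕ} (h : IsMeet x x' m) :
    x = x' ↔ m = d := by
  constructor
  · rintro rfl
    have := (h.agr_iff (le_refl d)).1 fun _ _ => rfl
    have := h.1
    omega
  · rintro rfl
    funext j
    exact h.2.1 j j.2

/-- a finite set of pairs of codes with the same kinds and close levels and meets -/
structure St (m : ℤ) {d d' : ℕ} (P : Set (ℕ × ℕ)) (F : Set (Code d × Code d')) : Prop where
  lev : LSt m d d' P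
  fin : F.Finite
  kd : ∀ p ∈ F, p.1.1 = p.2.1
  lv : ∀ p ∈ F, (p.1.2.2.1, p.2.2.2.1) ∈ P
  mt : ∀ p ∈ F, ∀ q ∈ F, ∃ μ ∈ P, IsMeet p.1.2.1 q.1.2.1 μ.1 ∧ IsMeet p.2.2.1 q.2.2.1 μ.2

theorem St.swap {m : ℤ} {d d' : ℕ} {P : Set (ℕ × ℕ)} {F : Set (Code d × Code d')} (h : St m P F) :
    St m (Prod.swap '' P) (Prod.swap '' F) := by
  refine ⟨h.lev.swap, h.fin.image _, ?_, ?_, ?_⟩
  · rintro _ ⟨p, hp, rfl⟩
    exact (h.kd p hp).symm
  · rintro _ ⟨p, hp, rfl⟩
    exact ⟨_, h.lv p hp, rfl⟩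
  · rintro _ ⟨p, hp, rfl⟩ _ ⟨q, hq, rfl⟩
    obtain ⟨μ, hμ, h₁, h₂⟩ := h.mt p hp q hq
    exact ⟨μ.swap, ⟨μ, hμ, rfl⟩, h₂, h₁⟩

theorem St.ext {m : ℤ} (hm : 3 ≤ m) {d d' : ℕ} {P : Set (ℕ × ℕ)} {F : Set (Code d × Code d')}
    (hF : F.Nonempty) (h : St (2 * (2 * m + 3) + 3) P F) (c : Code d) :
    ∃ (c' : Code d') (P' : Set (ℕ × ℕ)), St m P' (insert (c, c') F) := by
  obtain ⟨k, x, i⟩ := c
  -- the level
  obtain ⟨i', hi', hP1⟩ := LSt.ext (by omega) h.lev (a := i.1) (by omega)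
  -- the nearest string
  choose μ hμ using fun p : Code d × Code d' => exists_meet x p.1.2.1
  obtain ⟨p0, hp0, hmax⟩ := h.fin.exists_maximalFor μ _ hF
  obtain ⟨m0', hm0', hP2⟩ := LSt.ext hm hP1 (a := μ p0) (hμ p0).1
  set P2 : Set (ℕ × ℕ) := insert (μ p0, m0') (insert (i.1, i') P) with hP2def
  have hPsub : ∀ p ∈ P, p ∈ P2 := fun p hp => Set.mem_insert_of_mem _ (Set.mem_insert_of_mem _ hp)
  have hm0P : (μ p0, m0') ∈ P2 := Set.mem_insert _ _
  have hmi : (i.1, i') ∈ P2 := Set.mem_insert_of_mem _ (Set.mem_insert _ _)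
  let x' : Fin d' → Bool := fun j => if j.1 = m0' then ! (p0.2.2.1 j) else p0.2.2.1 j
  have hx' : IsMeet x' p0.2.2.1 m0' := by
    refine ⟨hm0', ?_, ?_⟩
    · intro j hj
      have : j.1 ≠ m0' := by omega
      simp [x', this]
    · intro j hj
      simp [x', hj]
  have hnew : ∀ q ∈ F, ∃ ν ∈ P2, IsMeet x q.1.2.1 ν.1 ∧ IsMeet x' q.2.2.1 ν.2 := by
    intro q hq
    obtain ⟨ν, hν, h₁, h₂⟩ := h.mt p0 hp0 q hq
    have hcl := hP2.cl _ (hPsub ν hν) _ hm0P
    have hcd := hP2.cl _ hm0P _ hP2.top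
    have hnd := hP2.cl _ (hPsub ν hν) _ hP2.top
    unfold Close at hcl hcd hnd
    simp only at hcl hcd hnd
    have hm0d := (hμ p0).1
    rcases lt_trichotomy ν.1 (μ p0) with hlt | heq | hgt
    · have hlt' : ν.2 < m0' := by omega
      refine ⟨ν, hPsub ν hν, ⟨h₁.1, ?_, ?_⟩, ⟨h₂.1, ?_, ?_⟩⟩
      · exact ((hμ p0).2.1.mono hlt.le).trans h₁.2.1
      · intro j hj
        rw [(hμ p0).2.1 j (by omega)]
        exact h₁.2.2 j hj
      · exact (hx'.2.1.mono hlt'.le).trans h₂.2.1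
      · intro j hj
        rw [hx'.2.1 j (by omega)]
        exact h₂.2.2 j hj
    · have heq' : ν.2 = m0' := by omega
      by_cases hd : μ p0 = d
      · have hd' : m0' = d' := by omega
        have e1 : x = p0.1.2.1 := (hμ p0).eq_iff.2 hd
        have e2 : p0.1.2.1 = q.1.2.1 := h₁.eq_iff.2 (heq.trans hd)
        have e3 : x' = p0.2.2.1 := hx'.eq_iff.2 hd'
        have e4 : p0.2.2.1 = q.2.2.1 := h₂.eq_iff.2 (heq'.trans hd')
        refine ⟨(d, d'), hP2.top, ?_, ?_⟩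
        · rw [e1, e2]; exact isMeet_self _
        · rw [e3, e4]; exact isMeet_self _
      · exfalso
        have hlt : μ p0 < d := by omega
        have ha : Agr x q.1.2.1 (μ p0 + 1) := by
          intro j hj
          by_cases hjm : j.1 = μ p0
          · have n1 := (hμ p0).2.2 j hjm
            have n2 := h₁.2.2 j (hjm.trans heq.symm)
            revert n1 n2
            cases x j <;> cases p0.1.2.1 j <;> cases q.1.2.1 j <;> simp
          · rw [(hμ p0).2.1 j (by omega)]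
            exact h₁.2.1 j (by omega)
        have hle := ((hμ q).agr_iff (by omega)).1 ha
        have := hmax hq (by show μ p0 ≤ μ q; omega)
        omega
    · have hgt' : m0' < ν.2 := by omega
      refine ⟨(μ p0, m0'), hm0P, ⟨(hμ p0).1, ?_, ?_⟩, ⟨hm0', ?_, ?_⟩⟩
      · exact (hμ p0).2.1.trans (h₁.2.1.mono hgt.le)
      · intro j hj
        rw [← h₁.2.1 j (by simp only [] at hj; omega)]
        exact (hμ p0).2.2 j hj
      · exact hx'.2.1.trans (h₂.2.1.mono hgt'.le)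
      · intro j hj
        rw [← h₂.2.1 j (by simp only [] at hj; omega)]
        exact hx'.2.2 j hj
  refine ⟨(k, x', ⟨i', by omega⟩), P2, hP2, h.fin.insert _, ?_, ?_, ?_⟩
  · rintro p (rfl | hp)
    · rfl
    · exact h.kd p hp
  · rintro p (rfl | hp)
    · exact hmi
    · exact hPsub _ (h.lv p hp)
  · rintro p (rfl | hp) q (rfl | hq)
    · exact ⟨(d, d'), hP2.top, isMeet_self _, isMeet_self _⟩
    · exact hnew q hq
    · obtain ⟨ν, hν, h₁, h₂⟩ := hnew p hp
      exact ⟨ν, hν, h₁.symm, h₂.symm⟩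
    · obtain ⟨ν, hν, h₁, h₂⟩ := h.mt p hp q hq
      exact ⟨ν, hPsub ν hν, h₁, h₂⟩

end Pool.Agent.H266LM
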