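import Pool.Agent.H266LM.Acc

/-! Transfer of well-formedness to a graph with additional nodes of sort `N`. -/

namespace Pool.Agent.H266LM

variable {G H : LGraph (Fin 3)} {ι : G.V → H.V} {u : G.V}

/-- `H` extends `G` by nodes of sort `N`, each next to at most one node of `G` -/
structure Emb (G H : LGraph (Fin 3)) (ι : G.V → H.V) : Prop where
  inj : Function.Injective ι
  adj : ∀ v w, H.Adj (ι v) (ι w) ↔ G.Adj v w
  srt : ∀ v, H.srt (ι v) = G.srt v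
  out : ∀ w, H.srt w ≠ .N → ∃ v, w = ι v
  one : ∀ w, (¬ ∃ v, w = ι v) → ∀ v v', H.Adj w (ι v) → H.Adj w (ι v') → v = v'

namespace Emb

variable (e : Emb G H ι)

include e

theorem rt (w : H.V) : H.RT (ι u) w ↔ ∃ t, w = ι t ∧ G.RT u t := by
  constructor
  · rintro ⟨h₁, h₂⟩
    obtain ⟨t, rfl⟩ := e.out w h₂.ne_N
    rw [e.adj] at h₁
    rw [e.srt] at h₂
    exact ⟨t, rfl, h₁, h₂⟩
  · rintro ⟨t, rfl, h₁, h₂⟩
    exact ⟨(e.adj _ _).2 h₁, by rw [e.srt]; exact h₂⟩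

theorem rt' (t : G.V) : H.RT (ι u) (ι t) ↔ G.RT u t := by
  rw [e.rt]
  constructor
  · rintro ⟨s, hs, h⟩
    rwa [e.inj hs]
  · intro h
    exact ⟨t, rfl, h⟩

theorem up (v w : H.V) : H.Up v w ↔ ∃ t s, v = ι t ∧ w = ι s ∧ G.Up t s := by
  constructor
  · rintro ⟨h₁, h₂⟩
    obtain ⟨t, rfl⟩ := e.out v h₂.left.ne_N
    obtain ⟨s, rfl⟩ := e.out w h₂.right.ne_N
    rw [e.adj] at h₁
    rw [e.srt, e.srt] at h₂
    exact ⟨t, s, rfl, rfl, h₁, h₂⟩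
  · rintro ⟨t, s, rfl, rfl, h₁, h₂⟩
    exact ⟨(e.adj _ _).2 h₁, by rw [e.srt, e.srt]; exact h₂⟩

theorem up' (t s : G.V) : H.Up (ι t) (ι s) ↔ G.Up t s := by
  rw [e.up]
  constructor
  · rintro ⟨t', s', h₁, h₂, h⟩
    rwa [e.inj h₁, e.inj h₂]
  · intro h
    exact ⟨t, s, rfl, rfl, h⟩

theorem nb {a : Srt} (ha : a = .B ∨ a = .Y ∨ a = .L) {t : G.V} {x : H.V} (h : H.Adj (ι t) x)
    (hs : H.srt x = a) : ∃ x', x = ι x' ∧ G.Adj t x' ∧ G.srt x' = a := by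
  obtain ⟨x', rfl⟩ := e.out x (by rw [hs]; rcases ha with rfl | rfl | rfl <;> decide)
  exact ⟨x', rfl, (e.adj _ _).1 h, by rw [← e.srt]; exact hs⟩

theorem wf1 (h : WF1 G u) : WF1 H (ι u) := by
  refine ⟨by rw [e.srt]; exact h.hu, ?_, ?_, ?_, ?_, ?_, ?_⟩
  · intro v hv hs
    obtain ⟨v, rfl⟩ := e.out v (by rw [hs]; decide)
    rw [e.adj] at hv
    rw [e.srt] at hs
    exact h.nH v hv hs
  · intro v w hv hw hN
    obtain ⟨w, rfl⟩ := e.out w hN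
    by_cases hv' : ∃ v', v = ι v'
    · obtain ⟨v, rfl⟩ := hv'
      rw [e.adj] at hv hw
      rw [e.srt] at hN
      rcases h.cl v w hv hw hN with h₁ | h₁
      · exact Or.inl (by rw [h₁])
      · exact Or.inr ((e.adj _ _).2 h₁)
    · left
      rw [e.one v hv' w u hw hv.symm]
  · intro a ha t ht
    replace ht := (e.rt t).1 ht
    obtain ⟨t, rfl, ht⟩ := ht
    obtain ⟨x, hx, hs⟩ := h.ex a ha t ht
    exact ⟨ι x, (e.adj _ _).2 hx, by rw [e.srt]; exact hs⟩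
  · intro a ha t ht x x' h₁ h₂ h₃ h₄
    replace ht := (e.rt t).1 ht
    obtain ⟨t, rfl, ht⟩ := ht
    obtain ⟨x, rfl, a₁, b₁⟩ := e.nb ha h₁ h₂
    obtain ⟨x', rfl, a₂, b₂⟩ := e.nb ha h₃ h₄
    rw [h.un a ha t ht x x' a₁ b₁ a₂ b₂]
  · intro t s s' ht h₁ h₂
    replace ht := (e.rt t).1 ht
    obtain ⟨t, rfl, ht⟩ := ht
    replace h₁ := (e.up _ _).1 h₁
    obtain ⟨t₁, s, e₁, rfl, h₁⟩ := h₁
    replace h₂ := (e.up _ _).1 h₂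
    obtain ⟨t₂, s', e₂, rfl, h₂⟩ := h₂
    obtain rfl := e.inj e₁
    obtain rfl := e.inj e₂
    rw [h.upf _ s s' ht h₁ h₂]
  · intro t r r' ht h₁ h₂
    replace ht := (e.rt t).1 ht
    obtain ⟨t, rfl, ht⟩ := ht
    replace h₁ := (e.up _ _).1 h₁
    obtain ⟨r, t₁, rfl, e₁, h₁⟩ := h₁
    replace h₂ := (e.up _ _).1 h₂
    obtain ⟨r', t₂, rfl, e₂, h₂⟩ := h₂
    obtain rfl := e.inj e₁
    obtain rfl := e.inj e₂
    rw [h.dnf _ r r' ht h₁ h₂]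

theorem pk (h : WF1 G u) {a : Srt} (ha : a = .B ∨ a = .Y ∨ a = .L) {t : G.V} (ht : G.RT u t) :
    H.pk a (ι t) = ι (G.pk a t) := by
  obtain ⟨h₁, h₂⟩ := h.pk_spec ha ht
  exact (e.wf1 h).pk_eq ha ((e.rt' t).2 ht) ((e.adj _ _).2 h₁) (by rw [e.srt]; exact h₂)

theorem pk_iff (h : WF1 G u) {a : Srt} (ha : a = .B ∨ a = .Y ∨ a = .L) {t s : G.V}
    (ht : G.RT u t) (hs : G.RT u s) : H.pk a (ι t) = H.pk a (ι s) ↔ G.pk a t = G.pk a s := by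
  rw [e.pk h ha ht, e.pk h ha hs]
  exact e.inj.eq_iff

theorem upex (t : G.V) : (∃ s, H.Up (ι t) s) ↔ ∃ s, G.Up t s := by
  constructor
  · rintro ⟨s, hs⟩
    replace hs := (e.up _ _).1 hs
    obtain ⟨t', s', e₁, rfl, h⟩ := hs
    obtain rfl := e.inj e₁
    exact ⟨s', h⟩
  · rintro ⟨s, hs⟩
    exact ⟨ι s, (e.up' _ _).2 hs⟩

theorem dnex (t : G.V) : (∃ r, H.Up r (ι t)) ↔ ∃ r, G.Up r t := by
  constructor
  · rintro ⟨s, hs⟩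
    replace hs := (e.up _ _).1 hs
    obtain ⟨s', t', rfl, e₁, h⟩ := hs
    obtain rfl := e.inj e₁
    exact ⟨s', h⟩
  · rintro ⟨s, hs⟩
    exact ⟨ι s, (e.up' _ _).2 hs⟩

theorem wf2 (h : WF1 G u) (h' : WF2 G u) : WF2 H (ι u) := by
  have haB : (Srt.B = .B ∨ Srt.B = .Y ∨ Srt.B = .L) := by simp
  have haL : (Srt.L = .B ∨ Srt.L = .Y ∨ Srt.L = .L) := by simp
  have haY : (Srt.Y = .B ∨ Srt.Y = .Y ∨ Srt.Y = .L) := by simp
  refine ⟨?_, ?_, ?_, ?_, ?_, ?_⟩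
  · intro t s ht hs
    replace ht := (e.rt t).1 ht
    obtain ⟨t, rfl, ht⟩ := ht
    replace hs := (e.up _ _).1 hs
    obtain ⟨t₁, s, e₁, rfl, hs⟩ := hs
    obtain rfl := e.inj e₁
    exact (e.pk_iff h haB ht (h.rt_up ht hs)).2 (h'.hb _ _ ht hs)
  · intro t t' ht ht' he h₁ h₂
    replace ht := (e.rt t).1 ht
    obtain ⟨t, rfl, ht⟩ := ht
    replace ht' := (e.rt t').1 ht'
    obtain ⟨t', rfl, ht'⟩ := ht'
    rw [e.upex] at h₁ h₂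
    rw [e.pk_iff h haB ht ht'] at he
    rw [h'.htop t t' ht ht' he h₁ h₂]
  · intro a ha t t' ht ht' he h₁
    replace ht := (e.rt t).1 ht
    obtain ⟨t, rfl, ht⟩ := ht
    replace ht' := (e.rt t').1 ht'
    obtain ⟨t', rfl, ht'⟩ := ht'
    rw [e.upex] at h₁ ⊢
    rw [e.pk_iff h (Or.inr ha) ht ht'] at he
    exact h'.hyT a ha t t' ht ht' he h₁
  · intro a ha t t' s s' ht ht' h₁ h₂ he
    replace ht := (e.rt t).1 ht
    obtain ⟨t, rfl, ht⟩ := ht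
    replace ht' := (e.rt t').1 ht'
    obtain ⟨t', rfl, ht'⟩ := ht'
    replace h₁ := (e.up _ _).1 h₁
    obtain ⟨t₁, s, e₁, rfl, h₁⟩ := h₁
    replace h₂ := (e.up _ _).1 h₂
    obtain ⟨t₂, s', e₂, rfl, h₂⟩ := h₂
    obtain rfl := e.inj e₁
    obtain rfl := e.inj e₂
    rw [e.pk_iff h (Or.inr ha) ht ht'] at he
    rw [e.pk_iff h (Or.inr ha) (h.rt_up ht h₁) (h.rt_up ht' h₂)]
    exact h'.hyU a ha _ _ s s' ht ht' h₁ h₂ he
  · intro t t' ht ht' h₁ h₂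
    replace ht := (e.rt t).1 ht
    obtain ⟨t, rfl, ht⟩ := ht
    replace ht' := (e.rt t').1 ht'
    obtain ⟨t', rfl, ht'⟩ := ht'
    rw [e.dnex] at h₁ h₂
    rw [e.pk_iff h haL ht ht']
    exact h'.hbot t t' ht ht' h₁ h₂
  · intro t r ht hr
    replace ht := (e.rt t).1 ht
    obtain ⟨t, rfl, ht⟩ := ht
    replace hr := (e.up _ _).1 hr
    obtain ⟨r, t₁, rfl, e₁, hr⟩ := hr
    obtain rfl := e.inj e₁
    obtain ⟨r₁, s₁, r₂, s₂, a₁, b₁, a₂, b₂, c₁, c₂, hne, hall⟩ := h'.hch _ r ht hr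
    refine ⟨ι r₁, ι s₁, ι r₂, ι s₂, (e.rt' _).2 a₁, (e.up' _ _).2 b₁, (e.rt' _).2 a₂,
      (e.up' _ _).2 b₂, (e.pk_iff h haY a₁ ht).2 c₁, (e.pk_iff h haY a₂ ht).2 c₂,
      fun hc => hne ((e.pk_iff h haY (h.rt_dn a₁ b₁) (h.rt_dn a₂ b₂)).1 hc), ?_⟩
    intro r' s' hs' hr' he
    replace hs' := (e.rt s').1 hs'
    obtain ⟨s', rfl, hs'⟩ := hs'
    replace hr' := (e.up _ _).1 hr'
    obtain ⟨r', s'', rfl, e₂, hr'⟩ := hr'
    obtain rfl := e.inj e₂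
    rw [e.pk_iff h haY hs' ht] at he
    rw [e.pk_iff h haY (h.rt_dn hs' hr') (h.rt_dn a₁ b₁),
      e.pk_iff h haY (h.rt_dn hs' hr') (h.rt_dn a₂ b₂)]
    exact hall r' _ hs' hr' he

theorem ht (h : WF1 G u) (h' : WF2 G u) (k : WF1 H (ι u)) (k' : WF2 H (ι u)) {n : ℕ} {t : G.V}
    (hn : (toSys h h').Ht n t) : (toSys k k').Ht n (ι t) := by
  induction n generalizing t with
  | zero =>
    refine ⟨(e.rt' _).2 hn.1, ?_⟩
    rintro ⟨s, _, hs⟩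
    obtain ⟨s', hs'⟩ := (e.upex t).1 ⟨s, hs⟩
    exact hn.2 ⟨s', hn.1, hs'⟩
  | succ n ih =>
    obtain ⟨s, ⟨h₁, h₂⟩, hs⟩ := hn
    exact ⟨ι s, ⟨(e.rt' _).2 h₁, (e.up' _ _).2 h₂⟩, ih hs⟩

end Emb

end Pool.Agent.H266LM
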