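import Pool.Agent.H266LM.EF

/-! First-order formulas do not distinguish the hubs of `Gd d` and `Gd (d + 3)` for large `d`. -/

namespace Pool.Agent.H266LM

open FirstOrder Language

section atomic

variable {d d' : ℕ} {P : Set (ℕ × ℕ)} {F : Set (Code d × Code d')}

theorem LSt.eq_iff (h : LSt 3 d d' P) {p q : ℕ × ℕ} (hp : p ∈ P) (hq : q ∈ P) :
    (p.1 = q.1 ↔ p.2 = q.2) ∧ (q.1 = p.1 + 1 ↔ q.2 = p.2 + 1) ∧ (p.1 ≤ q.1 ↔ p.2 ≤ q.2) ∧
      p.1 % 3 = p.2 % 3 := by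
  have h1 := h.cl p hp q hq
  have h2 := h.cl p hp _ h.zero
  unfold Close at h1 h2
  simp only at h1 h2
  refine ⟨by omega, by omega, by omega, by omega⟩

theorem atom (h : St 3 P F) {p q : Code d × Code d'} (hp : p ∈ F) (hq : q ∈ F) :
    (mk p.1 = mk q.1 ↔ mk p.2 = mk q.2) ∧ (R (mk p.1) (mk q.1) ↔ R (mk p.2) (mk q.2)) ∧
      sortV (mk p.1) = sortV (mk p.2) := by
  obtain ⟨μ, hμ, m1, m2⟩ := h.mt p hp q hq
  have k1 := h.kd p hp
  have k2 := h.kd q hq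
  have lp := h.lv p hp
  have lq := h.lv q hq
  have A := h.lev.eq_iff lp lq
  have Bt := h.lev.eq_iff hμ h.lev.top
  have D := h.lev.eq_iff lp hμ
  have ex : p.1.2.1 = q.1.2.1 ↔ p.2.2.1 = q.2.2.1 := by
    rw [m1.eq_iff, m2.eq_iff]; exact Bt.1
  have ei : p.1.2.2 = q.1.2.2 ↔ p.2.2.2 = q.2.2.2 := by
    rw [Fin.ext_iff, Fin.ext_iff]; exact A.1
  have et : trunc p.1.2.2.1 p.1.2.1 = trunc p.1.2.2.1 q.1.2.1 ↔
      trunc p.2.2.2.1 p.2.2.1 = trunc p.2.2.2.1 q.2.2.1 := by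
    rw [trunc_eq_iff, trunc_eq_iff, m1.agr_iff (by omega), m2.agr_iff (by omega)]
    exact D.2.2.1
  obtain ⟨⟨k, x, i⟩, ⟨k', x', i'⟩⟩ := p
  obtain ⟨⟨l, y, j⟩, ⟨l', y', j'⟩⟩ := q
  simp only at k1 k2 ex ei et A D
  subst k1
  subst k2
  refine ⟨?_, ?_, ?_⟩
  · cases k <;> cases l <;> simp only [mk, reduceCtorEq, Vx.t.injEq, Vx.b.injEq, Vx.l.injEq,
      Vx.y.injEq]
    · rw [ex, ei]
    · exact ex
    · constructor
      · rintro ⟨e1, e2⟩
        have f1 := ei.1 e1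
        subst e1
        subst f1
        refine ⟨rfl, ?_⟩
        rw [heq_eq_eq, Subtype.mk.injEq] at e2 ⊢
        exact et.1 e2
      · rintro ⟨e1, e2⟩
        have f1 := ei.2 e1
        subst e1
        subst f1
        refine ⟨rfl, ?_⟩
        rw [heq_eq_eq, Subtype.mk.injEq] at e2 ⊢
        exact et.2 e2
    · exact ei
  · cases k <;> cases l <;> simp only [mk, R]
    · rw [ex, A.2.1]
    · exact ex
    · constructor
      · rintro ⟨e1, e2⟩
        have f1 := ei.1 e1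
        subst e1
        subst f1
        exact ⟨rfl, (et.1 e2.symm).symm⟩
      · rintro ⟨e1, e2⟩
        have f1 := ei.2 e1
        subst e1
        subst f1
        exact ⟨rfl, (et.2 e2.symm).symm⟩
    · exact ei
  · cases k <;> simp only [mk, sortV]
    have := A.2.2.2
    simp only [tS, this]

end atomic

/-- the tuples are represented by the pairs of codes in a close state -/
def Eqv (m : ℤ) {d d' : ℕ} {ι : Type} (v : ι → Vx d) (v' : ι → Vx d') : Prop :=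
  ∃ P F, St m P F ∧ F.Nonempty ∧ ∀ j, ∃ p ∈ F, v j = mk p.1 ∧ v' j = mk p.2

theorem Eqv.symm {m : ℤ} {d d' : ℕ} {ι : Type} {v : ι → Vx d} {v' : ι → Vx d'} (h : Eqv m v v') :
    Eqv m v' v := by
  obtain ⟨P, F, h1, h2, h3⟩ := h
  refine ⟨_, _, h1.swap, h2.image _, fun j => ?_⟩
  obtain ⟨p, hp, e, e'⟩ := h3 j
  exact ⟨_, ⟨p, hp, rfl⟩, e', e⟩

theorem Eqv.mono {m m' : ℤ} (hm : m' ≤ m) {d d' : ℕ} {ι : Type} {v : ι → Vx d} {v' : ι → Vx d'}
    (h : Eqv m v v') : Eqv m' v v' := by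
  obtain ⟨P, F, h1, h2, h3⟩ := h
  exact ⟨P, F, ⟨h1.lev.mono hm, h1.fin, h1.kd, h1.lv, h1.mt⟩, h2, h3⟩

theorem Eqv.forth {m : ℤ} (hm : 3 ≤ m) {d d' n : ℕ} {v : Unit → Vx d} {v' : Unit → Vx d'}
    {xs : Fin n → Vx d} {xs' : Fin n → Vx d'}
    (h : Eqv (2 * (2 * m + 3) + 3) (Sum.elim v xs) (Sum.elim v' xs')) (a : Vx d) :
    ∃ a', Eqv m (Sum.elim v (Fin.snoc xs a : Fin (n + 1) → Vx d))
      (Sum.elim v' (Fin.snoc xs' a' : Fin (n + 1) → Vx d')) := by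
  obtain ⟨P, F, h1, h2, h3⟩ := h
  obtain ⟨c, rfl⟩ := mk_surj a
  obtain ⟨c', P', h4⟩ := h1.ext hm h2 c
  refine ⟨mk c', P', _, h4, h2.mono (Set.subset_insert _ _), ?_⟩
  rintro (j | j)
  · obtain ⟨p, hp, e, e'⟩ := h3 (Sum.inl j)
    exact ⟨p, Set.mem_insert_of_mem _ hp, e, e'⟩
  · refine Fin.lastCases ?_ (fun j => ?_) j
    · exact ⟨(c, c'), Set.mem_insert _ _, by simp, by simp⟩
    · obtain ⟨p, hp, e, e'⟩ := h3 (Sum.inr j)
      exact ⟨p, Set.mem_insert_of_mem _ hp, by simpa using e, by simpa using e'⟩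

/-- **Back-and-forth.** -/
theorem realize_iff {n : ℕ} (φ : (lang (Fin 3)).BoundedFormula Unit n) :
    ∃ r : ℕ, ∀ (d d' : ℕ) (v : Unit → Vx d) (v' : Unit → Vx d') (xs : Fin n → Vx d)
      (xs' : Fin n → Vx d'), Eqv (Mr r) (Sum.elim v xs) (Sum.elim v' xs') →
      (@BoundedFormula.Realize _ _ (Gd d).str _ _ φ v xs ↔
        @BoundedFormula.Realize _ _ (Gd d').str _ _ φ v' xs') := by
  induction φ with
  | falsum => exact ⟨0, fun _ _ _ _ _ _ _ => Iff.rfl⟩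
  | equal t₁ t₂ =>
    refine ⟨0, fun d d' v v' xs xs' h => ?_⟩
    obtain ⟨P, F, h1, _, h3⟩ := h
    rcases t₁ with a | ⟨f, _⟩
    swap; · exact f.elim
    rcases t₂ with b | ⟨f, _⟩
    swap; · exact f.elim
    obtain ⟨p, hp, e, e'⟩ := h3 a
    obtain ⟨q, hq, f, f'⟩ := h3 b
    change (Sum.elim v xs a = Sum.elim v xs b) ↔ (Sum.elim v' xs' a = Sum.elim v' xs' b)
    rw [e, e', f, f']
    exact (atom h1 hp hq).1
  | rel Rs ts =>
    refine ⟨0, fun d d' v v' xs xs' h => ?_⟩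
    obtain ⟨P, F, h1, _, h3⟩ := h
    have hv : ∀ i, ∃ a, ts i = Term.var a := fun i => by
      rcases ts i with a | ⟨f, _⟩
      · exact ⟨a, rfl⟩
      · exact f.elim
    choose a ha using hv
    obtain rfl : ts = fun i => Term.var (a i) := funext ha
    cases Rs with
    | adj =>
      change (R (Sum.elim v xs (a 0)) (Sum.elim v xs (a 1)) ∨
          R (Sum.elim v xs (a 1)) (Sum.elim v xs (a 0))) ↔
        (R (Sum.elim v' xs' (a 0)) (Sum.elim v' xs' (a 1)) ∨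
          R (Sum.elim v' xs' (a 1)) (Sum.elim v' xs' (a 0)))
      obtain ⟨p, hp, e, e'⟩ := h3 (a 0)
      obtain ⟨q, hq, f, f'⟩ := h3 (a 1)
      rw [e, e', f, f']
      exact or_congr (atom h1 hp hq).2.1 (atom h1 hq hp).2.1
    | lab i =>
      change (enc (sortV (Sum.elim v xs (a 0))) i = true) ↔
        (enc (sortV (Sum.elim v' xs' (a 0))) i = true)
      obtain ⟨p, hp, e, e'⟩ := h3 (a 0)
      rw [e, e', (atom h1 hp hp).2.2]
  | imp φ ψ ih₁ ih₂ =>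
    obtain ⟨r₁, h₁⟩ := ih₁
    obtain ⟨r₂, h₂⟩ := ih₂
    refine ⟨max r₁ r₂, fun d d' v v' xs xs' h => ?_⟩
    have e₁ := h₁ d d' v v' xs xs' (h.mono (Mr_mono (le_max_left _ _)))
    have e₂ := h₂ d d' v v' xs xs' (h.mono (Mr_mono (le_max_right _ _)))
    exact imp_congr e₁ e₂
  | all φ ih =>
    obtain ⟨r, hr⟩ := ih
    refine ⟨r + 2, fun d d' v v' xs xs' h => ?_⟩
    change (∀ a, _) ↔ (∀ a, _)
    constructor
    · intro hall a'
      obtain ⟨a, ha⟩ := h.symm.forth (Mr_ge r) a'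
      exact (hr d d' v v' _ _ ha.symm).1 (hall a)
    · intro hall a
      obtain ⟨a', ha⟩ := h.forth (Mr_ge r) a
      exact (hr d d' v v' _ _ ha).2 (hall a')

theorem sat_iff (φ : (lang (Fin 3)).Formula Unit) : ∃ d₀ : ℕ, ∀ d ≥ d₀,
    ((Gd d).Sat φ Vx.hub ↔ (Gd (d + 3)).Sat φ Vx.hub) := by
  obtain ⟨r, hr⟩ := realize_iff φ
  refine ⟨(Mr r).toNat, fun d hd => ?_⟩
  have hge := Mr_ge r
  refine hr d (d + 3) (fun _ => Vx.hub) (fun _ => Vx.hub) default default ?_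
  refine ⟨{(0, 0), (d, d + 3)}, {((.H, fun _ => false, 0), (.H, fun _ => false, 0))},
    ⟨⟨Set.toFinite _, by simp, by simp, ?_⟩, Set.toFinite _, ?_, ?_, ?_⟩, by simp, ?_⟩
  · rintro p (rfl | rfl) q (rfl | rfl) <;> unfold Close
    · left; simp
    · right; right; push_cast; omega
    · right; left; push_cast; omega
    · left; simp
  · rintro p rfl
    rfl
  · rintro p rfl
    simp
  · rintro p rfl q rfl
    exact ⟨(d, d + 3), by simp, isMeet_self _, isMeet_self _⟩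
  · rintro (j | j)
    · exact ⟨_, rfl, rfl, rfl⟩
    · exact j.elim0

end Pool.Agent.H266LM
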