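import Pool.Agent.H266LM.Gd
import Pool.Agent.H266LM.Acc

/-! `Gd d` is well-formed, and the classifier accepts its hub iff `d` is even. -/

namespace Pool.Agent.H266LM

variable {d : ℕ}

theorem srt_Gd (v : Vx d) : (Gd d).srt v = sortV v := dec_enc _

theorem tS_isT (i : ℕ) : (tS i).isT := by
  unfold tS Srt.isT
  split_ifs <;> simp

theorem tS_step {i j : ℕ} (h : i = j + 1 ∨ j = i + 1) : step (tS i) (tS j) ↔ i = j + 1 := by
  unfold tS step
  constructor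
  · intro hs
    split_ifs at hs <;> simp at hs <;> omega
  · intro hij
    have h3 : j % 3 = 0 ∨ j % 3 = 1 ∨ j % 3 = 2 := by omega
    rcases h3 with h3 | h3 | h3
    · have : i % 3 = 1 := by omega
      simp [h3, this]
    · have : i % 3 = 2 := by omega
      simp [h3, this]
    · have : i % 3 = 0 := by omega
      simp [h3, this]

theorem rt_iff (v : Vx d) : (Gd d).RT Vx.hub v ↔ ∃ x i, v = Vx.t x i := by
  unfold LGraph.RT
  rw [srt_Gd]
  constructor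
  · rintro ⟨_, h⟩
    cases v with
    | t x i => exact ⟨x, i, rfl⟩
    | hub => simp [sortV, Srt.isT] at h
    | b x => simp [sortV, Srt.isT] at h
    | y i w => simp [sortV, Srt.isT] at h
    | l i => simp [sortV, Srt.isT] at h
  · rintro ⟨x, i, rfl⟩
    exact ⟨Or.inl trivial, tS_isT _⟩

theorem up_iff (v w : Vx d) : (Gd d).Up v w ↔ ∃ x i j, v = Vx.t x i ∧ w = Vx.t x j ∧ i.1 = j.1 + 1 := by
  unfold LGraph.Up
  rw [srt_Gd, srt_Gd]
  constructor
  · rintro ⟨h, hs⟩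
    have h1 := hs.left
    have h2 := hs.right
    cases v with
    | t x i =>
      cases w with
      | t x' j =>
        rcases h with ⟨h, h'⟩ | ⟨h, h'⟩
        · exact ⟨x, i, j, rfl, by rw [h], (tS_step (Or.inr h')).1 hs⟩
        · exact ⟨x, i, j, rfl, by rw [h], (tS_step (Or.inl h')).1 hs⟩
      | hub => simp [sortV, Srt.isT] at h2
      | b x => simp [sortV, Srt.isT] at h2
      | y i w => simp [sortV, Srt.isT] at h2
      | l i => simp [sortV, Srt.isT] at h2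
    | hub => simp [sortV, Srt.isT] at h1
    | b x => simp [sortV, Srt.isT] at h1
    | y i w => simp [sortV, Srt.isT] at h1
    | l i => simp [sortV, Srt.isT] at h1
  · rintro ⟨x, i, j, rfl, rfl, h⟩
    exact ⟨Or.inr ⟨rfl, h⟩, (tS_step (Or.inl h)).2 h⟩

theorem nb_B {x : Fin d → Bool} {i : Fin (d + 1)} {w : Vx d} (h : (Gd d).Adj (Vx.t x i) w)
    (hs : (Gd d).srt w = .B) : w = Vx.b x := by
  rw [srt_Gd] at hs
  cases w with
  | b x' =>
    rcases h with h | h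
    · have e : x = x' := h
      rw [e]
    · exact h.elim
  | hub => simp [sortV] at hs
  | t x' i' => have := tS_isT i'.1; simp only [sortV] at hs; rw [hs] at this; simp [Srt.isT] at this
  | y i w => simp [sortV] at hs
  | l i => simp [sortV] at hs

theorem nb_Y {x : Fin d → Bool} {i : Fin (d + 1)} {w : Vx d} (h : (Gd d).Adj (Vx.t x i) w)
    (hs : (Gd d).srt w = .Y) : w = Vx.y i ⟨trunc i.1 x, trunc_trunc _ _⟩ := by
  rw [srt_Gd] at hs
  cases w with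
  | y i' w =>
    rcases h with ⟨rfl, e⟩ | h
    · congr 1
      exact Subtype.ext e
    · exact h.elim
  | hub => simp [sortV] at hs
  | t x' i' => have := tS_isT i'.1; simp only [sortV] at hs; rw [hs] at this; simp [Srt.isT] at this
  | b x => simp [sortV] at hs
  | l i => simp [sortV] at hs

theorem nb_L {x : Fin d → Bool} {i : Fin (d + 1)} {w : Vx d} (h : (Gd d).Adj (Vx.t x i) w)
    (hs : (Gd d).srt w = .L) : w = Vx.l i := by
  rw [srt_Gd] at hs
  cases w with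
  | l i' =>
    rcases h with h | h
    · have e : i = i' := h
      rw [e]
    · exact h.elim
  | hub => simp [sortV] at hs
  | t x' i' => have := tS_isT i'.1; simp only [sortV] at hs; rw [hs] at this; simp [Srt.isT] at this
  | b x => simp [sortV] at hs
  | y i w => simp [sortV] at hs

theorem ex_B (x : Fin d → Bool) (i : Fin (d + 1)) :
    (Gd d).Adj (Vx.t x i) (Vx.b x) ∧ (Gd d).srt (Vx.b x) = .B := ⟨Or.inl rfl, srt_Gd _⟩
theorem ex_Y (x : Fin d → Bool) (i : Fin (d + 1)) :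
    (Gd d).Adj (Vx.t x i) (Vx.y i ⟨trunc i.1 x, trunc_trunc _ _⟩) ∧
      (Gd d).srt (Vx.y i ⟨trunc i.1 x, trunc_trunc _ _⟩) = .Y := ⟨Or.inl ⟨rfl, rfl⟩, srt_Gd _⟩
theorem ex_L (x : Fin d → Bool) (i : Fin (d + 1)) :
    (Gd d).Adj (Vx.t x i) (Vx.l i) ∧ (Gd d).srt (Vx.l i) = .L := ⟨Or.inl rfl, srt_Gd _⟩

theorem pk_B (x : Fin d → Bool) (i : Fin (d + 1)) : (Gd d).pk .B (Vx.t x i) = Vx.b x := by
  obtain ⟨h1, h2⟩ := LGraph.pk_spec (G := Gd d) ⟨_, ex_B x i⟩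
  exact nb_B h1 h2
theorem pk_Y (x : Fin d → Bool) (i : Fin (d + 1)) :
    (Gd d).pk .Y (Vx.t x i) = Vx.y i ⟨trunc i.1 x, trunc_trunc _ _⟩ := by
  obtain ⟨h1, h2⟩ := LGraph.pk_spec (G := Gd d) ⟨_, ex_Y x i⟩
  exact nb_Y h1 h2
theorem pk_L (x : Fin d → Bool) (i : Fin (d + 1)) : (Gd d).pk .L (Vx.t x i) = Vx.l i := by
  obtain ⟨h1, h2⟩ := LGraph.pk_spec (G := Gd d) ⟨_, ex_L x i⟩
  exact nb_L h1 h2

theorem y_eq_iff {x x' : Fin d → Bool} {i i' : Fin (d + 1)} :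
    ((Gd d).pk .Y (Vx.t x i) = (Gd d).pk .Y (Vx.t x' i')) ↔ i = i' ∧ Agr x x' i.1 := by
  rw [pk_Y, pk_Y]
  constructor
  · intro h
    rw [Vx.y.injEq] at h
    obtain ⟨rfl, h⟩ := h
    rw [heq_eq_eq, Subtype.mk.injEq, trunc_eq_iff] at h
    exact ⟨rfl, h⟩
  · rintro ⟨rfl, h⟩
    congr 1
    exact Subtype.ext ((trunc_eq_iff _ _ _).2 h)

theorem gd_WF1 (d : ℕ) : WF1 (Gd d) Vx.hub := by
  refine ⟨srt_Gd _, ?_, ?_, ?_, ?_, ?_, ?_⟩
  · intro v hv
    rw [srt_Gd]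
    cases v with
    | hub => rcases hv with hv | hv <;> exact hv.elim
    | t x i => exact (tS_isT _).ne_H
    | b x => simp [sortV]
    | y i w => simp [sortV]
    | l i => simp [sortV]
  · intro v w _ _ _
    cases w with
    | hub => exact Or.inl rfl
    | t x i => exact Or.inr (Or.inl trivial)
    | b x => exact Or.inr (Or.inl trivial)
    | y i w => exact Or.inr (Or.inl trivial)
    | l i => exact Or.inr (Or.inl trivial)
  · intro a ha t ht
    obtain ⟨x, i, rfl⟩ := (rt_iff t).1 ht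
    rcases ha with rfl | rfl | rfl
    · exact ⟨_, ex_B x i⟩
    · exact ⟨_, ex_Y x i⟩
    · exact ⟨_, ex_L x i⟩
  · intro a ha t ht w w' h1 h2 h3 h4
    obtain ⟨x, i, rfl⟩ := (rt_iff t).1 ht
    rcases ha with rfl | rfl | rfl
    · rw [nb_B h1 h2, nb_B h3 h4]
    · rw [nb_Y h1 h2, nb_Y h3 h4]
    · rw [nb_L h1 h2, nb_L h3 h4]
  · intro t s s' _ h1 h2
    obtain ⟨x, i, j, rfl, rfl, e⟩ := (up_iff _ _).1 h1
    obtain ⟨x', i', j', f, rfl, e'⟩ := (up_iff _ _).1 h2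
    rw [Vx.t.injEq] at f
    obtain ⟨rfl, rfl⟩ := f
    congr 1
    exact Fin.ext (by omega)
  · intro t s s' _ h1 h2
    obtain ⟨x, i, j, rfl, rfl, e⟩ := (up_iff _ _).1 h1
    obtain ⟨x', i', j', rfl, f, e'⟩ := (up_iff _ _).1 h2
    rw [Vx.t.injEq] at f
    obtain ⟨rfl, rfl⟩ := f
    congr 1
    exact Fin.ext (by omega)

theorem up_exists_iff {x : Fin d → Bool} {i : Fin (d + 1)} :
    (∃ s, (Gd d).Up (Vx.t x i) s) ↔ i.1 ≠ 0 := by
  constructor
  · rintro ⟨s, hs⟩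
    obtain ⟨x', i', j', f, rfl, e'⟩ := (up_iff _ _).1 hs
    rw [Vx.t.injEq] at f
    obtain ⟨rfl, rfl⟩ := f
    omega
  · intro h
    exact ⟨Vx.t x ⟨i.1 - 1, by omega⟩, (up_iff _ _).2 ⟨x, i, _, rfl, rfl, by simp only []; omega⟩⟩

theorem dn_exists_iff {x : Fin d → Bool} {i : Fin (d + 1)} :
    (∃ r, (Gd d).Up r (Vx.t x i)) ↔ i.1 ≠ d := by
  constructor
  · rintro ⟨s, hs⟩
    obtain ⟨x', i', j', rfl, f, e'⟩ := (up_iff _ _).1 hs
    rw [Vx.t.injEq] at f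
    obtain ⟨rfl, rfl⟩ := f
    omega
  · intro h
    exact ⟨Vx.t x ⟨i.1 + 1, by omega⟩, (up_iff _ _).2 ⟨x, _, i, rfl, rfl, rfl⟩⟩

theorem gd_WF2 (d : ℕ) : WF2 (Gd d) Vx.hub := by
  refine ⟨?_, ?_, ?_, ?_, ?_, ?_⟩
  · intro t s _ h
    obtain ⟨x, i, j, rfl, rfl, e⟩ := (up_iff _ _).1 h
    rw [pk_B, pk_B]
  · intro t t' ht ht' e h1 h2
    obtain ⟨x, i, rfl⟩ := (rt_iff t).1 ht
    obtain ⟨x', i', rfl⟩ := (rt_iff t').1 ht'
    rw [pk_B, pk_B, Vx.b.injEq] at e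
    subst e
    rw [up_exists_iff, not_not] at h1 h2
    congr 1
    exact Fin.ext (h1.trans h2.symm)
  · intro a ha t t' ht ht' e h1
    obtain ⟨x, i, rfl⟩ := (rt_iff t).1 ht
    obtain ⟨x', i', rfl⟩ := (rt_iff t').1 ht'
    rw [up_exists_iff] at h1 ⊢
    rcases ha with rfl | rfl
    · rw [y_eq_iff] at e
      rw [← e.1]; exact h1
    · rw [pk_L, pk_L, Vx.l.injEq] at e
      rw [← e]; exact h1
  · intro a ha t t' s s' _ _ h1 h2 e
    obtain ⟨x, i, j, rfl, rfl, hij⟩ := (up_iff _ _).1 h1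
    obtain ⟨x', i', j', rfl, rfl, hij'⟩ := (up_iff _ _).1 h2
    rcases ha with rfl | rfl
    · rw [y_eq_iff] at e ⊢
      obtain ⟨rfl, e⟩ := e
      exact ⟨Fin.ext (by omega), fun k hk => e k (by omega)⟩
    · rw [pk_L, pk_L, Vx.l.injEq] at e ⊢
      subst e
      exact Fin.ext (by omega)
  · intro t t' ht ht' h1 h2
    obtain ⟨x, i, rfl⟩ := (rt_iff t).1 ht
    obtain ⟨x', i', rfl⟩ := (rt_iff t').1 ht'
    rw [dn_exists_iff, not_not] at h1 h2
    rw [pk_L, pk_L, Vx.l.injEq]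
    exact Fin.ext (h1.trans h2.symm)
  · intro t r _ h
    obtain ⟨x, i, j, rfl, rfl, hij⟩ := (up_iff _ _).1 h
    have hjd : j.1 < d := by omega
    let x2 : Fin d → Bool := fun k => if k.1 = j.1 then ! x k else x k
    have h2 : (Gd d).Up (Vx.t x2 i) (Vx.t x2 j) := (up_iff _ _).2 ⟨x2, i, j, rfl, rfl, hij⟩
    refine ⟨Vx.t x i, Vx.t x j, Vx.t x2 i, Vx.t x2 j, (rt_iff _).2 ⟨x, j, rfl⟩, h,
      (rt_iff _).2 ⟨x2, j, rfl⟩, h2, rfl, ?_, ?_, ?_⟩
    · rw [y_eq_iff]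
      refine ⟨rfl, fun k hk => ?_⟩
      have : k.1 ≠ j.1 := by omega
      simp [x2, this]
    · rw [Ne, y_eq_iff]
      rintro ⟨_, ha⟩
      have := ha ⟨j.1, hjd⟩ (by simp only []; omega)
      simp [x2] at this
    · intro r' s' hs' hr' e
      obtain ⟨x', i', j', rfl, rfl, hij'⟩ := (up_iff _ _).1 hr'
      rw [y_eq_iff] at e
      obtain ⟨rfl, ha⟩ := e
      have hii : i' = i := Fin.ext (by omega)
      subst hii
      rw [y_eq_iff, y_eq_iff]
      by_cases hx : x' ⟨j'.1, hjd⟩ = x ⟨j'.1, hjd⟩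
      · left
        refine ⟨rfl, fun k hk => ?_⟩
        by_cases hk' : k.1 = j'.1
        · have : k = ⟨j'.1, hjd⟩ := Fin.ext hk'
          rw [this]; exact hx
        · exact ha k (by omega)
      · right
        refine ⟨rfl, fun k hk => ?_⟩
        by_cases hk' : k.1 = j'.1
        · have hk2 : k = ⟨j'.1, hjd⟩ := Fin.ext hk'
          subst hk2
          simp only [x2, if_true]
          revert hx
          cases x' ⟨j'.1, hjd⟩ <;> cases x ⟨j'.1, hjd⟩ <;> simp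
        · simp only [x2, hk', if_false]
          exact ha k (by omega)

theorem gd_ht (x : Fin d → Bool) (n : ℕ) (hn : n < d + 1) :
    (toSys (gd_WF1 d) (gd_WF2 d)).Ht n (Vx.t x ⟨n, hn⟩ : Vx d) := by
  induction n with
  | zero =>
    refine ⟨(rt_iff _).2 ⟨_, _, rfl⟩, ?_⟩
    rintro ⟨s, _, hs⟩
    exact up_exists_iff.1 ⟨s, hs⟩ rfl
  | succ n ih =>
    exact ⟨Vx.t x ⟨n, by omega⟩, ⟨(rt_iff _).2 ⟨_, _, rfl⟩, (up_iff _ _).2 ⟨x, _, _, rfl, rfl, rfl⟩⟩,
      ih (by omega)⟩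

theorem gd_accepts (d : ℕ) (val : (Gd d).V → ℝ) (i : Function.Injective val) :
    C.Accepts (Gd d) val i Vx.hub ↔ Even d := by
  rw [C_accepts]
  refine acc_iff_even (K := { toLGraph := Gd d, val := val, inj := i }) (gd_WF1 d) (gd_WF2 d)
    (gd_ht (fun _ => false) d (by omega)) ?_
  rintro ⟨r, _, hr⟩
  exact dn_exists_iff.1 ⟨r, hr⟩ rfl

end Pool.Agent.H266LM
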