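import Pool.Agent.H266LM.Star
import Pool.Agent.H266LM.GdWF

/-! The graphs `Wd P d`: the graphs `Gd d` with the labels replaced by gadgets. -/

namespace Pool.Agent.H266LM

/-- positions in a gadget: the node itself, two leaves, two pendant paths -/
inductive Gad | m | l0 | l1 | p0 | p1 | q0 | q1
  deriving DecidableEq

instance : Finite Gad := by
  refine Finite.of_injective (fun k : Gad => match k with
    | .m => (0 : Fin 7) | .l0 => 1 | .l1 => 2 | .p0 => 3 | .p1 => 4 | .q0 => 5 | .q1 => 6) ?_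
  intro a b
  cases a <;> cases b <;> simp

/-- the positions present for a sort -/
def okG : Srt → Gad → Bool
  | _, .m => true
  | .H, .l0 | .B, .l0 | .B, .l1 | .Y, .p0 | .Y, .q0 | .L, .p0 | .L, .q0 | .L, .p1 | .L, .q1 => true
  | .T0, .l0 | .T0, .p0 | .T0, .q0 => true
  | .T1, .l0 | .T1, .l1 | .T1, .p0 | .T1, .q0 => true
  | .T2, .l0 | .T2, .p0 | .T2, .q0 | .T2, .p1 | .T2, .q1 => true
  | _, _ => false

/-- the edges of a gadget -/
def gadj : Gad → Gad → Bool
  | .m, .l0 | .m, .l1 | .m, .p0 | .m, .p1 | .p0, .q0 | .p1, .q1 => true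
  | .l0, .m | .l1, .m | .p0, .m | .p1, .m | .q0, .p0 | .q1, .p1 => true
  | _, _ => false

theorem gadj_symm (g g' : Gad) : gadj g g' = gadj g' g := by cases g <;> cases g' <;> rfl

/-- the nodes -/
abbrev Wx (d : ℕ) := {w : Vx d × Gad // okG (sortV w.1) w.2 = true}

/-- the unlabelled graph -/
@[reducible] def Wd (P : Type) (d : ℕ) : LGraph P where
  V := Wx d
  Adj := fun w w' => (w.1.2 = .m ∧ w'.1.2 = .m ∧ (R w.1.1 w'.1.1 ∨ R w'.1.1 w.1.1)) ∨
    (w.1.1 = w'.1.1 ∧ gadj w.1.2 w'.1.2 = true)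
  symm := fun w w' h => by
    rcases h with ⟨h₁, h₂, h₃⟩ | ⟨h₁, h₂⟩
    · exact Or.inl ⟨h₂, h₁, Or.symm h₃⟩
    · exact Or.inr ⟨h₁.symm, by rw [gadj_symm]; exact h₂⟩
  lab := fun _ _ => false

theorem Wd_simple (P : Type) (d : ℕ) : (Wd P d).Simple := by
  rintro ⟨⟨v, g⟩, hg⟩ (⟨_, _, h⟩ | ⟨_, h⟩)
  · rcases h with h | h <;> exact R_irrefl v h
  · cases g <;> simp [gadj] at h

variable {P : Type} {d : ℕ}

theorem sortV_ne_N (v : Vx d) : sortV v ≠ .N := by
  cases v with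
  | t x i => exact (tS_isT _).ne_N
  | hub => simp [sortV]
  | b x => simp [sortV]
  | y i w => simp [sortV]
  | l i => simp [sortV]

/-- main node -/
def ι (v : Vx d) : Wx d := ⟨(v, .m), rfl⟩

theorem two_nbrs (v : Vx d) : ∃ v₁ v₂, v₁ ≠ v₂ ∧ (R v v₁ ∨ R v₁ v) ∧ (R v v₂ ∨ R v₂ v) := by
  cases v with
  | hub => exact ⟨.b fun _ => false, .l 0, by simp, Or.inl trivial, Or.inl trivial⟩
  | t x i => exact ⟨.b x, .l i, by simp, Or.inl rfl, Or.inl rfl⟩
  | b x => exact ⟨.hub, .t x 0, by simp, Or.inr trivial, Or.inr rfl⟩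
  | y i w => exact ⟨.hub, .t w.1 i, by simp, Or.inr trivial, Or.inr ⟨rfl, w.2.symm⟩⟩
  | l i => exact ⟨.hub, .t (fun _ => false) i, by simp, Or.inr trivial, Or.inr rfl⟩

theorem not_unq_main {A : Wx d → Prop} (v : Vx d) (hA : ∀ v', A (ι v')) :
    ¬ (Wd P d).unq A (ι v) := by
  intro h
  obtain ⟨v₁, v₂, hne, h₁, h₂⟩ := two_nbrs v
  have := h (ι v₁) (ι v₂) (Or.inl ⟨rfl, rfl, h₁⟩) (hA _) (Or.inl ⟨rfl, rfl, h₂⟩) (hA _)
  apply hne
  have := congrArg (fun w : Wx d => w.1.1) this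
  exact this

theorem adj_non {v : Vx d} {g : Gad} {hg : okG (sortV v) g = true} (hne : g ≠ .m) (w' : Wx d) :
    (Wd P d).Adj ⟨(v, g), hg⟩ w' ↔ v = w'.1.1 ∧ gadj g w'.1.2 = true := by
  constructor
  · rintro (⟨h, _⟩ | h)
    · exact absurd h hne
    · exact h
  · intro h
    exact Or.inr h

/-- a gadget node whose only gadget neighbour is `g'` -/
theorem unq_of {A : Wx d → Prop} {v : Vx d} {g : Gad} {hg : okG (sortV v) g = true} (hne : g ≠ .m)
    (g' : Gad) (h : ∀ (x : Gad) (hx : okG (sortV v) x = true), gadj g x = true →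
      A ⟨(v, x), hx⟩ → x = g') : (Wd P d).unq A ⟨(v, g), hg⟩ := by
  rintro ⟨⟨v₁, g₁⟩, h₁⟩ ⟨⟨v₂, g₂⟩, h₂⟩ a₁ b₁ a₂ b₂
  rw [adj_non hne] at a₁ a₂
  obtain ⟨e₁, c₁⟩ := a₁
  obtain ⟨e₂, c₂⟩ := a₂
  simp only at e₁ e₂ c₁ c₂
  subst e₁
  subst e₂
  have f₁ := h g₁ h₁ c₁ b₁
  have f₂ := h g₂ h₂ c₂ b₂
  subst f₁
  subst f₂
  rfl

theorem som_of {A : Wx d → Prop} {v : Vx d} {g : Gad} {hg : okG (sortV v) g = true} (hne : g ≠ .m) :
    (Wd P d).som A ⟨(v, g), hg⟩ ↔ ∃ (x : Gad) (hx : okG (sortV v) x = true), gadj g x = true ∧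
      A ⟨(v, x), hx⟩ := by
  constructor
  · rintro ⟨⟨⟨v₁, g₁⟩, h₁⟩, a₁, b₁⟩
    rw [adj_non hne] at a₁
    obtain ⟨e₁, c₁⟩ := a₁
    simp only at e₁ c₁
    subst e₁
    exact ⟨g₁, h₁, c₁, b₁⟩
  · rintro ⟨x, hx, h, hA⟩
    exact ⟨⟨(v, x), hx⟩, (adj_non hne _).2 ⟨rfl, h⟩, hA⟩

theorem okG_q0 (s : Srt) : okG s .q0 = okG s .p0 := by cases s <;> rfl
theorem okG_q1 (s : Srt) : okG s .q1 = okG s .p1 := by cases s <;> rfl
theorem okG_l1 {s : Srt} (h : okG s .l1 = true) : okG s .l0 = true := by cases s <;> simp_all [okG]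
theorem okG_p1 {s : Srt} (h : okG s .p1 = true) : okG s .p0 = true := by cases s <;> simp_all [okG]

theorem leaf_iff (w : Wx d) : (Wd P d).leaf w ↔
    (w.1.2 = .l0 ∨ w.1.2 = .l1 ∨ w.1.2 = .q0 ∨ w.1.2 = .q1) := by
  obtain ⟨⟨v, g⟩, hg⟩ := w
  simp only
  constructor
  · rintro ⟨h₁, h₂⟩
    cases g with
    | m => exact absurd h₂ (not_unq_main v fun _ => trivial)
    | l0 => simp
    | l1 => simp
    | q0 => simp
    | q1 => simp
    | p0 =>
      have := h₂ (ι v) ⟨(v, .q0), by rw [okG_q0]; exact hg⟩ (Or.inr ⟨rfl, rfl⟩) trivial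
        (Or.inr ⟨rfl, rfl⟩) trivial
      have := congrArg (fun w : Wx d => w.1.2) this
      simp [ι] at this
    | p1 =>
      have := h₂ (ι v) ⟨(v, .q1), by rw [okG_q1]; exact hg⟩ (Or.inr ⟨rfl, rfl⟩) trivial
        (Or.inr ⟨rfl, rfl⟩) trivial
      have := congrArg (fun w : Wx d => w.1.2) this
      simp [ι] at this
  · rintro (rfl | rfl | rfl | rfl)
    · refine ⟨(som_of (by simp)).2 ⟨.m, rfl, rfl, trivial⟩, unq_of (by simp) .m ?_⟩
      intro x _ hx _
      cases x <;> simp_all [gadj]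
    · refine ⟨(som_of (by simp)).2 ⟨.m, rfl, rfl, trivial⟩, unq_of (by simp) .m ?_⟩
      intro x _ hx _
      cases x <;> simp_all [gadj]
    · refine ⟨(som_of (by simp)).2 ⟨.p0, by rw [← okG_q0]; exact hg, rfl, trivial⟩,
        unq_of (by simp) .p0 ?_⟩
      intro x _ hx _
      cases x <;> simp_all [gadj]
    · refine ⟨(som_of (by simp)).2 ⟨.p1, by rw [← okG_q1]; exact hg, rfl, trivial⟩,
        unq_of (by simp) .p1 ?_⟩
      intro x _ hx _
      cases x <;> simp_all [gadj]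

theorem pre_iff (w : Wx d) : (Wd P d).pre w ↔ (w.1.2 = .p0 ∨ w.1.2 = .p1) := by
  obtain ⟨⟨v, g⟩, hg⟩ := w
  simp only
  constructor
  · rintro ⟨⟨h₁, h₂⟩, h₃, h₄⟩
    cases g with
    | m => exact absurd h₄ (not_unq_main v fun v' => by rw [leaf_iff]; simp [ι])
    | p0 => simp
    | p1 => simp
    | l0 =>
      obtain ⟨x, hx, hx', hl⟩ := (som_of (by simp)).1 h₁
      rw [leaf_iff] at hl
      cases x <;> simp_all [gadj]
    | l1 =>
      obtain ⟨x, hx, hx', hl⟩ := (som_of (by simp)).1 h₁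
      rw [leaf_iff] at hl
      cases x <;> simp_all [gadj]
    | q0 =>
      obtain ⟨x, hx, hx', hl⟩ := (som_of (by simp)).1 h₁
      rw [leaf_iff] at hl
      cases x <;> simp_all [gadj]
    | q1 =>
      obtain ⟨x, hx, hx', hl⟩ := (som_of (by simp)).1 h₁
      rw [leaf_iff] at hl
      cases x <;> simp_all [gadj]
  · rintro (rfl | rfl)
    · refine ⟨⟨(som_of (by simp)).2 ⟨.q0, by rw [okG_q0]; exact hg, rfl, by rw [leaf_iff]; simp⟩,
        unq_of (by simp) .q0 ?_⟩, (som_of (by simp)).2 ⟨.m, rfl, rfl, by rw [leaf_iff]; simp⟩,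
        unq_of (by simp) .m ?_⟩
      · intro x hx hx' hl
        rw [leaf_iff] at hl
        cases x <;> simp_all [gadj]
      · intro x hx hx' hl
        rw [leaf_iff] at hl
        cases x <;> simp_all [gadj]
    · refine ⟨⟨(som_of (by simp)).2 ⟨.q1, by rw [okG_q1]; exact hg, rfl, by rw [leaf_iff]; simp⟩,
        unq_of (by simp) .q1 ?_⟩, (som_of (by simp)).2 ⟨.m, rfl, rfl, by rw [leaf_iff]; simp⟩,
        unq_of (by simp) .m ?_⟩
      · intro x hx hx' hl
        rw [leaf_iff] at hl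
        cases x <;> simp_all [gadj]
      · intro x hx hx' hl
        rw [leaf_iff] at hl
        cases x <;> simp_all [gadj]

/-- neighbours of a main node of a type that occurs only in gadgets, at `a` and `b` -/
theorem som_main {A : Wx d → Prop} (v : Vx d) {a b : Gad} (ha : a ≠ .m) (hb : b ≠ .m)
    (hma : gadj .m a = true)
    (hab : okG (sortV v) b = true → okG (sortV v) a = true)
    (hA : ∀ w : Wx d, (w.1.2 = a ∨ w.1.2 = b) → A w)
    (hA' : ∀ w : Wx d, A w → gadj .m w.1.2 = true → (w.1.2 = a ∨ w.1.2 = b))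
    (hAm : ∀ v', ¬ A (ι v')) :
    (Wd P d).som A (ι v) ↔ okG (sortV v) a = true := by
  constructor
  · rintro ⟨⟨⟨v₁, g₁⟩, h₁⟩, (⟨_, e, _⟩ | ⟨e, c⟩), hA₁⟩
    · simp only at e
      subst e
      exact absurd hA₁ (hAm _)
    · have e' : v = v₁ := e
      subst e'
      rcases hA' _ hA₁ c with e | e
      · simp only at e
        subst e
        exact h₁
      · simp only at e
        subst e
        exact hab h₁
  · intro h
    exact ⟨⟨(v, a), h⟩, Or.inr ⟨rfl, hma⟩, hA _ (Or.inl rfl)⟩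

theorem unq_main {A : Wx d → Prop} (v : Vx d) {a b : Gad} (hne : a ≠ b)
    (hma : gadj .m a = true) (hmb : gadj .m b = true)
    (hab : okG (sortV v) b = true → okG (sortV v) a = true)
    (hA : ∀ w : Wx d, (w.1.2 = a ∨ w.1.2 = b) → A w)
    (hA' : ∀ w : Wx d, A w → gadj .m w.1.2 = true → (w.1.2 = a ∨ w.1.2 = b))
    (hAm : ∀ v', ¬ A (ι v')) :
    (Wd P d).unq A (ι v) ↔ ¬ okG (sortV v) b = true := by
  constructor
  · intro h hb
    have := h ⟨(v, a), hab hb⟩ ⟨(v, b), hb⟩ (Or.inr ⟨rfl, hma⟩) (hA _ (Or.inl rfl))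
      (Or.inr ⟨rfl, hmb⟩) (hA _ (Or.inr rfl))
    exact hne (congrArg (fun w : Wx d => w.1.2) this)
  · intro hb
    have key : ∀ w, (Wd P d).Adj (ι v) w → A w → w.1 = (v, a) := by
      rintro ⟨⟨v₁, g₁⟩, h₁⟩ (⟨_, e, _⟩ | ⟨e, c⟩) hA₁
      · simp only at e
        subst e
        exact absurd hA₁ (hAm _)
      · have e' : v = v₁ := e
        subst e'
        rcases hA' _ hA₁ c with e | e
        · exact Prod.ext rfl e
        · simp only at e
          subst e
          exact absurd h₁ hb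
    intro w w' h₁ h₂ h₃ h₄
    exact Subtype.ext ((key w h₁ h₂).trans (key w' h₃ h₄).symm)

theorem code_main (v : Vx d) : (Wd P d).code (ι v) = sortV v := by
  have h1 : ¬ (Wd P d).leaf (ι v) := by rw [leaf_iff]; simp [ι]
  have h2 : ¬ (Wd P d).pre (ι v) := by rw [pre_iff]; simp [ι]
  have h3 : (Wd P d).som (Wd P d).leaf (ι v) ↔ okG (sortV v) .l0 = true :=
    som_main (a := .l0) (b := .l1) v (by simp) (by simp) rfl okG_l1
      (fun w h => by rw [leaf_iff]; tauto)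
      (fun w h h' => by
        rw [leaf_iff] at h
        rcases h with h | h | h | h <;> simp_all [gadj])
      (fun v' => by rw [leaf_iff]; simp [ι])
  have h4 : (Wd P d).unq (Wd P d).leaf (ι v) ↔ ¬ okG (sortV v) .l1 = true :=
    unq_main (a := .l0) (b := .l1) v (by simp) rfl rfl okG_l1
      (fun w h => by rw [leaf_iff]; tauto)
      (fun w h h' => by
        rw [leaf_iff] at h
        rcases h with h | h | h | h <;> simp_all [gadj])
      (fun v' => by rw [leaf_iff]; simp [ι])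
  have h5 : (Wd P d).som (Wd P d).pre (ι v) ↔ okG (sortV v) .p0 = true :=
    som_main (a := .p0) (b := .p1) v (by simp) (by simp) rfl okG_p1
      (fun w h => by rw [pre_iff]; tauto)
      (fun w h h' => by rwa [pre_iff] at h)
      (fun v' => by rw [pre_iff]; simp [ι])
  have h6 : (Wd P d).unq (Wd P d).pre (ι v) ↔ ¬ okG (sortV v) .p1 = true :=
    unq_main (a := .p0) (b := .p1) v (by simp) rfl rfl okG_p1
      (fun w h => by rw [pre_iff]; tauto)
      (fun w h h' => by rwa [pre_iff] at h)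
      (fun v' => by rw [pre_iff]; simp [ι])
  have hN := sortV_ne_N v
  rw [LGraph.code, codeS, h3, h4, h5, h6]
  simp only [h1, h2, or_self, if_false]
  cases h : sortV v <;> simp_all [okG]

theorem code_other (w : Wx d) (h : w.1.2 ≠ .m) : (Wd P d).code w = .N := by
  have : (Wd P d).leaf w ∨ (Wd P d).pre w := by
    rw [leaf_iff, pre_iff]
    cases hw : w.1.2 <;> simp_all
  rw [LGraph.code, codeS, if_pos this]

theorem eq_ι (w : Wx d) (h : (Wd P d).code w ≠ .N) : ∃ v, w = ι v := by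
  by_cases hm : w.1.2 = .m
  · exact ⟨w.1.1, Subtype.ext (Prod.ext rfl hm)⟩
  · exact absurd (code_other (P := P) w hm) h

end Pool.Agent.H266LM
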