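import Pool.Agent.H266LM.FO
import Pool.Agent.H266LM.Wd
import Pool.Agent.H266LM.Emb

/-! First-order formulas do not distinguish the hubs of `Wd P d` and `Wd P (d + 3)` for large `d`,
but the classifier does. -/

namespace Pool.Agent.H266LM

open FirstOrder Language

/-- the tuples are represented by the pairs of codes in a close state, with the same positions in the
gadgets -/
def EqvW (m : ℤ) {d d' : ℕ} {J : Type} (v : J → Wx d) (v' : J → Wx d') : Prop :=
  ∃ P F, St m P F ∧ F.Nonempty ∧ ∀ j, ∃ p ∈ F, (v j).1.1 = mk p.1 ∧ (v' j).1.1 = mk p.2 ∧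
    (v j).1.2 = (v' j).1.2

theorem EqvW.symm {m : ℤ} {d d' : ℕ} {J : Type} {v : J → Wx d} {v' : J → Wx d'}
    (h : EqvW m v v') : EqvW m v' v := by
  obtain ⟨P, F, h1, h2, h3⟩ := h
  refine ⟨_, _, h1.swap, h2.image _, fun j => ?_⟩
  obtain ⟨p, hp, e, e', e''⟩ := h3 j
  exact ⟨_, ⟨p, hp, rfl⟩, e', e, e''.symm⟩

theorem EqvW.mono {m m' : ℤ} (hm : m' ≤ m) {d d' : ℕ} {J : Type} {v : J → Wx d} {v' : J → Wx d'}
    (h : EqvW m v v') : EqvW m' v v' := by
  obtain ⟨P, F, h1, h2, h3⟩ := h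
  exact ⟨P, F, ⟨h1.lev.mono hm, h1.fin, h1.kd, h1.lv, h1.mt⟩, h2, h3⟩

theorem EqvW.forth {m : ℤ} (hm : 3 ≤ m) {d d' n : ℕ} {v : Unit → Wx d} {v' : Unit → Wx d'}
    {xs : Fin n → Wx d} {xs' : Fin n → Wx d'}
    (h : EqvW (2 * (2 * m + 3) + 3) (Sum.elim v xs) (Sum.elim v' xs')) (a : Wx d) :
    ∃ a', EqvW m (Sum.elim v (Fin.snoc xs a : Fin (n + 1) → Wx d))
      (Sum.elim v' (Fin.snoc xs' a' : Fin (n + 1) → Wx d')) := by
  obtain ⟨P, F, h1, h2, h3⟩ := h
  obtain ⟨⟨w, g⟩, hg⟩ := a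
  obtain ⟨c, rfl⟩ := mk_surj w
  obtain ⟨c', P', h4⟩ := h1.ext hm h2 c
  have h4' : St 3 P' (insert (c, c') F) := ⟨h4.lev.mono hm, h4.fin, h4.kd, h4.lv, h4.mt⟩
  have hs := (atom h4' (Set.mem_insert _ _) (Set.mem_insert _ _)).2.2
  simp only at hs hg
  rw [hs] at hg
  refine ⟨⟨(mk c', g), hg⟩, P', _, h4, h2.mono (Set.subset_insert _ _), ?_⟩
  rintro (j | j)
  · obtain ⟨p, hp, e, e', e''⟩ := h3 (Sum.inl j)
    exact ⟨p, Set.mem_insert_of_mem _ hp, e, e', e''⟩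
  · refine Fin.lastCases ?_ (fun j => ?_) j
    · exact ⟨(c, c'), Set.mem_insert _ _, by simp, by simp, by simp⟩
    · obtain ⟨p, hp, e, e', e''⟩ := h3 (Sum.inr j)
      exact ⟨p, Set.mem_insert_of_mem _ hp, by simpa using e, by simpa using e',
        by simpa using e''⟩

/-- **Back-and-forth.** -/
theorem realize_iff' {L : Type} {n : ℕ} (φ : (lang L).BoundedFormula Unit n) :
    ∃ r : ℕ, ∀ (d d' : ℕ) (v : Unit → Wx d) (v' : Unit → Wx d') (xs : Fin n → Wx d)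
      (xs' : Fin n → Wx d'), EqvW (Mr r) (Sum.elim v xs) (Sum.elim v' xs') →
      (@BoundedFormula.Realize _ _ (Wd L d).str _ _ φ v xs ↔
        @BoundedFormula.Realize _ _ (Wd L d').str _ _ φ v' xs') := by
  induction φ with
  | falsum => exact ⟨0, fun _ _ _ _ _ _ _ => Iff.rfl⟩
  | equal t₁ t₂ =>
    refine ⟨0, fun d d' v v' xs xs' h => ?_⟩
    obtain ⟨P, F, h1, _, h3⟩ := h
    rcases t₁ with a | ⟨f, _⟩
    swap; · exact f.elim
    rcases t₂ with b | ⟨f, _⟩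
    swap; · exact f.elim
    obtain ⟨p, hp, e, e', e''⟩ := h3 a
    obtain ⟨q, hq, f, f', f''⟩ := h3 b
    change (Sum.elim v xs a = Sum.elim v xs b) ↔ (Sum.elim v' xs' a = Sum.elim v' xs' b)
    rw [Subtype.ext_iff, Subtype.ext_iff, Prod.ext_iff, Prod.ext_iff, e, e', f, f', e'', f'']
    exact and_congr (atom h1 hp hq).1 Iff.rfl
  | rel Rs ts =>
    refine ⟨0, fun d d' v v' xs xs' h => ?_⟩
    obtain ⟨P, F, h1, _, h3⟩ := h
    have hv : ∀ i, ∃ a, ts i = Term.var a := fun i => by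
      rcases ts i with a | ⟨f, _⟩
      · exact ⟨a, rfl⟩
      · exact f.elim
    choose a ha using hv
    obtain rfl : ts = fun i => Term.var (a i) := funext ha
    cases Rs with
    | adj =>
      change (Wd L d).Adj (Sum.elim v xs (a 0)) (Sum.elim v xs (a 1)) ↔
        (Wd L d').Adj (Sum.elim v' xs' (a 0)) (Sum.elim v' xs' (a 1))
      obtain ⟨p, hp, e, e', e''⟩ := h3 (a 0)
      obtain ⟨q, hq, f, f', f''⟩ := h3 (a 1)
      simp only [e, e', f, f', e'', f'', (atom h1 hp hq).1, (atom h1 hp hq).2.1,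
        (atom h1 hq hp).2.1]
    | lab i =>
      change (false = true) ↔ (false = true)
      exact Iff.rfl
  | imp φ ψ ih₁ ih₂ =>
    obtain ⟨r₁, h₁⟩ := ih₁
    obtain ⟨r₂, h₂⟩ := ih₂
    refine ⟨max r₁ r₂, fun d d' v v' xs xs' h => ?_⟩
    have e₁ := h₁ d d' v v' xs xs' (h.mono (Mr_mono (le_max_left _ _)))
    have e₂ := h₂ d d' v v' xs xs' (h.mono (Mr_mono (le_max_right _ _)))
    exact imp_congr e₁ e₂
  | all φ ih =>
    obtain ⟨r, hr⟩ := ih
    refine ⟨r + 2, fun d d' v v' xs xs' h => ?_⟩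
    change (∀ a, _) ↔ (∀ a, _)
    constructor
    · intro hall a'
      obtain ⟨a, ha⟩ := h.symm.forth (Mr_ge r) a'
      exact (hr d d' v v' _ _ ha.symm).1 (hall a)
    · intro hall a
      obtain ⟨a', ha⟩ := h.forth (Mr_ge r) a
      exact (hr d d' v v' _ _ ha).2 (hall a')

theorem sat_iff' {L : Type} (φ : (lang L).Formula Unit) : ∃ d₀ : ℕ, ∀ d ≥ d₀,
    ((Wd L d).Sat φ (ι Vx.hub) ↔ (Wd L (d + 3)).Sat φ (ι Vx.hub)) := by
  obtain ⟨r, hr⟩ := realize_iff' φ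
  refine ⟨(Mr r).toNat, fun d hd => ?_⟩
  have hge := Mr_ge r
  refine hr d (d + 3) (fun _ => ι Vx.hub) (fun _ => ι Vx.hub) default default ?_
  refine ⟨{(0, 0), (d, d + 3)}, {((.H, fun _ => false, 0), (.H, fun _ => false, 0))},
    ⟨⟨Set.toFinite _, by simp, by simp, ?_⟩, Set.toFinite _, ?_, ?_, ?_⟩, by simp, ?_⟩
  · rintro p (rfl | rfl) q (rfl | rfl) <;> unfold Close
    · left; simp
    · right; right; push_cast; omega
    · right; left; push_cast; omega
    · left; simp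
  · rintro p rfl
    rfl
  · rintro p rfl
    simp
  · rintro p rfl q rfl
    exact ⟨(d, d + 3), by simp, isMeet_self _, isMeet_self _⟩
  · rintro (j | j)
    · exact ⟨_, rfl, rfl, rfl, rfl⟩
    · exact j.elim0

theorem emb (P : Type) (d : ℕ) : Emb (Gd d) (Wd P d).star (ι (d := d)) := by
  refine ⟨?_, ?_, ?_, ?_, ?_⟩
  · intro v w h
    exact congrArg (fun w : Wx d => w.1.1) h
  · intro v w
    constructor
    · rintro (⟨_, _, h⟩ | ⟨_, h⟩)
      · exact h
      · exact absurd h (by simp [ι, gadj])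
    · intro h
      exact Or.inl ⟨rfl, rfl, h⟩
  · intro v
    rw [LGraph.srt_star, srt_Gd]
    exact code_main v
  · intro w hw
    rw [LGraph.srt_star] at hw
    exact eq_ι w hw
  · intro w hw v v' h h'
    have hne : w.1.2 ≠ .m := fun hm => hw ⟨w.1.1, Subtype.ext (Prod.ext rfl hm)⟩
    rcases h with ⟨e, _⟩ | ⟨e, _⟩
    · exact absurd e hne
    · rcases h' with ⟨e', _⟩ | ⟨e', _⟩
      · exact absurd e' hne
      · exact e.symm.trans e'

theorem wd_accepts (P : Type) [Fintype P] [DecidableEq P] (d : ℕ) (val : (Wd P d).V → ℝ)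
    (i : Function.Injective val) : (CP P).Accepts (Wd P d) val i (ι Vx.hub) ↔ Even d := by
  rw [CP_accepts, C_accepts]
  have e := emb P d
  have k := e.wf1 (gd_WF1 d)
  have k' := e.wf2 (gd_WF1 d) (gd_WF2 d)
  refine acc_iff_even (K := { toLGraph := (Wd P d).star, val := val, inj := i }) k k'
    (e.ht (gd_WF1 d) (gd_WF2 d) k k' (gd_ht (fun _ => false) d (by omega))) ?_
  rintro ⟨r, _, hr⟩
  obtain ⟨r', hr'⟩ := (e.dnex _).1 ⟨r, hr⟩
  exact dn_exists_iff.1 ⟨r', hr'⟩ rfl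

theorem not_defines' (P : Type) [Fintype P] [DecidableEq P] (φ : (lang P).Formula Unit) :
    ¬ ∀ (G : LGraph P), G.Simple → ∀ (u : G.V) (val : G.V → ℝ) (inj : Function.Injective val),
      (G.Sat φ u ↔ (CP P).Accepts G val inj u) := by
  intro h
  obtain ⟨d₀, hd⟩ := sat_iff' φ
  have key : ∀ d, (Wd P d).Sat φ (ι Vx.hub) ↔ Even d := by
    intro d
    obtain ⟨n, ⟨e⟩⟩ := Finite.exists_equiv_fin (Wx d)
    have inj : Function.Injective (fun v : Wx d => ((e v).1 : ℝ)) := fun a b hab =>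
      e.injective (Fin.ext (by simpa using hab))
    rw [h (Wd P d) (Wd_simple P d) (ι Vx.hub) (fun v : Wx d => ((e v).1 : ℝ)) inj]
    exact wd_accepts P d _ _
  have := hd (2 * d₀) (by omega)
  rw [key, key] at this
  have h1 : Even (2 * d₀) := even_two_mul _
  have h2 := this.1 h1
  rw [Nat.even_add] at h2
  exact absurd (h2.1 h1) (by decide)

end Pool.Agent.H266LM
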