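import Pool.Agent.H266LM.Test

/-! The graphs `Gd d`: the complete binary tree of depth `d` with all its branches. -/

namespace Pool.Agent.H266LM

/-- label vector of a sort -/
def enc : Srt → Fin 3 → Bool
  | .N => ![false, false, false]
  | .H => ![true, false, false]
  | .B => ![false, true, false]
  | .Y => ![true, true, false]
  | .L => ![false, false, true]
  | .T0 => ![true, false, true]
  | .T1 => ![false, true, true]
  | .T2 => ![true, true, true]

theorem dec_enc (a : Srt) : dec (enc a) = a := by cases a <;> rfl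

/-- the sort of the chain nodes of level `i` -/
def tS (i : ℕ) : Srt := if i % 3 = 0 then .T0 else if i % 3 = 1 then .T1 else .T2

/-- the beginning of length `i` of a string -/
def trunc {d : ℕ} (i : ℕ) (x : Fin d → Bool) : Fin d → Bool := fun j => x j && decide (j.1 < i)

theorem trunc_trunc {d : ℕ} (i : ℕ) (x : Fin d → Bool) : trunc i (trunc i x) = trunc i x := by
  funext j
  simp only [trunc]
  cases x j <;> simp

/-- the two strings agree below `m` -/
def Agr {d : ℕ} (x x' : Fin d → Bool) (m : ℕ) : Prop := ∀ j : Fin d, j.1 < m → x j = x' j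

theorem trunc_eq_iff {d : ℕ} (i : ℕ) (x x' : Fin d → Bool) : trunc i x = trunc i x' ↔ Agr x x' i := by
  constructor
  · intro h j hj
    have := congrFun h j
    simpa [trunc, hj] using this
  · intro h
    funext j
    by_cases hj : j.1 < i
    · simp [trunc, hj, h j hj]
    · simp [trunc, hj]

/-- the nodes of `Gd d`: the hub, the chain nodes, the branches, the tree nodes, the levels -/
inductive Vx (d : ℕ) : Type
  | hub : Vx d
  | t (x : Fin d → Bool) (i : Fin (d + 1)) : Vx d
  | b (x : Fin d → Bool) : Vx d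
  | y (i : Fin (d + 1)) (w : {w : Fin d → Bool // trunc i.1 w = w}) : Vx d
  | l (i : Fin (d + 1)) : Vx d

/-- the kinds of nodes -/
inductive Kd | H | T | B | Y | L
  deriving DecidableEq

instance : Finite Kd := by
  refine Finite.of_injective (fun k : Kd => match k with
    | .H => (0 : Fin 5) | .T => 1 | .B => 2 | .Y => 3 | .L => 4) ?_
  intro a b
  cases a <;> cases b <;> simp

abbrev Code (d : ℕ) := Kd × (Fin d → Bool) × Fin (d + 1)

/-- the node with a given code -/
def mk {d : ℕ} : Code d → Vx d
  | (.H, _, _) => .hub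
  | (.T, x, i) => .t x i
  | (.B, x, _) => .b x
  | (.Y, x, i) => .y i ⟨trunc i.1 x, trunc_trunc _ _⟩
  | (.L, _, i) => .l i

theorem mk_surj {d : ℕ} (v : Vx d) : ∃ c, mk c = v := by
  cases v with
  | hub => exact ⟨(.H, fun _ => false, 0), rfl⟩
  | t x i => exact ⟨(.T, x, i), rfl⟩
  | b x => exact ⟨(.B, x, 0), rfl⟩
  | y i w => exact ⟨(.Y, w.1, i), by simp only [mk]; congr 1; exact Subtype.ext w.2⟩
  | l i => exact ⟨(.L, fun _ => false, i), rfl⟩

instance (d : ℕ) : Finite (Vx d) := Finite.of_surjective (mk (d := d)) mk_surj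

/-- half of the edges -/
def R {d : ℕ} : Vx d → Vx d → Prop
  | .hub, .t _ _ => True
  | .hub, .b _ => True
  | .hub, .y _ _ => True
  | .hub, .l _ => True
  | .t x i, .t x' i' => x = x' ∧ i'.1 = i.1 + 1
  | .t x _, .b x' => x = x'
  | .t x i, .y i' w => i = i' ∧ w.1 = trunc i.1 x
  | .t _ i, .l i' => i = i'
  | _, _ => False

/-- the sort of a node -/
def sortV {d : ℕ} : Vx d → Srt
  | .hub => .H
  | .t _ i => tS i.1
  | .b _ => .B
  | .y _ _ => .Y
  | .l _ => .L

/-- the labelled graph -/
@[reducible] def Gd (d : ℕ) : LGraph (Fin 3) where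
  V := Vx d
  Adj := fun v w => R v w ∨ R w v
  symm := fun _ _ h => Or.symm h
  lab := fun v => enc (sortV v)

theorem R_irrefl {d : ℕ} (v : Vx d) : ¬ R v v := by
  cases v <;> simp [R]

end Pool.Agent.H266LM
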