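import Pool.Agent.H266LM.Gd
import Pool.Agent.H266LM.Acc

/-! Replacing the labels by small gadgets: leaves and pendant paths with two nodes. -/

namespace Pool.Agent.H266LM

section

variable {P : Type}

/-- `v` has a neighbour in `A` -/
def LGraph.som (G : LGraph P) (A : G.V → Prop) (v : G.V) : Prop := ∃ w, G.Adj v w ∧ A w
/-- `v` has at most one neighbour in `A` -/
def LGraph.unq (G : LGraph P) (A : G.V → Prop) (v : G.V) : Prop :=
  ∀ w w', G.Adj v w → A w → G.Adj v w' → A w' → w = w'
/-- `v` has exactly one neighbour -/
def LGraph.leaf (G : LGraph P) (v : G.V) : Prop := G.som (fun _ => True) v ∧ G.unq (fun _ => True) v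
/-- `v` has exactly one neighbour that is a leaf and exactly one that is not -/
def LGraph.pre (G : LGraph P) (v : G.V) : Prop :=
  (G.som G.leaf v ∧ G.unq G.leaf v) ∧ (G.som (fun w => ¬ G.leaf w) v ∧ G.unq (fun w => ¬ G.leaf w) v)

open Classical in
/-- the sort coded by the numbers of leaves and of pendant paths -/
noncomputable def codeS (lf pr sl ul sp up : Prop) : Srt :=
  if lf ∨ pr then .N else
    if sl then
      (if ul then (if sp then (if up then .T0 else .T2) else .H)
        else (if sp then (if up then .T1 else .N) else .B))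
      else (if sp then (if up then .Y else .L) else .N)

noncomputable def LGraph.code (G : LGraph P) (v : G.V) : Srt :=
  codeS (G.leaf v) (G.pre v) (G.som G.leaf v) (G.unq G.leaf v) (G.som G.pre v) (G.unq G.pre v)

/-- the graph with the decoded labels -/
@[reducible] noncomputable def LGraph.star (G : LGraph P) : LGraph (Fin 3) where
  V := G.V
  Adj := G.Adj
  symm := G.symm
  lab := fun v => enc (G.code v)

@[reducible] noncomputable def Keyed.star (K : Keyed P) : Keyed (Fin 3) where
  toLGraph := K.toLGraph.star
  val := K.val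
  inj := K.inj

theorem LGraph.srt_star (G : LGraph P) (v : G.V) : G.star.srt v = G.code v := dec_enc _

end

variable {P : Type} [Fintype P] [DecidableEq P]

omit [Fintype P] [DecidableEq P] in
theorem IsLM.combn {k : ℕ} {F : Fin k → Feat P} (h : ∀ i, IsLM (F i)) (f : (Fin k → ℝ) → ℝ) :
    IsLM fun K v => f fun i => F i K v := by
  choose e he using h
  exact ⟨.comb k f e, fun K v => by simp only [FExpr.eval, he]⟩

theorem IsP.combn {k : ℕ} {q : Fin k → Prd P} (h : ∀ i, IsP (q i)) (g : (Fin k → Prop) → Prop) :
    IsP fun K v => g fun i => q i K v := by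
  refine (IsLM.combn h fun r => ind (g fun i => r i = 1)).congr fun K v => ?_
  congr 2
  funext i
  exact propext ind_eq_one

theorem isP_som {A : Prd P} (h : IsP A) : IsP fun K v => K.toLGraph.som (A K) v := h.ex'
theorem isP_unq {A : Prd P} (h : IsP A) : IsP fun K v => K.toLGraph.unq (A K) v := by
  refine (IsP.same (Q := fun _ => A) (fun _ => h) (F := fun K v => K.val v) IsLM.val).congr
    fun K v => ?_
  constructor
  · intro hs w w' h₁ h₂ h₃ h₄
    exact K.inj (hs w w' h₁ h₂ h₃ h₄)
  · intro hs w w' h₁ h₂ h₃ h₄
    exact congrArg K.val (hs w w' h₁ h₂ h₃ h₄)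
theorem isP_leaf : IsP fun (K : Keyed P) v => K.toLGraph.leaf v :=
  (isP_som (IsP.const True)).and (isP_unq (IsP.const True))
theorem isP_pre : IsP fun (K : Keyed P) v => K.toLGraph.pre v :=
  ((isP_som isP_leaf).and (isP_unq isP_leaf)).and ((isP_som isP_leaf.not).and (isP_unq isP_leaf.not))

theorem isP_code (Q : Srt → Prop) : IsP fun (K : Keyed P) v => Q (K.toLGraph.code v) := by
  have h : ∀ i : Fin 6, IsP ((![fun K v => K.toLGraph.leaf v, fun K v => K.toLGraph.pre v,
      fun K v => K.toLGraph.som K.toLGraph.leaf v, fun K v => K.toLGraph.unq K.toLGraph.leaf v,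
      fun K v => K.toLGraph.som K.toLGraph.pre v,
      fun K v => K.toLGraph.unq K.toLGraph.pre v] : Fin 6 → Prd P) i) := by
    intro i
    fin_cases i
    · exact isP_leaf
    · exact isP_pre
    · exact isP_som isP_leaf
    · exact isP_unq isP_leaf
    · exact isP_som isP_pre
    · exact isP_unq isP_pre
  exact IsP.combn h fun p => Q (codeS (p 0) (p 1) (p 2) (p 3) (p 4) (p 5))

theorem isLM_star (e : FExpr (Fin 3)) : IsLM fun (K : Keyed P) v => e.eval K.star v := by
  induction e with
  | lab i =>
    refine IsLM.congr (isP_code (P := P) fun s => enc s i = true) fun K v => ?_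
    simp [FExpr.eval, ind]
  | val => exact IsLM.val
  | comb n f F ih => exact IsLM.combn ih f
  | localMax F ih => exact IsLM.localMax ih

/-- the classifier over the labels `P`, which it does not use -/
noncomputable def CP (P : Type) [Fintype P] [DecidableEq P] : FExpr P :=
  Classical.choose (isLM_star (P := P) C)

theorem CP_accepts (G : LGraph P) (val : G.V → ℝ) (i : Function.Injective val) (u : G.V) :
    (CP P).Accepts G val i u ↔ C.Accepts G.star val i u := by
  have := Classical.choose_spec (isLM_star (P := P) C) { toLGraph := G, val := val, inj := i } u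
  rw [FExpr.Accepts, CP, this]
  exact Iff.rfl

theorem CP_keyInvariant : (CP P).KeyInvariant := fun G u val val' i i' => by
  rw [CP_accepts, CP_accepts]
  exact C_keyInvariant G.star u val val' i i'

end Pool.Agent.H266LM
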