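import Mathlib

/-! The combinatorial core: alternating branches in a system of chains. -/

namespace Pool.Agent.H266LM

/-- A system of chains: `T` the chain nodes, `U t s` means that `s` is the node above `t`, `b t` is the
branch of `t`, `y t` the tree node below which `t` hangs, `l t` its level. -/
structure Sys (V : Type) where
  T : V → Prop
  U : V → V → Prop
  b : V → V
  y : V → V
  l : V → V
  hT : ∀ t s, U t s → T t ∧ T s
  hf : ∀ t s s', U t s → U t s' → s = s'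
  hi : ∀ t t' s, U t s → U t' s → t = t'
  hb : ∀ t s, U t s → b t = b s
  htop : ∀ t t', T t → T t' → b t = b t' → (¬ ∃ s, U t s) → (¬ ∃ s, U t' s) → t = t'
  hyT : ∀ t t', T t → T t' → y t = y t' → (∃ s, U t s) → ∃ s, U t' s
  hyU : ∀ t t' s s', U t s → U t' s' → y t = y t' → y s = y s'
  hlT : ∀ t t', T t → T t' → l t = l t' → (∃ s, U t s) → ∃ s, U t' s
  hlU : ∀ t t' s s', U t s → U t' s' → l t = l t' → l s = l s'
  hbot : ∀ t t', T t → T t' → (¬ ∃ r, U r t) → (¬ ∃ r, U r t') → l t = l t'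
  hch : ∀ t r, U r t → ∃ r₁ s₁ r₂ s₂, U r₁ s₁ ∧ U r₂ s₂ ∧ y s₁ = y t ∧ y s₂ = y t ∧ y r₁ ≠ y r₂ ∧
    ∀ r s, U r s → y s = y t → y r = y r₁ ∨ y r = y r₂

namespace Sys

variable {V : Type} (S : Sys V)

/-- the height: number of steps to the top -/
def Ht : ℕ → V → Prop
  | 0, t => S.T t ∧ ¬ ∃ s, S.U t s
  | n + 1, t => ∃ s, S.U t s ∧ Ht n s

/-- `y t` is the larger child of the tree node above it -/
def c (κ : V → ℝ) (t : V) : Prop :=
  ∀ s r s', S.U t s → S.U r s' → S.y s' = S.y s → κ (S.y r) ≤ κ (S.y t)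

/-- violation of the alternation -/
def viol (κ : V → ℝ) (t : V) : Prop :=
  ∃ s, S.U t s ∧ (((¬ ∃ s', S.U s s') ∧ S.c κ t) ∨ ((∃ s', S.U s s') ∧ (S.c κ t ↔ S.c κ s)) ∨
    ((¬ ∃ r, S.U r t) ∧ ¬ S.c κ t))

/-- alternation down to `t` -/
def Gd (κ : V → ℝ) : ℕ → V → Prop
  | 0, t => S.T t ∧ ¬ ∃ s, S.U t s
  | n + 1, t => ∃ s, S.U t s ∧ Gd κ n s ∧ (S.c κ t ↔ Even (n + 1))

/-- a branch without violation -/
def good (κ : V → ℝ) (x : V) : Prop :=
  (∃ t, S.T t ∧ S.b t = x) ∧ ∀ t, S.T t → S.b t = x → ¬ S.viol κ t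

theorem Ht.T {n : ℕ} {t : V} (h : S.Ht n t) : S.T t := by
  cases n with
  | zero => exact h.1
  | succ n => obtain ⟨s, hs, _⟩ := h; exact (S.hT _ _ hs).1

theorem Ht.uniq {n m : ℕ} {t : V} (h : S.Ht n t) (h' : S.Ht m t) : n = m := by
  induction n generalizing m t with
  | zero =>
    cases m with
    | zero => rfl
    | succ m =>
      obtain ⟨s, hs, _⟩ := h'
      exact absurd ⟨s, hs⟩ h.2
  | succ n ih =>
    obtain ⟨s, hs, hn⟩ := h
    cases m with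
    | zero => exact absurd ⟨s, hs⟩ h'.2
    | succ m =>
      obtain ⟨s', hs', hm⟩ := h'
      rw [S.hf _ _ _ hs' hs] at hm
      rw [ih hn hm]

theorem Ht.y_congr {n : ℕ} {t t' : V} (h : S.Ht n t) (ht' : S.T t') (e : S.y t = S.y t') :
    S.Ht n t' := by
  induction n generalizing t t' with
  | zero => exact ⟨ht', fun hs => h.2 (S.hyT t' t ht' h.1 e.symm hs)⟩
  | succ n ih =>
    obtain ⟨s, hs, hn⟩ := h
    obtain ⟨s', hs'⟩ := S.hyT t t' (S.hT _ _ hs).1 ht' e ⟨s, hs⟩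
    exact ⟨s', hs', ih hn (S.hT _ _ hs').2 (S.hyU _ _ _ _ hs hs' e)⟩

theorem Ht.l_congr {n : ℕ} {t t' : V} (h : S.Ht n t) (ht' : S.T t') (e : S.l t = S.l t') :
    S.Ht n t' := by
  induction n generalizing t t' with
  | zero => exact ⟨ht', fun hs => h.2 (S.hlT t' t ht' h.1 e.symm hs)⟩
  | succ n ih =>
    obtain ⟨s, hs, hn⟩ := h
    obtain ⟨s', hs'⟩ := S.hlT t t' (S.hT _ _ hs).1 ht' e ⟨s, hs⟩
    exact ⟨s', hs', ih hn (S.hT _ _ hs').2 (S.hlU _ _ _ _ hs hs' e)⟩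

theorem exists_ht [Finite V] (t : V) (ht : S.T t) : ∃ n, S.Ht n t := by
  classical
  by_contra hcon
  set C : Set V := {t | S.T t ∧ ¬ ∃ n, S.Ht n t} with hC
  have htC : t ∈ C := ⟨ht, hcon⟩
  have hup : ∀ t ∈ C, ∃ s, S.U t s ∧ s ∈ C := by
    intro t ht
    by_cases h : ∃ s, S.U t s
    · obtain ⟨s, hs⟩ := h
      exact ⟨s, hs, (S.hT _ _ hs).2, fun ⟨n, hn⟩ => ht.2 ⟨n + 1, s, hs, hn⟩⟩
    · exact absurd ⟨0, ht.1, h⟩ ht.2
  have hdn : ∀ r s, S.U r s → s ∈ C → r ∈ C := by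
    intro r s hrs hs
    refine ⟨(S.hT _ _ hrs).1, fun ⟨n, hn⟩ => hs.2 ?_⟩
    cases n with
    | zero => exact absurd ⟨s, hrs⟩ hn.2
    | succ n =>
      obtain ⟨s', hs', hn⟩ := hn
      rw [S.hf _ _ _ hs' hrs] at hn
      exact ⟨n, hn⟩
  let up : V → V := fun t => if h : ∃ s, S.U t s then h.choose else t
  have hupU : ∀ t ∈ C, S.U t (up t) := by
    intro t ht
    obtain ⟨s, hs, _⟩ := hup t ht
    have h : ∃ s, S.U t s := ⟨s, hs⟩
    simp only [up, dif_pos h]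
    exact h.choose_spec
  have hmaps : Set.MapsTo up C C := by
    intro t ht
    obtain ⟨s, hs, hsC⟩ := hup t ht
    rw [S.hf _ _ _ (hupU t ht) hs]
    exact hsC
  have hinj : Set.InjOn up C := by
    intro t ht t' ht' e
    refine S.hi t t' (up t) (hupU t ht) ?_
    rw [e]
    exact hupU t' ht'
  have hsurj : Set.SurjOn up C C := by
    have hfin := Set.toFinite C
    have := Finset.surjOn_of_injOn_of_card_le (s := hfin.toFinset) (t := hfin.toFinset) up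
      (by simpa using hmaps) (by simpa using hinj) le_rfl
    simpa using this
  let par : V → V := fun z => if h : ∃ t s, S.U t s ∧ S.y t = z then S.y h.choose_spec.choose else z
  have hpar : ∀ t s, S.U t s → par (S.y t) = S.y s := by
    intro t s hts
    have h : ∃ t' s', S.U t' s' ∧ S.y t' = S.y t := ⟨t, s, hts, rfl⟩
    simp only [par, dif_pos h]
    exact S.hyU _ _ _ _ h.choose_spec.choose_spec.1 hts h.choose_spec.choose_spec.2
  have hZmaps : Set.MapsTo par (S.y '' C) (S.y '' C) := by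
    rintro z ⟨t, ht, rfl⟩
    obtain ⟨s, hs, hsC⟩ := hup t ht
    rw [hpar t s hs]
    exact ⟨s, hsC, rfl⟩
  have hZsurj : Set.SurjOn par (S.y '' C) (S.y '' C) := by
    rintro z ⟨t, ht, rfl⟩
    obtain ⟨r, hr, rfl⟩ := hsurj ht
    exact ⟨S.y r, ⟨r, hr, rfl⟩, hpar _ _ (hupU r hr)⟩
  have hZinj : Set.InjOn par (S.y '' C) := by
    have hfin := Set.toFinite (S.y '' C)
    have := Finset.injOn_of_surjOn_of_card_le (s := hfin.toFinset) (t := hfin.toFinset) par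
      (by simpa only [Set.Finite.coe_toFinset] using hZmaps)
      (by simpa only [Set.Finite.coe_toFinset] using hZsurj) le_rfl
    simpa only [Set.Finite.coe_toFinset] using this
  obtain ⟨r, hr, e⟩ := hsurj htC
  have hrt : S.U r t := e ▸ hupU r hr
  obtain ⟨r₁, s₁, r₂, s₂, h₁, h₂, e₁, e₂, hne, _⟩ := S.hch t r hrt
  have hs : ∀ s, S.T s → S.y s = S.y t → s ∈ C := by
    intro s hsT e
    exact ⟨hsT, fun ⟨n, hn⟩ => hcon ⟨n, Ht.y_congr S hn ht e⟩⟩
  have hr₁ := hdn _ _ h₁ (hs s₁ (S.hT _ _ h₁).2 e₁)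
  have hr₂ := hdn _ _ h₂ (hs s₂ (S.hT _ _ h₂).2 e₂)
  apply hne
  apply hZinj ⟨r₁, hr₁, rfl⟩ ⟨r₂, hr₂, rfl⟩
  rw [hpar _ _ h₁, hpar _ _ h₂, e₁, e₂]

/-- every node has a bottom node below it in the same branch -/
theorem exists_bot [Finite V] (t : V) (ht : S.T t) :
    ∃ t', S.T t' ∧ (¬ ∃ r, S.U r t') ∧ S.b t' = S.b t ∧ Relation.ReflTransGen S.U t' t := by
  classical
  -- heights are bounded
  obtain ⟨N, hN⟩ : ∃ N, ∀ t n, S.Ht n t → n ≤ N := by
    let ht : V → ℕ := fun t => if h : ∃ n, S.Ht n t then h.choose else 0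
    obtain ⟨N, hN⟩ := (Set.finite_range ht).bddAbove
    refine ⟨N, fun t n hn => ?_⟩
    have h : ∃ n, S.Ht n t := ⟨n, hn⟩
    have e : ht t = n := by
      simp only [ht, dif_pos h]
      exact Ht.uniq S h.choose_spec hn
    rw [← e]
    exact hN ⟨t, rfl⟩
  obtain ⟨n, hn⟩ := S.exists_ht t ht
  obtain ⟨m, hm⟩ : ∃ m, m = N - n := ⟨_, rfl⟩
  induction m generalizing t n with
  | zero =>
    refine ⟨t, ht, ?_, rfl, .refl⟩
    rintro ⟨r, hr⟩
    have := hN r (n + 1) ⟨t, hr, hn⟩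
    omega
  | succ m ih =>
    by_cases h : ∃ r, S.U r t
    · obtain ⟨r, hr⟩ := h
      obtain ⟨t', h₁, h₂, h₃, h₄⟩ := ih r (S.hT _ _ hr).1 (n + 1) ⟨t, hr, hn⟩ (by omega)
      exact ⟨t', h₁, h₂, h₃.trans (S.hb _ _ hr), h₄.tail hr⟩
    · exact ⟨t, ht, h, rfl, .refl⟩

/-- the height of a node above is at most that of a node below -/
theorem Ht.le_of_anc {n m : ℕ} {t t' : V} (h : S.Ht n t) (h' : S.Ht m t')
    (ha : Relation.ReflTransGen S.U t' t) : n ≤ m := by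
  induction ha using Relation.ReflTransGen.head_induction_on generalizing m with
  | refl => exact (Ht.uniq S h h').le
  | head hac _ ih =>
    cases m with
    | zero => exact absurd ⟨_, hac⟩ h'.2
    | succ m =>
      obtain ⟨s, hs, hm⟩ := h'
      rw [S.hf _ _ _ hs hac] at hm
      exact (ih hm).trans (Nat.le_succ _)

theorem ht_bot {k : ℕ} {β t : V} (hβ : S.Ht k β) (hβb : ¬ ∃ r, S.U r β) (ht : S.T t)
    (htb : ¬ ∃ r, S.U r t) : S.Ht k t :=
  Ht.l_congr S hβ ht (S.hbot _ _ (Ht.T S hβ) ht hβb htb)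

theorem bot_of_ht [Finite V] {k : ℕ} {β t : V} (hβ : S.Ht k β) (hβb : ¬ ∃ r, S.U r β)
    (ht : S.Ht k t) : ¬ ∃ r, S.U r t := by
  rintro ⟨r, hr⟩
  obtain ⟨t', h₁, h₂, _, h₄⟩ := S.exists_bot r (S.hT _ _ hr).1
  have h₅ : S.Ht (k + 1) r := ⟨t, hr, ht⟩
  have := Ht.le_of_anc S h₅ (S.ht_bot hβ hβb h₁ h₂) h₄
  omega

theorem Gd.ht {κ : V → ℝ} {n : ℕ} {t : V} (h : S.Gd κ n t) : S.Ht n t := by
  induction n generalizing t with
  | zero => exact h
  | succ n ih =>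
    obtain ⟨s, hs, hn, _⟩ := h
    exact ⟨s, hs, ih hn⟩

theorem c_congr {κ : V → ℝ} {t t' s s' : V} (hs : S.U t s) (hs' : S.U t' s') (e : S.y t = S.y t') :
    S.c κ t ↔ S.c κ t' := by
  have e' : S.y s = S.y s' := S.hyU _ _ _ _ hs hs' e
  constructor
  · intro h s₁ r s₂ h₁ h₂ h₃
    rw [← e]
    refine h s r s₂ hs h₂ (h₃.trans ?_)
    rw [e', S.hf _ _ _ h₁ hs']
  · intro h s₁ r s₂ h₁ h₂ h₃
    rw [e]
    refine h s' r s₂ hs' h₂ (h₃.trans ?_)
    rw [← e', S.hf _ _ _ h₁ hs]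

theorem Gd.y_congr {κ : V → ℝ} {n : ℕ} {t t' : V} (h : S.Gd κ n t) (ht' : S.T t')
    (e : S.y t = S.y t') : S.Gd κ n t' := by
  induction n generalizing t t' with
  | zero => exact ⟨ht', fun hs => h.2 (S.hyT t' t ht' h.1 e.symm hs)⟩
  | succ n ih =>
    obtain ⟨s, hs, hn, hc⟩ := h
    obtain ⟨s', hs'⟩ := S.hyT t t' (S.hT _ _ hs).1 ht' e ⟨s, hs⟩
    exact ⟨s', hs', ih hn (S.hT _ _ hs').2 (S.hyU _ _ _ _ hs hs' e),
      (S.c_congr hs hs' e).symm.trans hc⟩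

theorem Gd.extend {κ : V → ℝ} (hκ : Function.Injective κ) {n : ℕ} {t : V} (h : S.Gd κ n t)
    (hb : ∃ r, S.U r t) : ∃ r, S.Gd κ (n + 1) r := by
  obtain ⟨r, hr⟩ := hb
  obtain ⟨r₁, s₁, r₂, s₂, h₁, h₂, e₁, e₂, hne, hall⟩ := S.hch t r hr
  have hκne : κ (S.y r₁) ≠ κ (S.y r₂) := fun e => hne (hκ e)
  have g₁ : S.Gd κ n s₁ := Gd.y_congr S h (S.hT _ _ h₁).2 e₁.symm
  have g₂ : S.Gd κ n s₂ := Gd.y_congr S h (S.hT _ _ h₂).2 e₂.symm
  have c₁ : S.c κ r₁ ↔ κ (S.y r₂) ≤ κ (S.y r₁) := by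
    constructor
    · intro hc
      exact hc s₁ r₂ s₂ h₁ h₂ (e₂.trans e₁.symm)
    · intro hle s r s' hs hrs e
      rw [S.hf _ _ _ hs h₁] at e
      rcases hall r s' hrs (e.trans e₁) with h | h
      · rw [h]
      · rw [h]; exact hle
  have c₂ : S.c κ r₂ ↔ κ (S.y r₁) ≤ κ (S.y r₂) := by
    constructor
    · intro hc
      exact hc s₂ r₁ s₁ h₂ h₁ (e₁.trans e₂.symm)
    · intro hle s r s' hs hrs e
      rw [S.hf _ _ _ hs h₂] at e
      rcases hall r s' hrs (e.trans e₂) with h | h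
      · rw [h]; exact hle
      · rw [h]
  rcases lt_or_gt_of_ne hκne with hlt | hlt
  · by_cases hev : Even (n + 1)
    · exact ⟨r₂, s₂, h₂, g₂, iff_of_true (c₂.2 hlt.le) hev⟩
    · exact ⟨r₁, s₁, h₁, g₁, iff_of_false (fun hc => absurd (c₁.1 hc) (not_le.2 hlt)) hev⟩
  · by_cases hev : Even (n + 1)
    · exact ⟨r₁, s₁, h₁, g₁, iff_of_true (c₁.2 hlt.le) hev⟩
    · exact ⟨r₂, s₂, h₂, g₂, iff_of_false (fun hc => absurd (c₂.1 hc) (not_le.2 hlt)) hev⟩

theorem exists_gd [Finite V] {κ : V → ℝ} (hκ : Function.Injective κ) {k : ℕ} {β : V}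
    (hβ : S.Ht k β) (hβb : ¬ ∃ r, S.U r β) (n : ℕ) (hn : n ≤ k) : ∃ t, S.Gd κ n t := by
  induction n with
  | zero =>
    clear hn hβb
    induction k generalizing β with
    | zero => exact ⟨β, hβ⟩
    | succ k ih =>
      obtain ⟨s, _, hs⟩ := hβ
      exact ih hs
  | succ n ih =>
    obtain ⟨t, ht⟩ := ih (by omega)
    refine Gd.extend S hκ ht ?_
    by_contra hb
    have := Ht.uniq S (Gd.ht S ht) (S.ht_bot hβ hβb (Ht.T S (Gd.ht S ht)) hb)
    omega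

/-- the node at height zero above a node of height `n` -/
theorem Ht.top {n : ℕ} {t : V} (h : S.Ht n t) :
    ∃ τ, S.T τ ∧ (¬ ∃ s, S.U τ s) ∧ S.b τ = S.b t ∧
      ∀ t', S.Ht n t' → S.b t' = S.b t → (∀ τ', S.T τ' → (¬ ∃ s, S.U τ' s) → S.b τ' = S.b t → τ' = τ) →
        t' = t := by
  induction n generalizing t with
  | zero =>
    refine ⟨t, h.1, h.2, rfl, fun t' ht' e hτ => hτ t' ht'.1 ht'.2 e⟩
  | succ n ih =>
    obtain ⟨s, hs, hn⟩ := h
    obtain ⟨τ, h₁, h₂, h₃, h₄⟩ := ih hn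
    refine ⟨τ, h₁, h₂, h₃.trans (S.hb _ _ hs).symm, fun t' ht' e hτ => ?_⟩
    obtain ⟨s', hs', hn'⟩ := ht'
    have : s' = s := h₄ s' hn' ((S.hb _ _ hs').symm.trans (e.trans (S.hb _ _ hs)))
      fun τ' a b c => hτ τ' a b (c.trans (S.hb _ _ hs).symm)
    subst this
    exact S.hi _ _ _ hs' hs

theorem eq_of_ht_of_b {n : ℕ} {t t' : V} (h : S.Ht n t) (h' : S.Ht n t') (e : S.b t' = S.b t) :
    t' = t := by
  obtain ⟨τ, h₁, h₂, h₃, h₄⟩ := Ht.top S h
  exact h₄ t' h' e fun τ' a b c => S.htop _ _ a h₁ (c.trans h₃.symm) b h₂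

theorem Gd.anc {κ : V → ℝ} {n : ℕ} {t t' : V} (h : S.Gd κ n t) (ha : Relation.ReflTransGen S.U t t') :
    ∃ m, S.Gd κ m t' := by
  induction ha using Relation.ReflTransGen.head_induction_on generalizing n with
  | refl => exact ⟨n, h⟩
  | head hac _ ih =>
    cases n with
    | zero => exact absurd ⟨_, hac⟩ h.2
    | succ n =>
      obtain ⟨s, hs, hg, _⟩ := h
      rw [S.hf _ _ _ hs hac] at hg
      exact ih hg

theorem Gd.not_viol {κ : V → ℝ} {m : ℕ} {t : V} (h : S.Gd κ m t)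
    (hb : (¬ ∃ r, S.U r t) → Even m) : ¬ S.viol κ t := by
  rintro ⟨s, hs, hv⟩
  cases m with
  | zero => exact h.2 ⟨s, hs⟩
  | succ m =>
    obtain ⟨s', hs', hg, hc⟩ := h
    rw [S.hf _ _ _ hs' hs] at hg
    rcases hv with ⟨hts, hct⟩ | ⟨hts, hct⟩ | ⟨hbt, hct⟩
    · cases m with
      | zero => exact absurd (hc.1 hct) (by decide)
      | succ m => obtain ⟨s'', hs'', _⟩ := hg; exact hts ⟨s'', hs''⟩
    · cases m with
      | zero => exact hg.2 hts
      | succ m =>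
        obtain ⟨s'', hs'', _, hc'⟩ := hg
        rw [hc, hc'] at hct
        simp only [Nat.even_add_one] at hct
        tauto
    · exact hct (hc.2 (hb hbt))

/-- **Main statement.** Some branch has no violation iff the common height of the bottom nodes is
even. -/
theorem exists_good_iff [Finite V] {κ : V → ℝ} (hκ : Function.Injective κ) {k : ℕ} {β : V}
    (hβ : S.Ht k β) (hβb : ¬ ∃ r, S.U r β) : (∃ x, S.good κ x) ↔ Even k := by
  constructor
  · rintro ⟨x, ⟨t, ht, hx⟩, hv⟩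
    obtain ⟨t', h₁, h₂, h₃, _⟩ := S.exists_bot t ht
    have hk := S.ht_bot hβ hβb h₁ h₂
    have key : ∀ n t, S.Ht n t → S.b t = x → S.Gd κ n t := by
      intro n
      induction n with
      | zero => intro t h _; exact h
      | succ n ih =>
        rintro t ⟨s, hs, hn⟩ hbt
        have hbs : S.b s = x := (S.hb _ _ hs).symm.trans hbt
        have hg := ih s hn hbs
        refine ⟨s, hs, hg, ?_⟩
        have hnv := hv t (S.hT _ _ hs).1 hbt
        cases n with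
        | zero =>
          refine iff_of_false (fun hc => hnv ⟨s, hs, Or.inl ⟨hg.2, hc⟩⟩) (by decide)
        | succ n =>
          obtain ⟨s', hs', _, hc'⟩ := hg
          have : ¬ (S.c κ t ↔ S.c κ s) := fun e => hnv ⟨s, hs, Or.inr (Or.inl ⟨⟨s', hs'⟩, e⟩)⟩
          rw [hc'] at this
          rw [Nat.even_add_one]
          tauto
    have hg := key k t' hk (h₃.trans hx)
    cases k with
    | zero => decide
    | succ k =>
      obtain ⟨s, hs, _, hc⟩ := hg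
      by_contra hodd
      exact hv t' h₁ (h₃.trans hx) ⟨s, hs, Or.inr (Or.inr ⟨h₂, fun h => hodd (hc.1 h)⟩)⟩
  · intro hev
    obtain ⟨t, ht⟩ := S.exists_gd hκ hβ hβb k le_rfl
    have htH := Gd.ht S ht
    have htb := S.bot_of_ht hβ hβb htH
    refine ⟨S.b t, ⟨t, Ht.T S htH, rfl⟩, fun t' ht' e => ?_⟩
    obtain ⟨t'', h₁, h₂, h₃, h₄⟩ := S.exists_bot t' ht'
    have := S.eq_of_ht_of_b htH (S.ht_bot hβ hβb h₁ h₂) (h₃.trans e)
    subst this
    obtain ⟨m, hm⟩ := Gd.anc S ht h₄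
    refine Gd.not_viol S hm fun hb' => ?_
    have := Ht.uniq S (Gd.ht S hm) (S.ht_bot hβ hβb ht' hb')
    rw [this]
    exact hev

end Sys

end Pool.Agent.H266LM
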