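import Pool.Agent.H266LM.Clos
import Pool.Agent.H266LM.Sys

/-! The classifier: sorts, key-free well-formedness, and the keyed tests. -/

namespace Pool.Agent.H266LM

/-- the sorts of nodes: hub, branches, tree nodes, levels, and three sorts of chain nodes -/
inductive Srt
  | H | B | Y | L | T0 | T1 | T2 | N
  deriving DecidableEq

/-- sort of a label vector -/
def dec (s : Fin 3 → Bool) : Srt :=
  match s 0, s 1, s 2 with
  | false, false, false => .N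
  | true, false, false => .H
  | false, true, false => .B
  | true, true, false => .Y
  | false, false, true => .L
  | true, false, true => .T0
  | false, true, true => .T1
  | true, true, true => .T2

def Srt.isT (a : Srt) : Prop := a = .T0 ∨ a = .T1 ∨ a = .T2

/-- `step a a'`: `a'` is the sort of the chain node above one of sort `a` -/
def step (a a' : Srt) : Prop := (a = .T0 ∧ a' = .T2) ∨ (a = .T1 ∧ a' = .T0) ∨ (a = .T2 ∧ a' = .T1)

theorem step.left {a a' : Srt} (h : step a a') : a.isT := by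
  rcases h with h | h | h <;> simp [Srt.isT, h.1]
theorem step.right {a a' : Srt} (h : step a a') : a'.isT := by
  rcases h with h | h | h <;> simp [Srt.isT, h.2]

theorem Srt.isT.ne_H {a : Srt} (h : a.isT) : a ≠ .H := by
  rcases h with h | h | h <;> simp [h]
theorem Srt.isT.ne_N {a : Srt} (h : a.isT) : a ≠ .N := by
  rcases h with h | h | h <;> simp [h]

variable {G : LGraph (Fin 3)}

def LGraph.srt (G : LGraph (Fin 3)) (v : G.V) : Srt := dec (G.lab v)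

/-- `s` is the chain node above `t` -/
def LGraph.Up (G : LGraph (Fin 3)) (t s : G.V) : Prop := G.Adj t s ∧ step (G.srt t) (G.srt s)

open Classical in
/-- a neighbour of sort `a` -/
noncomputable def LGraph.pk (G : LGraph (Fin 3)) (a : Srt) (t : G.V) : G.V :=
  if h : ∃ w, G.Adj t w ∧ G.srt w = a then h.choose else t

/-- chain nodes next to the hub `u` -/
def LGraph.RT (G : LGraph (Fin 3)) (u t : G.V) : Prop := G.Adj u t ∧ (G.srt t).isT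

structure WF1 (G : LGraph (Fin 3)) (u : G.V) : Prop where
  hu : G.srt u = .H
  nH : ∀ v, G.Adj u v → G.srt v ≠ .H
  cl : ∀ v w, G.Adj u v → G.Adj v w → G.srt w ≠ .N → w = u ∨ G.Adj u w
  ex : ∀ a, a = .B ∨ a = .Y ∨ a = .L → ∀ t, G.RT u t → ∃ x, G.Adj t x ∧ G.srt x = a
  un : ∀ a, a = .B ∨ a = .Y ∨ a = .L → ∀ t, G.RT u t → ∀ x x', G.Adj t x → G.srt x = a →
    G.Adj t x' → G.srt x' = a → x = x'
  upf : ∀ t s s', G.RT u t → G.Up t s → G.Up t s' → s = s'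
  dnf : ∀ t r r', G.RT u t → G.Up r t → G.Up r' t → r = r'

structure WF2 (G : LGraph (Fin 3)) (u : G.V) : Prop where
  hb : ∀ t s, G.RT u t → G.Up t s → G.pk .B t = G.pk .B s
  htop : ∀ t t', G.RT u t → G.RT u t' → G.pk .B t = G.pk .B t' → (¬ ∃ s, G.Up t s) →
    (¬ ∃ s, G.Up t' s) → t = t'
  hyT : ∀ a, a = .Y ∨ a = .L → ∀ t t', G.RT u t → G.RT u t' → G.pk a t = G.pk a t' →
    (∃ s, G.Up t s) → ∃ s, G.Up t' s
  hyU : ∀ a, a = .Y ∨ a = .L → ∀ t t' s s', G.RT u t → G.RT u t' → G.Up t s → G.Up t' s' →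
    G.pk a t = G.pk a t' → G.pk a s = G.pk a s'
  hbot : ∀ t t', G.RT u t → G.RT u t' → (¬ ∃ r, G.Up r t) → (¬ ∃ r, G.Up r t') →
    G.pk .L t = G.pk .L t'
  hch : ∀ t r, G.RT u t → G.Up r t → ∃ r₁ s₁ r₂ s₂, G.RT u s₁ ∧ G.Up r₁ s₁ ∧ G.RT u s₂ ∧
    G.Up r₂ s₂ ∧ G.pk .Y s₁ = G.pk .Y t ∧ G.pk .Y s₂ = G.pk .Y t ∧ G.pk .Y r₁ ≠ G.pk .Y r₂ ∧
    ∀ r s, G.RT u s → G.Up r s → G.pk .Y s = G.pk .Y t → G.pk .Y r = G.pk .Y r₁ ∨
      G.pk .Y r = G.pk .Y r₂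

theorem LGraph.Up.adj {t s : G.V} (h : G.Up t s) : G.Adj t s := h.1

theorem WF1.adj_of {u : G.V} (h : WF1 G u) {v w : G.V} (hv : G.Adj u v) (hw : G.Adj v w)
    (hs : G.srt w ≠ .H) (hn : G.srt w ≠ .N) : G.Adj u w := by
  rcases h.cl v w hv hw hn with e | e
  · rw [e] at hs; exact absurd h.hu hs
  · exact e

theorem WF1.rt_up {u : G.V} (h : WF1 G u) {t s : G.V} (ht : G.RT u t) (hs : G.Up t s) : G.RT u s :=
  ⟨h.adj_of ht.1 hs.1 hs.2.right.ne_H hs.2.right.ne_N, hs.2.right⟩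

theorem WF1.rt_dn {u : G.V} (h : WF1 G u) {t s : G.V} (hs' : G.RT u s) (hs : G.Up t s) : G.RT u t :=
  ⟨h.adj_of hs'.1 hs.1.symm hs.2.left.ne_H hs.2.left.ne_N, hs.2.left⟩

theorem LGraph.pk_spec {a : Srt} {t : G.V} (h : ∃ w, G.Adj t w ∧ G.srt w = a) :
    G.Adj t (G.pk a t) ∧ G.srt (G.pk a t) = a := by
  simp only [LGraph.pk, dif_pos h]
  exact h.choose_spec

theorem WF1.pk_spec {u : G.V} (h : WF1 G u) {a : Srt} (ha : a = .B ∨ a = .Y ∨ a = .L) {t : G.V}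
    (ht : G.RT u t) : G.Adj t (G.pk a t) ∧ G.srt (G.pk a t) = a :=
  LGraph.pk_spec (h.ex a ha t ht)

theorem WF1.pk_eq {u : G.V} (h : WF1 G u) {a : Srt} (ha : a = .B ∨ a = .Y ∨ a = .L) {t x : G.V}
    (ht : G.RT u t) (hx : G.Adj t x) (hs : G.srt x = a) : G.pk a t = x :=
  h.un a ha t ht _ _ (h.pk_spec ha ht).1 (h.pk_spec ha ht).2 hx hs

/-- the system of chains of a well-formed graph -/
noncomputable def toSys {u : G.V} (h : WF1 G u) (h' : WF2 G u) : Sys G.V where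
  T := G.RT u
  U t s := G.RT u t ∧ G.Up t s
  b := G.pk .B
  y := G.pk .Y
  l := G.pk .L
  hT t s hs := ⟨hs.1, h.rt_up hs.1 hs.2⟩
  hf t s s' hs hs' := h.upf t s s' hs.1 hs.2 hs'.2
  hi t t' s hs hs' := h.dnf s t t' (h.rt_up hs.1 hs.2) hs.2 hs'.2
  hb t s hs := h'.hb t s hs.1 hs.2
  htop t t' ht ht' e h₁ h₂ := h'.htop t t' ht ht' e (fun ⟨s, hs⟩ => h₁ ⟨s, ht, hs⟩)
    (fun ⟨s, hs⟩ => h₂ ⟨s, ht', hs⟩)
  hyT t t' ht ht' e hs := by
    obtain ⟨s, hs⟩ := hs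
    obtain ⟨s', hs'⟩ := h'.hyT .Y (Or.inl rfl) t t' ht ht' e ⟨s, hs.2⟩
    exact ⟨s', ht', hs'⟩
  hyU t t' s s' hs hs' e := h'.hyU .Y (Or.inl rfl) t t' s s' hs.1 hs'.1 hs.2 hs'.2 e
  hlT t t' ht ht' e hs := by
    obtain ⟨s, hs⟩ := hs
    obtain ⟨s', hs'⟩ := h'.hyT .L (Or.inr rfl) t t' ht ht' e ⟨s, hs.2⟩
    exact ⟨s', ht', hs'⟩
  hlU t t' s s' hs hs' e := h'.hyU .L (Or.inr rfl) t t' s s' hs.1 hs'.1 hs.2 hs'.2 e
  hbot t t' ht ht' h₁ h₂ := h'.hbot t t' ht ht' (fun ⟨r, hr⟩ => h₁ ⟨r, h.rt_dn ht hr, hr⟩)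
    (fun ⟨r, hr⟩ => h₂ ⟨r, h.rt_dn ht' hr, hr⟩)
  hch t r hr := by
    obtain ⟨r₁, s₁, r₂, s₂, a₁, b₁, a₂, b₂, e₁, e₂, hne, hall⟩ :=
      h'.hch t r (h.rt_up hr.1 hr.2) hr.2
    exact ⟨r₁, s₁, r₂, s₂, ⟨h.rt_dn a₁ b₁, b₁⟩, ⟨h.rt_dn a₂ b₂, b₂⟩, e₁, e₂, hne,
      fun r s hr e => hall r s (h.rt_up hr.1 hr.2) hr.2 e⟩

/-! ### The keyed features -/

/-- neighbours of sort `a` -/
def sQ (a : Srt) : (Fin 3 → Bool) → Prd (Fin 3) := fun _ K w => K.toLGraph.srt w = a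
/-- neighbours above -/
def uQ : (Fin 3 → Bool) → Prd (Fin 3) := fun s K w => step (dec s) (K.toLGraph.srt w)
/-- neighbours below -/
def dQ : (Fin 3 → Bool) → Prd (Fin 3) := fun s K w => step (K.toLGraph.srt w) (dec s)

def TopP : Prd (Fin 3) := fun K v => ¬ ∃ w, K.Adj v w ∧ uQ (K.lab v) K w
def BotP : Prd (Fin 3) := fun K v => ¬ ∃ w, K.Adj v w ∧ dQ (K.lab v) K w

def ttQ : (Fin 3 → Bool) → Prd (Fin 3) := fun _ K w => (K.toLGraph.srt w).isT ∧ TopP K w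
def tnQ : (Fin 3 → Bool) → Prd (Fin 3) := fun _ K w => (K.toLGraph.srt w).isT ∧ ¬ TopP K w
def tbQ : (Fin 3 → Bool) → Prd (Fin 3) := fun _ K w => (K.toLGraph.srt w).isT ∧ BotP K w
def tcQ : (Fin 3 → Bool) → Prd (Fin 3) := fun _ K w => (K.toLGraph.srt w).isT ∧ ¬ BotP K w

def key : Feat (Fin 3) := fun K v => K.val v
/-- key of the neighbour of sort `a` -/
noncomputable def ks (a : Srt) : Feat (Fin 3) := nmax (sQ a) key
/-- the same for the node above -/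
noncomputable def ksu (a : Srt) : Feat (Fin 3) := nmax uQ (ks a)
/-- key of the tree node of the node below -/
noncomputable def kyd : Feat (Fin 3) := nmax dQ (ks .Y)
/-- largest key of a child of a tree node -/
noncomputable def Mx : Feat (Fin 3) := nmax tcQ kyd
/-- least key of a child of a tree node -/
noncomputable def Mn : Feat (Fin 3) := fun K v => - nmax tcQ (fun K v => - kyd K v) K v
noncomputable def MxT : Feat (Fin 3) := nmax (sQ .Y) Mx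
noncomputable def MnT : Feat (Fin 3) := nmax (sQ .Y) Mn

def cK : Prd (Fin 3) := fun K t => ks .Y K t = nmax uQ MxT K t
def violK : Prd (Fin 3) := fun K t => (∃ s, K.Adj t s ∧ uQ (K.lab t) K s) ∧
  (((∃ s, K.Adj t s ∧ (uQ (K.lab t) K s ∧ TopP K s)) ∧ cK K t) ∨
    ((∃ s, K.Adj t s ∧ (uQ (K.lab t) K s ∧ ¬ TopP K s)) ∧
      (cK K t ↔ ∃ s, K.Adj t s ∧ (uQ (K.lab t) K s ∧ cK K s))) ∨
    (BotP K t ∧ ¬ cK K t))
def goodK : Prd (Fin 3) := fun K x => K.toLGraph.srt x = .B ∧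
  (∃ t, K.Adj x t ∧ (K.toLGraph.srt t).isT) ∧
  ¬ ∃ t, K.Adj x t ∧ ((K.toLGraph.srt t).isT ∧ violK K t)

def hcK : Prd (Fin 3) := fun K w => (∃ h, K.Adj w h ∧ sQ .H (K.lab w) K h) ∧ Same (sQ .H) key K w

def ok1 : Prd (Fin 3) := fun K v => K.toLGraph.srt v ≠ .H ∧ Same (sQ .H) key K v ∧
  (¬ ∃ w, K.Adj v w ∧ ((K.toLGraph.srt w ≠ .H ∧ K.toLGraph.srt w ≠ .N) ∧ ¬ hcK K w)) ∧
  (∀ w, K.Adj v w → (K.toLGraph.srt w ≠ .H ∧ K.toLGraph.srt w ≠ .N) →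
    ks .H K w = ks .H K v) ∧
  ((K.toLGraph.srt v).isT →
    (((∃ x, K.Adj v x ∧ sQ .B (K.lab v) K x) ∧ Same (sQ .B) key K v) ∧
    ((∃ x, K.Adj v x ∧ sQ .Y (K.lab v) K x) ∧ Same (sQ .Y) key K v) ∧
    ((∃ x, K.Adj v x ∧ sQ .L (K.lab v) K x) ∧ Same (sQ .L) key K v)) ∧
    Same uQ key K v ∧ Same dQ key K v)

def YL (a : Srt) : Prd (Fin 3) := fun K v =>
  ((¬ ∃ t, K.Adj v t ∧ tnQ (K.lab v) K t) ∨ (¬ ∃ t, K.Adj v t ∧ ttQ (K.lab v) K t)) ∧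
  Same tnQ (ksu a) K v

def ok2 : Prd (Fin 3) := fun K v =>
  ((K.toLGraph.srt v).isT →
    (∀ s, K.Adj v s → uQ (K.lab v) K s → ks .B K s = ks .B K v) ∧
    (¬ BotP K v → MxT K v ≠ MnT K v ∧ (kyd K v = MxT K v ∨ kyd K v = MnT K v))) ∧
  (K.toLGraph.srt v = .B → Same ttQ key K v) ∧
  (K.toLGraph.srt v = .Y → YL .Y K v) ∧
  (K.toLGraph.srt v = .L → YL .L K v)

def acc : Prd (Fin 3) := fun K u => K.toLGraph.srt u = .H ∧
  (¬ ∃ v, K.Adj u v ∧ ¬ ok1 K v) ∧ (¬ ∃ v, K.Adj u v ∧ ¬ ok2 K v) ∧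
  Same tbQ (ks .L) K u ∧ ∃ x, K.Adj u x ∧ goodK K x

/-! ### They are computed by feature expressions -/

theorem isP_srt (Q : Srt → Prop) : IsP fun K v => Q (K.toLGraph.srt v) :=
  IsP.lab fun s => Q (dec s)

theorem isP_sQ (a : Srt) : ∀ s, IsP (sQ a s) := fun _ => isP_srt fun b => b = a
theorem isP_uQ : ∀ s, IsP (uQ s) := fun s => isP_srt fun b => step (dec s) b
theorem isP_dQ : ∀ s, IsP (dQ s) := fun s => isP_srt fun b => step b (dec s)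
theorem isP_isT : IsP (fun K v => (K.toLGraph.srt v).isT) := isP_srt Srt.isT
theorem isP_Top : IsP TopP := (IsP.ex isP_uQ).not
theorem isP_Bot : IsP BotP := (IsP.ex isP_dQ).not
theorem isP_ttQ : ∀ s, IsP (ttQ s) := fun _ => isP_isT.and isP_Top
theorem isP_tnQ : ∀ s, IsP (tnQ s) := fun _ => isP_isT.and isP_Top.not
theorem isP_tbQ : ∀ s, IsP (tbQ s) := fun _ => isP_isT.and isP_Bot
theorem isP_tcQ : ∀ s, IsP (tcQ s) := fun _ => isP_isT.and isP_Bot.not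
theorem isLM_key : IsLM key := IsLM.val
theorem isLM_ks (a : Srt) : IsLM (ks a) := IsLM.nmax (isP_sQ a) isLM_key
theorem isLM_ksu (a : Srt) : IsLM (ksu a) := IsLM.nmax isP_uQ (isLM_ks a)
theorem isLM_kyd : IsLM kyd := IsLM.nmax isP_dQ (isLM_ks .Y)
theorem isLM_Mx : IsLM Mx := IsLM.nmax isP_tcQ isLM_kyd
theorem isLM_Mn : IsLM Mn := (IsLM.nmax isP_tcQ isLM_kyd.neg).neg
theorem isLM_MxT : IsLM MxT := IsLM.nmax (isP_sQ .Y) isLM_Mx
theorem isLM_MnT : IsLM MnT := IsLM.nmax (isP_sQ .Y) isLM_Mn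
theorem isP_c : IsP cK := IsP.eq (isLM_ks .Y) (IsLM.nmax isP_uQ isLM_MxT)
theorem isP_viol : IsP violK :=
  (IsP.ex isP_uQ).and
    (((IsP.ex (Q := fun s K w => uQ s K w ∧ TopP K w) fun s => (isP_uQ s).and isP_Top).and isP_c).or
    (((IsP.ex (Q := fun s K w => uQ s K w ∧ ¬ TopP K w) fun s => (isP_uQ s).and isP_Top.not).and
      (isP_c.iff (IsP.ex (Q := fun s K w => uQ s K w ∧ cK K w) fun s => (isP_uQ s).and isP_c))).or
    (isP_Bot.and isP_c.not)))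
theorem isP_good : IsP goodK :=
  (isP_srt fun b => b = .B).and (isP_isT.ex'.and (isP_isT.and isP_viol).ex'.not)
theorem isP_hc : IsP hcK := (IsP.ex (isP_sQ .H)).and (IsP.same (isP_sQ .H) isLM_key)
theorem isP_ok1 : IsP ok1 :=
  (isP_srt fun b => b ≠ .H).and ((IsP.same (isP_sQ .H) isLM_key).and
    (((isP_srt fun b => b ≠ .H ∧ b ≠ .N).and isP_hc.not).ex'.not.and
    ((IsP.allEq (Q := fun _ K w => K.toLGraph.srt w ≠ .H ∧ K.toLGraph.srt w ≠ .N)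
      (fun _ => isP_srt fun b => b ≠ .H ∧ b ≠ .N)
      (isLM_ks .H) (isLM_ks .H)).and
    (isP_isT.imp
      ((((IsP.ex (isP_sQ .B)).and (IsP.same (isP_sQ .B) isLM_key)).and
      (((IsP.ex (isP_sQ .Y)).and (IsP.same (isP_sQ .Y) isLM_key)).and
      ((IsP.ex (isP_sQ .L)).and (IsP.same (isP_sQ .L) isLM_key)))).and
      ((IsP.same isP_uQ isLM_key).and (IsP.same isP_dQ isLM_key)))))))
theorem isP_YL (a : Srt) : IsP (YL a) :=
  ((IsP.ex isP_tnQ).not.or (IsP.ex isP_ttQ).not).and (IsP.same isP_tnQ (isLM_ksu a))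
theorem isP_ok2 : IsP ok2 :=
  (isP_isT.imp ((IsP.allEq isP_uQ (isLM_ks .B) (isLM_ks .B)).and
    (isP_Bot.not.imp ((IsP.eq isLM_MxT isLM_MnT).not.and
      ((IsP.eq isLM_kyd isLM_MxT).or (IsP.eq isLM_kyd isLM_MnT)))))).and
  (((isP_srt fun b => b = .B).imp (IsP.same isP_ttQ isLM_key)).and
  (((isP_srt fun b => b = .Y).imp (isP_YL .Y)).and
  ((isP_srt fun b => b = .L).imp (isP_YL .L))))
theorem isP_acc : IsP acc :=
  (isP_srt fun b => b = .H).and (isP_ok1.not.ex'.not.and (isP_ok2.not.ex'.not.and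
    ((IsP.same isP_tbQ (isLM_ks .L)).and isP_good.ex')))

end Pool.Agent.H266LM
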