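import Pool.Agent.H266LM.Test

/-! The keyed tests are equivalent to key-free well-formedness, and the classifier is key-invariant. -/

namespace Pool.Agent.H266LM

variable {K : Keyed (Fin 3)} {u : K.V}

theorem same_key {Q : (Fin 3 → Bool) → Prd (Fin 3)} {v : K.V} :
    Same Q key K v ↔ ∀ w w', K.Adj v w → Q (K.lab v) K w → K.Adj v w' → Q (K.lab v) K w' →
      w = w' := by
  constructor
  · intro h w w' h₁ h₂ h₃ h₄
    exact K.inj (h w w' h₁ h₂ h₃ h₄)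
  · intro h w w' h₁ h₂ h₃ h₄
    rw [h w w' h₁ h₂ h₃ h₄]

theorem test1 : (K.toLGraph.srt u = .H ∧ ¬ ∃ v, K.Adj u v ∧ ¬ ok1 K v) ↔ WF1 K.toLGraph u := by
  constructor
  · rintro ⟨hu, hok'⟩
    have hok : ∀ v, K.Adj u v → ok1 K v := fun v hv => by
      by_contra h
      exact hok' ⟨v, hv, h⟩
    have hT : ∀ a, a = .B ∨ a = .Y ∨ a = .L → ∀ t, K.toLGraph.RT u t →
        ((∃ x, K.Adj t x ∧ sQ a (K.lab t) K x) ∧ Same (sQ a) key K t) := by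
      intro a ha t ht
      obtain ⟨⟨h₁, h₂, h₃⟩, -⟩ := (hok t ht.1).2.2.2.2 ht.2
      rcases ha with rfl | rfl | rfl
      · exact h₁
      · exact h₂
      · exact h₃
    refine ⟨hu, fun v hv => (hok v hv).1, ?_, ?_, ?_, ?_, ?_⟩
    · intro v w hv hw hN
      obtain ⟨h₁, h₂, h₃, h₄, _⟩ := hok v hv
      by_cases hs : K.toLGraph.srt w = .H
      · exact Or.inl (same_key.1 h₂ w u hw hs hv.symm hu)
      · right
        have hc : hcK K w := by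
          by_contra h
          exact h₃ ⟨w, hw, ⟨hs, hN⟩, h⟩
        obtain ⟨⟨x, hx, hxs⟩, hsame⟩ := hc
        have e := h₄ w hw ⟨hs, hN⟩
        have e₁ : ks .H K v = K.val u := nmax_eq _ _ _ _ ⟨u, hv.symm, hu⟩
          fun w' hw' hs' => by rw [same_key.1 h₂ w' u hw' hs' hv.symm hu]; rfl
        have e₂ : ks .H K w = K.val x := nmax_eq _ _ _ _ ⟨x, hx, hxs⟩
          fun w' hw' hs' => by rw [same_key.1 hsame w' x hw' hs' hx hxs]; rfl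
        rw [e₁, e₂] at e
        rw [K.inj e] at hx
        exact hx.symm
    · intro a ha t ht
      exact (hT a ha t ht).1
    · intro a ha t ht x x' h₁ h₂ h₃ h₄
      exact same_key.1 (hT a ha t ht).2 x x' h₁ h₂ h₃ h₄
    · intro t s s' ht hs hs'
      exact same_key.1 ((hok t ht.1).2.2.2.2 ht.2).2.1 s s' hs.1 hs.2 hs'.1 hs'.2
    · intro t r r' ht hr hr'
      exact same_key.1 ((hok t ht.1).2.2.2.2 ht.2).2.2 r r' hr.1.symm hr.2 hr'.1.symm hr'.2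
  · intro h
    refine ⟨h.hu, ?_⟩
    rintro ⟨v, hv, hn⟩
    apply hn
    have hHu : ∀ v w, K.Adj u v → K.Adj v w → K.toLGraph.srt w = .H → w = u := by
      intro v w hv hw hs
      rcases h.cl v w hv hw (by rw [hs]; decide) with e | e
      · exact e
      · exact absurd hs (h.nH w e)
    have hks : ∀ v, K.Adj u v → ks .H K v = K.val u := fun v hv =>
      nmax_eq _ _ _ _ ⟨u, hv.symm, h.hu⟩ fun w' hw' hs' => by rw [hHu v w' hv hw' hs']; rfl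
    refine ⟨h.nH v hv, ?_, ?_, ?_, ?_⟩
    · exact same_key.2 fun w w' h₁ h₂ h₃ h₄ => (hHu v w hv h₁ h₂).trans (hHu v w' hv h₃ h₄).symm
    · rintro ⟨w, hw, ⟨hs, hN⟩, hh⟩
      have hw' := h.adj_of hv hw hs hN
      exact hh ⟨⟨u, hw'.symm, h.hu⟩, same_key.2 fun x x' h₁ h₂ h₃ h₄ =>
        (hHu w x hw' h₁ h₂).trans (hHu w x' hw' h₃ h₄).symm⟩
    · intro w hw hs
      rw [hks v hv, hks w (h.adj_of hv hw hs.1 hs.2)]
    · intro hT
      have ht : K.toLGraph.RT u v := ⟨hv, hT⟩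
      refine ⟨⟨⟨h.ex .B (by simp) v ht, same_key.2 (h.un .B (by simp) v ht)⟩,
        ⟨h.ex .Y (by simp) v ht, same_key.2 (h.un .Y (by simp) v ht)⟩,
        ⟨h.ex .L (by simp) v ht, same_key.2 (h.un .L (by simp) v ht)⟩⟩, ?_, ?_⟩
      · exact same_key.2 fun s s' h₁ h₂ h₃ h₄ => h.upf v s s' ht ⟨h₁, h₂⟩ ⟨h₃, h₄⟩
      · exact same_key.2 fun s s' h₁ h₂ h₃ h₄ => h.dnf v s s' ht ⟨h₁.symm, h₂⟩ ⟨h₃.symm, h₄⟩

variable (h : WF1 K.toLGraph u)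

include h in
theorem ks_eq {a : Srt} (ha : a = .B ∨ a = .Y ∨ a = .L) {t : K.V} (ht : K.toLGraph.RT u t) :
    ks a K t = K.val (K.toLGraph.pk a t) :=
  nmax_eq _ _ _ _ ⟨_, h.pk_spec ha ht⟩ fun w hw hs => by
    rw [h.pk_eq ha ht hw hs]; rfl

include h in
theorem up_eq (F : Feat (Fin 3)) {t s : K.V} (ht : K.toLGraph.RT u t) (hs : K.toLGraph.Up t s) :
    nmax uQ F K t = F K s :=
  nmax_eq _ _ _ _ ⟨s, hs⟩ fun w hw hs' => by rw [h.upf t w s ht ⟨hw, hs'⟩ hs]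

include h in
theorem dn_eq (F : Feat (Fin 3)) {t r : K.V} (ht : K.toLGraph.RT u t) (hr : K.toLGraph.Up r t) :
    nmax dQ F K t = F K r :=
  nmax_eq _ _ _ _ ⟨r, hr.1.symm, hr.2⟩ fun w hw hs' => by rw [h.dnf t w r ht ⟨hw.symm, hs'⟩ hr]

theorem top_iff {t : K.V} : TopP K t ↔ ¬ ∃ s, K.toLGraph.Up t s := Iff.rfl

theorem bot_iff {t : K.V} : BotP K t ↔ ¬ ∃ r, K.toLGraph.Up r t := by
  refine not_congr (exists_congr fun r => ?_)
  exact and_congr ⟨fun h => h.symm, fun h => h.symm⟩ Iff.rfl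

include h in
theorem rt_of_adj {a : Srt} (ha : a = .B ∨ a = .Y ∨ a = .L) {z t : K.V} (hz : K.Adj u z)
    (hs : K.toLGraph.srt z = a) (hzt : K.Adj z t) (ht : (K.toLGraph.srt t).isT) :
    K.toLGraph.RT u t ∧ K.toLGraph.pk a t = z := by
  have hr : K.toLGraph.RT u t := ⟨h.adj_of hz hzt ht.ne_H ht.ne_N, ht⟩
  exact ⟨hr, h.pk_eq ha hr hzt.symm hs⟩

include h in
theorem adj_pk {a : Srt} (ha : a = .B ∨ a = .Y ∨ a = .L) {t : K.V} (ht : K.toLGraph.RT u t) :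
    K.Adj u (K.toLGraph.pk a t) ∧ K.toLGraph.srt (K.toLGraph.pk a t) = a ∧
      K.Adj (K.toLGraph.pk a t) t := by
  obtain ⟨h₁, h₂⟩ := h.pk_spec ha ht
  refine ⟨h.adj_of ht.1 h₁ ?_ ?_, h₂, h₁.symm⟩ <;>
  · rw [h₂]
    rcases ha with rfl | rfl | rfl <;> decide

include h in
theorem yl_iff {a : Srt} (ha : a = .Y ∨ a = .L) :
    (∀ z, K.Adj u z → K.toLGraph.srt z = a → YL a K z) ↔
      (∀ t t', K.toLGraph.RT u t → K.toLGraph.RT u t' → K.toLGraph.pk a t = K.toLGraph.pk a t' →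
        (∃ s, K.toLGraph.Up t s) → ∃ s, K.toLGraph.Up t' s) ∧
      (∀ t t' s s', K.toLGraph.RT u t → K.toLGraph.RT u t' → K.toLGraph.Up t s →
        K.toLGraph.Up t' s' → K.toLGraph.pk a t = K.toLGraph.pk a t' →
        K.toLGraph.pk a s = K.toLGraph.pk a s') := by
  have ha' : a = .B ∨ a = .Y ∨ a = .L := Or.inr ha
  have hksu : ∀ t s, K.toLGraph.RT u t → K.toLGraph.Up t s →
      ksu a K t = K.val (K.toLGraph.pk a s) := fun t s ht hs => by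
    rw [ksu, up_eq h _ ht hs, ks_eq h ha' (h.rt_up ht hs)]
  constructor
  · intro hz
    constructor
    · intro t t' ht ht' e hs
      obtain ⟨h₁, h₂, h₃⟩ := adj_pk h ha' ht
      obtain ⟨h₁', h₂', h₃'⟩ := adj_pk h ha' ht'
      rw [← e] at h₃'
      obtain ⟨hor, _⟩ := hz _ h₁ h₂
      rcases hor with hor | hor
      · exact absurd ⟨t, h₃, ht.2, fun hn => hn hs⟩ hor
      · by_contra hcon
        exact hor ⟨t', h₃', ht'.2, hcon⟩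
    · intro t t' s s' ht ht' hs hs' e
      obtain ⟨h₁, h₂, h₃⟩ := adj_pk h ha' ht
      obtain ⟨h₁', h₂', h₃'⟩ := adj_pk h ha' ht'
      rw [← e] at h₃'
      obtain ⟨_, hsame⟩ := hz _ h₁ h₂
      have := hsame t t' h₃ ⟨ht.2, fun hn => hn ⟨s, hs⟩⟩ h₃' ⟨ht'.2, fun hn => hn ⟨s', hs'⟩⟩
      rw [hksu t s ht hs, hksu t' s' ht' hs'] at this
      exact K.inj this
  · rintro ⟨hT, hU⟩ z hz hs
    constructor
    · by_contra hcon
      push Not at hcon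
      obtain ⟨⟨t, hzt, htT, htn⟩, t', hzt', htT', htt'⟩ := hcon
      obtain ⟨hr, e⟩ := rt_of_adj h ha' hz hs hzt htT
      obtain ⟨hr', e'⟩ := rt_of_adj h ha' hz hs hzt' htT'
      exact htt' (hT t t' hr hr' (e.trans e'.symm) (by
        by_contra hc
        exact htn hc))
    · rintro t t' hzt ⟨htT, htn⟩ hzt' ⟨htT', htn'⟩
      obtain ⟨hr, e⟩ := rt_of_adj h ha' hz hs hzt htT
      obtain ⟨hr', e'⟩ := rt_of_adj h ha' hz hs hzt' htT'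
      obtain ⟨s, hs⟩ := not_not.1 htn
      obtain ⟨s', hs'⟩ := not_not.1 htn'
      rw [hksu t s hr hs, hksu t' s' hr' hs', hU t t' s s' hr hr' hs hs' (e.trans e'.symm)]

/-! ### children -/

include h in
theorem tc_iff {z w : K.V} (hz : K.Adj u z) (hzs : K.toLGraph.srt z = .Y) :
    (K.Adj z w ∧ tcQ (K.lab z) K w) ↔ (K.toLGraph.RT u w ∧ K.toLGraph.pk .Y w = z ∧
      ∃ r, K.toLGraph.Up r w) := by
  have ha : (Srt.Y = .B ∨ Srt.Y = .Y ∨ Srt.Y = .L) := by simp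
  constructor
  · rintro ⟨hzw, hT, hb⟩
    obtain ⟨hr, e⟩ := rt_of_adj h ha hz hzs hzw hT
    rw [bot_iff, not_not] at hb
    exact ⟨hr, e, hb⟩
  · rintro ⟨hr, e, hb⟩
    obtain ⟨_, _, h₃⟩ := adj_pk h ha hr
    rw [e] at h₃
    refine ⟨h₃, hr.2, ?_⟩
    rw [bot_iff, not_not]
    exact hb

include h in
theorem kyd_eq {t r : K.V} (ht : K.toLGraph.RT u t) (hr : K.toLGraph.Up r t) :
    kyd K t = K.val (K.toLGraph.pk .Y r) := by
  rw [kyd, dn_eq h _ ht hr, ks_eq h (by simp) (h.rt_dn ht hr)]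

include h in
theorem mx_spec {s r : K.V} (hs : K.toLGraph.RT u s) (hr : K.toLGraph.Up r s) :
    (∃ r₁ s₁, K.toLGraph.RT u s₁ ∧ K.toLGraph.Up r₁ s₁ ∧
      K.toLGraph.pk .Y s₁ = K.toLGraph.pk .Y s ∧ K.val (K.toLGraph.pk .Y r₁) = MxT K s) ∧
    ∀ r' s', K.toLGraph.RT u s' → K.toLGraph.Up r' s' →
      K.toLGraph.pk .Y s' = K.toLGraph.pk .Y s → K.val (K.toLGraph.pk .Y r') ≤ MxT K s := by
  have ha : (Srt.Y = .B ∨ Srt.Y = .Y ∨ Srt.Y = .L) := by simp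
  obtain ⟨h₁, h₂, h₃⟩ := adj_pk h ha hs
  have e : MxT K s = Mx K (K.toLGraph.pk .Y s) :=
    nmax_eq _ _ _ _ ⟨_, h₃.symm, h₂⟩ fun w hw hws => by rw [h.pk_eq ha hs hw hws]
  obtain ⟨⟨w, hw, hq, ew⟩, hle⟩ := nmax_spec tcQ kyd K (K.toLGraph.pk .Y s)
    ⟨s, (tc_iff h h₁ h₂).2 ⟨hs, rfl, r, hr⟩⟩
  constructor
  · obtain ⟨hwr, he, r₁, hr₁⟩ := (tc_iff h h₁ h₂).1 ⟨hw, hq⟩
    refine ⟨r₁, w, hwr, hr₁, he, ?_⟩
    rw [e, Mx, ← ew, kyd_eq h hwr hr₁]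
  · intro r' s' hs' hr' e'
    obtain ⟨hz, hq'⟩ := (tc_iff h h₁ h₂).2 ⟨hs', e', r', hr'⟩
    have := hle s' hz hq'
    rw [kyd_eq h hs' hr'] at this
    rw [e, Mx]
    exact this

include h in
theorem mn_spec {s r : K.V} (hs : K.toLGraph.RT u s) (hr : K.toLGraph.Up r s) :
    (∃ r₁ s₁, K.toLGraph.RT u s₁ ∧ K.toLGraph.Up r₁ s₁ ∧
      K.toLGraph.pk .Y s₁ = K.toLGraph.pk .Y s ∧ K.val (K.toLGraph.pk .Y r₁) = MnT K s) ∧
    ∀ r' s', K.toLGraph.RT u s' → K.toLGraph.Up r' s' →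
      K.toLGraph.pk .Y s' = K.toLGraph.pk .Y s → MnT K s ≤ K.val (K.toLGraph.pk .Y r') := by
  have ha : (Srt.Y = .B ∨ Srt.Y = .Y ∨ Srt.Y = .L) := by simp
  obtain ⟨h₁, h₂, h₃⟩ := adj_pk h ha hs
  have e : MnT K s = Mn K (K.toLGraph.pk .Y s) :=
    nmax_eq _ _ _ _ ⟨_, h₃.symm, h₂⟩ fun w hw hws => by rw [h.pk_eq ha hs hw hws]
  obtain ⟨⟨w, hw, hq, ew⟩, hle⟩ := nmax_spec tcQ (fun K v => - kyd K v) K (K.toLGraph.pk .Y s)
    ⟨s, (tc_iff h h₁ h₂).2 ⟨hs, rfl, r, hr⟩⟩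
  constructor
  · obtain ⟨hwr, he, r₁, hr₁⟩ := (tc_iff h h₁ h₂).1 ⟨hw, hq⟩
    refine ⟨r₁, w, hwr, hr₁, he, ?_⟩
    rw [e, Mn, ← ew, kyd_eq h hwr hr₁, neg_neg]
  · intro r' s' hs' hr' e'
    obtain ⟨hz, hq'⟩ := (tc_iff h h₁ h₂).2 ⟨hs', e', r', hr'⟩
    have := hle s' hz hq'
    rw [kyd_eq h hs' hr'] at this
    rw [e, Mn]
    linarith

include h in
theorem mxT_congr {s s' : K.V} (hs : K.toLGraph.RT u s) (hs' : K.toLGraph.RT u s')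
    (e : K.toLGraph.pk .Y s = K.toLGraph.pk .Y s') : MxT K s = MxT K s' ∧ MnT K s = MnT K s' := by
  have ha : (Srt.Y = .B ∨ Srt.Y = .Y ∨ Srt.Y = .L) := by simp
  have key : ∀ (F : Feat (Fin 3)) s, K.toLGraph.RT u s →
      nmax (sQ .Y) F K s = F K (K.toLGraph.pk .Y s) := fun F s hs => by
    obtain ⟨h₁, h₂, h₃⟩ := adj_pk h ha hs
    exact nmax_eq _ _ _ _ ⟨_, h₃.symm, h₂⟩ fun w hw hws => by rw [h.pk_eq ha hs hw hws]
  constructor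
  · rw [MxT, key _ s hs, key _ s' hs', e]
  · rw [MnT, key _ s hs, key _ s' hs', e]

include h in
theorem ch_iff : (∀ t, K.toLGraph.RT u t → ¬ BotP K t → MxT K t ≠ MnT K t ∧
      (kyd K t = MxT K t ∨ kyd K t = MnT K t)) ↔
    (∀ t r, K.toLGraph.RT u t → K.toLGraph.Up r t → ∃ r₁ s₁ r₂ s₂, K.toLGraph.RT u s₁ ∧
      K.toLGraph.Up r₁ s₁ ∧ K.toLGraph.RT u s₂ ∧ K.toLGraph.Up r₂ s₂ ∧
      K.toLGraph.pk .Y s₁ = K.toLGraph.pk .Y t ∧ K.toLGraph.pk .Y s₂ = K.toLGraph.pk .Y t ∧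
      K.toLGraph.pk .Y r₁ ≠ K.toLGraph.pk .Y r₂ ∧
      ∀ r s, K.toLGraph.RT u s → K.toLGraph.Up r s → K.toLGraph.pk .Y s = K.toLGraph.pk .Y t →
        K.toLGraph.pk .Y r = K.toLGraph.pk .Y r₁ ∨ K.toLGraph.pk .Y r = K.toLGraph.pk .Y r₂) := by
  constructor
  · intro hh t r ht hr
    obtain ⟨⟨r₁, s₁, a₁, b₁, c₁, d₁⟩, _⟩ := mx_spec h ht hr
    obtain ⟨⟨r₂, s₂, a₂, b₂, c₂, d₂⟩, _⟩ := mn_spec h ht hr
    have hbt : ¬ BotP K t := by rw [bot_iff, not_not]; exact ⟨r, hr⟩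
    refine ⟨r₁, s₁, r₂, s₂, a₁, b₁, a₂, b₂, c₁, c₂, ?_, ?_⟩
    · intro e
      rw [e, d₂] at d₁
      exact (hh t ht hbt).1 d₁.symm
    · intro r' s' hs' hr' e
      have hbs : ¬ BotP K s' := by rw [bot_iff, not_not]; exact ⟨r', hr'⟩
      obtain ⟨_, hor⟩ := hh s' hs' hbs
      obtain ⟨e₁, e₂⟩ := mxT_congr h hs' ht e
      rw [kyd_eq h hs' hr', e₁, e₂] at hor
      rcases hor with hor | hor
      · left; exact K.inj (hor.trans d₁.symm)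
      · right; exact K.inj (hor.trans d₂.symm)
  · intro hh t ht hbt
    rw [bot_iff, not_not] at hbt
    obtain ⟨r, hr⟩ := hbt
    obtain ⟨r₁, s₁, r₂, s₂, a₁, b₁, a₂, b₂, c₁, c₂, hne, hall⟩ := hh t r ht hr
    obtain ⟨⟨r₃, s₃, a₃, b₃, c₃, d₃⟩, hmx⟩ := mx_spec h ht hr
    obtain ⟨⟨r₄, s₄, a₄, b₄, c₄, d₄⟩, hmn⟩ := mn_spec h ht hr
    have m₁ := hmx r₁ s₁ a₁ b₁ c₁
    have m₂ := hmx r₂ s₂ a₂ b₂ c₂
    have n₁ := hmn r₁ s₁ a₁ b₁ c₁
    have n₂ := hmn r₂ s₂ a₂ b₂ c₂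
    have hne' : K.val (K.toLGraph.pk .Y r₁) ≠ K.val (K.toLGraph.pk .Y r₂) := fun e => hne (K.inj e)
    have e₃ := hall r₃ s₃ a₃ b₃ c₃
    have e₄ := hall r₄ s₄ a₄ b₄ c₄
    have e₅ := hall r t ht hr rfl
    rw [kyd_eq h ht hr]
    rcases lt_or_gt_of_ne hne' with hlt | hlt
    · have f₃ : K.toLGraph.pk .Y r₃ = K.toLGraph.pk .Y r₂ := by
        rcases e₃ with e | e
        · rw [e] at d₃; exfalso; linarith
        · exact e
      have f₄ : K.toLGraph.pk .Y r₄ = K.toLGraph.pk .Y r₁ := by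
        rcases e₄ with e | e
        · exact e
        · rw [e] at d₄; exfalso; linarith
      rw [f₃] at d₃
      rw [f₄] at d₄
      rw [← d₃, ← d₄]
      refine ⟨hlt.ne', ?_⟩
      rcases e₅ with e | e
      · right; rw [e]
      · left; rw [e]
    · have f₃ : K.toLGraph.pk .Y r₃ = K.toLGraph.pk .Y r₁ := by
        rcases e₃ with e | e
        · exact e
        · rw [e] at d₃; exfalso; linarith
      have f₄ : K.toLGraph.pk .Y r₄ = K.toLGraph.pk .Y r₂ := by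
        rcases e₄ with e | e
        · rw [e] at d₄; exfalso; linarith
        · exact e
      rw [f₃] at d₃
      rw [f₄] at d₄
      rw [← d₃, ← d₄]
      refine ⟨hlt.ne', ?_⟩
      rcases e₅ with e | e
      · left; rw [e]
      · right; rw [e]

include h in
theorem test2 : ((¬ ∃ v, K.Adj u v ∧ ¬ ok2 K v) ∧ Same tbQ (ks .L) K u) ↔
    WF2 K.toLGraph u := by
  have hok : (¬ ∃ v, K.Adj u v ∧ ¬ ok2 K v) ↔ ∀ v, K.Adj u v → ok2 K v := by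
    push Not
    rfl
  rw [hok]
  have haB : (Srt.B = .B ∨ Srt.B = .Y ∨ Srt.B = .L) := by simp
  have haL : (Srt.L = .B ∨ Srt.L = .Y ∨ Srt.L = .L) := by simp
  constructor
  · rintro ⟨hv, hL⟩
    have hYL : ∀ a, a = .Y ∨ a = .L → ∀ z, K.Adj u z → K.toLGraph.srt z = a → YL a K z := by
      rintro a (rfl | rfl) z hz hs
      · exact (hv z hz).2.2.1 hs
      · exact (hv z hz).2.2.2 hs
    refine ⟨?_, ?_, ?_, ?_, ?_, ?_⟩
    · intro t s ht hs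
      have := ((hv t ht.1).1 ht.2).1 s hs.1 hs.2
      rw [ks_eq h haB ht, ks_eq h haB (h.rt_up ht hs)] at this
      exact (K.inj this).symm
    · intro t t' ht ht' e hn hn'
      obtain ⟨h₁, h₂, h₃⟩ := adj_pk h haB ht
      obtain ⟨h₁', h₂', h₃'⟩ := adj_pk h haB ht'
      rw [← e] at h₃'
      exact same_key.1 ((hv _ h₁).2.1 h₂) t t' h₃ ⟨ht.2, hn⟩ h₃' ⟨ht'.2, hn'⟩
    · intro a ha
      exact ((yl_iff h ha).1 (hYL a ha)).1
    · intro a ha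
      exact ((yl_iff h ha).1 (hYL a ha)).2
    · intro t t' ht ht' hn hn'
      have := hL t t' ht.1 ⟨ht.2, bot_iff.2 hn⟩ ht'.1 ⟨ht'.2, bot_iff.2 hn'⟩
      rw [ks_eq h haL ht, ks_eq h haL ht'] at this
      exact K.inj this
    · exact (ch_iff h).1 fun t ht => ((hv t ht.1).1 ht.2).2
  · intro h'
    refine ⟨fun v hv => ⟨fun hT => ⟨?_, ?_⟩, ?_, ?_, ?_⟩, ?_⟩
    · intro s hs hq
      have ht : K.toLGraph.RT u v := ⟨hv, hT⟩
      rw [ks_eq h haB ht, ks_eq h haB (h.rt_up ht ⟨hs, hq⟩), h'.hb v s ht ⟨hs, hq⟩]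
    · exact (ch_iff h).2 h'.hch v ⟨hv, hT⟩
    · intro hs
      refine same_key.2 fun t t' h₁ h₂ h₃ h₄ => ?_
      obtain ⟨hr, e⟩ := rt_of_adj h haB hv hs h₁ h₂.1
      obtain ⟨hr', e'⟩ := rt_of_adj h haB hv hs h₃ h₄.1
      exact h'.htop t t' hr hr' (e.trans e'.symm) h₂.2 h₄.2
    · exact (yl_iff h (Or.inl rfl)).2 ⟨h'.hyT .Y (Or.inl rfl), h'.hyU .Y (Or.inl rfl)⟩ v hv
    · exact (yl_iff h (Or.inr rfl)).2 ⟨h'.hyT .L (Or.inr rfl), h'.hyU .L (Or.inr rfl)⟩ v hv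
    · intro t t' h₁ h₂ h₃ h₄
      have ht : K.toLGraph.RT u t := ⟨h₁, h₂.1⟩
      have ht' : K.toLGraph.RT u t' := ⟨h₃, h₄.1⟩
      rw [ks_eq h haL ht, ks_eq h haL ht', h'.hbot t t' ht ht' (bot_iff.1 h₂.2) (bot_iff.1 h₄.2)]

end Pool.Agent.H266LM
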